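import Mathlib
import Pool.Agent.Work.MP_8efaaa_nt.R.Defs
import Pool.Agent.Work.MP_8efaaa_nt.R.DCtx
import Pool.Agent.Work.MP_8efaaa_nt.R.FShift

/-!
# Definitions of the block N5 (fixed file)

Congruent numbers `a = 5 (mod 8)`: complex conjugation, the Fricke involution and inertia.
-/

set_option autoImplicit false

namespace Pool.Agent.Work.MP_8efaaa_nt.N5

open NumberField Pool.Agent.Work.CM Pool.Agent.Work.MP_8efaaa_nt.R
open scoped Pointwise nonZeroDivisors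

noncomputable section

section ideals

variable {K : Type*} [Field K] [NumberField K] [Algebra K ℂ]

/-- the functions of the ideal `c` at the point `w0 - 1/4` -/
def Zm (s : K) (c : Ideal (𝓞 K)) : ℂ := fz (MM s c) (w0 s - 1 / 4)

def Km (s : K) (c : Ideal (𝓞 K)) : ℂ := fk (MM s c) (w0 s - 1 / 4)

def Vm (s : K) (c : Ideal (𝓞 K)) : ℂ := fv (MM s c) (w0 s - 1 / 4)

end ideals

/-- the ideal `(1 + s) / p`, `p` the prime above `2`; its norm is `(1 + a) / 2` -/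
def mI {K : Type*} [Field K] [NumberField K] (S : 𝓞 K) (a : ℕ) : Ideal (𝓞 K) :=
  Ideal.span {(((1 + a) / 2 : ℕ) : 𝓞 K), 1 + S}

/-- the conjugate ideal -/
def cj {K : Type*} [Field K] [NumberField K] (τ : 𝓞 K ≃+* 𝓞 K) (c : Ideal (𝓞 K)) : Ideal (𝓞 K) :=
  c.map (τ : 𝓞 K →+* 𝓞 K)

/-- `F` contains the values of the functions, a root of unity of order `8` and a real square root
`w` of `d` -/
structure ICtx (K F : Type*) [Field K] [NumberField K] [Algebra K ℂ] [Field F] [Algebra F ℂ]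
    (s : K) (d : ℕ) (ζ w : F) (z k v vm : Ideal (𝓞 K) → F) : Prop where
  dc : DCtx K F s ζ z k v
  hvm : ∀ c, OddI c → algebraMap F ℂ (vm c) = Vm s c
  hw : w ^ 2 = (d : F)
  hwr : (starRingEnd ℂ) (algebraMap F ℂ w) = algebraMap F ℂ w

/-- `σ` multiplies the argument of `z`, `k`, `v`, `vm` by the ideal `b`, and acts on `ζ` and on
`w` as the norm of `b` says -/
structure MAct {K F : Type*} [Field K] [NumberField K] [Field F] (d : ℕ) (ζ w : F)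
    (z k v vm : Ideal (𝓞 K) → F) (σ : F → F) (b : Ideal (𝓞 K)) : Prop where
  act : DAct z k v σ b
  actm : ∀ c, OddI c → σ (vm c) = vm (b * c)
  z8 : σ ζ = ζ ^ Ideal.absNorm b
  sq : σ w = (jacobiSym d (Ideal.absNorm b) : ℤ) * w

/-- The Galois data over `ℚ`. -/
structure IDat (K F : Type*) [Field K] [NumberField K] [Field F] [NumberField F] [Algebra K F]
    (a d : ℕ) (s : K) (S : 𝓞 K) (τ : 𝓞 K ≃+* 𝓞 K) (ζ w : F) (X Y V U : Ideal (𝓞 K) → F)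
    (κ : F ≃ₐ[ℚ] F) : Prop where
  gd : GDat K F s ζ X Y
  uv : ∀ c, OddI c → V c ≠ 0 ∧ U c ^ 2 + V c ^ 4 = 1 ∧ 1 + U c ≠ 0 ∧
    X c ^ 2 - 1 = 2 * X c * (1 + U c) / V c ^ 2 ∧
    Y c * (X c ^ 2 + 1) * V c = 4 * X c ^ 2 * (1 + U c) / V c ^ 2
  /-- the Fricke involution -/
  fr1 : ∀ c, Ideal.absNorm c % 4 = 1 →
    V (mI S a * c) ^ 2 * (1 + V c ^ 2) = -(1 - V c ^ 2)
  fr2 : ∀ c, Ideal.absNorm c % 4 = 1 →
    U (mI S a * c) * U c = 2 * ζ ^ 2 * V c * V (mI S a * c)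
  hw : w ^ 2 = (d : F)
  /-- all automorphisms act by odd ideals prime to `a` -/
  act3 : ∀ σ : F ≃ₐ[K] F, ∃ b : Ideal (𝓞 K), OddI b ∧ Nat.Coprime (Ideal.absNorm b) a ∧
    σ ζ = ζ ^ Ideal.absNorm b ∧ σ w = (jacobiSym d (Ideal.absNorm b) : ℤ) * w ∧
    ActsBy X Y σ b
  /-- complex conjugation -/
  cs : κ (algebraMap K F s) = -algebraMap K F s
  cz : κ ζ = ζ ^ 7
  cw : κ w = w
  cX : ∀ c, OddI c → κ (X c) = -X (cj τ c)
  cY1 : ∀ c, Ideal.absNorm c % 4 = 1 → κ (Y c) = -(ζ ^ 2 * Y (cj τ c))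
  cY3 : ∀ c, Ideal.absNorm c % 4 = 3 → κ (Y c) = ζ ^ 2 * Y (cj τ c)

/-- `ι` acts trivially modulo the prime ideal `L` -/
structure Inert {F : Type*} [Field F] [NumberField F] (ι : F ≃ₐ[ℚ] F) (L : Ideal (𝓞 F)) :
    Prop where
  prime : L.IsPrime
  ne_bot : L ≠ ⊥
  two : (2 : 𝓞 F) ∉ L
  triv : ∀ x : 𝓞 F, ∃ y ∈ L,
    algebraMap (𝓞 F) F y = ι (algebraMap (𝓞 F) F x) - algebraMap (𝓞 F) F x

end

end Pool.Agent.Work.MP_8efaaa_nt.N5
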