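import Mathlib
import Pool.Agent.Work.MP_8efaaa_nt.N5.Defs

/-!
# N5/DFix (S-M): what an inertia element fixes

PROOF. `inert_sq`: `e` is integral, `e = algebraMap E`, `E^2 = n`; `ι e = e` or `-e`; in the second case `-2 E ∈ L`, but `2 ∉ L` and `E ∉ L` (`E^2 = n ∉ L`).
`inert_zeta`: `ι ζ = ζ ^ j` with `j` odd (`ζ` is a primitive root of unity of order `8`, also `ι ζ`), `ζ ^ j - ζ ∈ L`; for `j = 3, 5, 7` the element
`ζ^j - ζ = ζ (ζ^(j-1) - 1)`, and `ζ^(j-1)` is `ζ^2`, `-1`, `-ζ^2`..; in all cases `(ζ^(j-1) - 1)` divides `2`, so `2 ∈ L`. Alternatively `ζ^2` and `ζ - ζ^3` (square `2`) are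
fixed by `inert_sq`. `inert_w`: `e = s / (w ζ^2)` satisfies `e^2 = (-a)/(d (-1)) = a / d`, not in `L` (`a` squarefree, `l ∣ d`, `l ∈ L`: `a/d` is prime to `l`), so `ι e = e`;
`ι s = -s`, `ι ζ = ζ`: `ι w = -w`.
-/

set_option autoImplicit false

namespace Pool.Agent.Work.MP_8efaaa_nt.N5

open NumberField

variable {F : Type*} [Field F] [NumberField F] {ι : F ≃ₐ[ℚ] F} {L : Ideal (𝓞 F)}

theorem inert_sq (h : Inert ι L) {e : F} {n : ℤ} (he : e ^ 2 = (n : F)) (hn : (n : 𝓞 F) ∉ L) :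
    ι e = e := by
  have hint : IsIntegral ℤ e := by
    refine IsIntegral.of_pow (n := 2) (by norm_num) ?_
    rw [he]
    exact isIntegral_algebraMap (x := n)
  obtain ⟨E, hE⟩ : ∃ E : 𝓞 F, algebraMap (𝓞 F) F E = e := ⟨⟨e, hint⟩, rfl⟩
  have h1 : (ι e) ^ 2 = e ^ 2 := by
    rw [← map_pow, he, map_intCast]
  rcases sq_eq_sq_iff_eq_or_eq_neg.mp h1 with h2 | h2
  · exact h2
  · exfalso
    obtain ⟨y, hy, hyE⟩ := h.triv E
    rw [hE, h2] at hyE
    have h3 : y = -(2 * E) := by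
      apply NumberField.RingOfIntegers.coe_injective
      rw [hyE, map_neg, map_mul, hE]
      simp only [map_ofNat]
      ring
    have h4 : 2 * E ∈ L := by
      have := L.neg_mem hy
      rwa [h3, neg_neg] at this
    have hp := h.prime
    rcases hp.mem_or_mem h4 with h5 | h5
    · exact h.two h5
    · apply hn
      have h6 : (n : 𝓞 F) = E * E := by
        apply NumberField.RingOfIntegers.coe_injective
        rw [map_mul, hE, map_intCast, ← he, sq]
      rw [h6]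
      exact L.mul_mem_left E h5

theorem inert_zeta (h : Inert ι L) {ζ : F} (hζ : ζ ^ 4 = -1) : ι ζ = ζ := by
  have h1 : ι (ζ ^ 2) = ζ ^ 2 := by
    refine inert_sq h (n := -1) ?_ ?_
    · push_cast
      rw [← hζ]
      ring
    · intro hc
      have h2 : (1 : 𝓞 F) ∈ L := by
        have := L.neg_mem hc
        push_cast at this
        rwa [neg_neg] at this
      exact h.prime.ne_top ((Ideal.eq_top_iff_one L).2 h2)
  have h2 : ι (ζ - ζ ^ 3) = ζ - ζ ^ 3 := by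
    refine inert_sq h (n := 2) ?_ ?_
    · push_cast
      linear_combination (ζ ^ 2 - 2) * hζ
    · have := h.two
      exact_mod_cast this
  have h3 : ζ - ζ ^ 3 = ζ * (1 - ζ ^ 2) := by ring
  rw [h3, map_mul, map_sub, map_one, h1] at h2
  have h4 : (1 : F) - ζ ^ 2 ≠ 0 := by
    intro hc
    have h5 : ζ ^ 2 = 1 := by linear_combination -hc
    have h6 : ζ ^ 4 = 1 := by
      calc ζ ^ 4 = (ζ ^ 2) ^ 2 := by ring
        _ = 1 := by rw [h5, one_pow]
    rw [h6] at hζ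
    norm_num at hζ
  exact mul_right_cancel₀ h4 h2

theorem inert_w (h : Inert ι L) {ζ : F} (hζ : ζ ^ 4 = -1) {s w : F} {a d l : ℕ}
    (ha : Squarefree a) (hs : s ^ 2 = -(a : F)) (hw : w ^ 2 = (d : F)) (hd : d ∣ a)
    (hl : l.Prime) (hld : l ∣ d) (hL : (l : 𝓞 F) ∈ L) (hι : ι s = -s) : ι w = -w := by
  have hz := inert_zeta h hζ
  obtain ⟨m, hm⟩ := hd
  have ha0 : a ≠ 0 := ha.ne_zero
  have hd0 : d ≠ 0 := by
    rintro rfl
    rw [zero_mul] at hm
    exact ha0 hm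
  have hdF : (d : F) ≠ 0 := Nat.cast_ne_zero.mpr hd0
  have haF : (a : F) ≠ 0 := Nat.cast_ne_zero.mpr ha0
  have hw0 : w ≠ 0 := by
    rintro rfl
    rw [zero_pow two_ne_zero] at hw
    exact hdF hw.symm
  have hs0 : s ≠ 0 := by
    rintro rfl
    rw [zero_pow two_ne_zero] at hs
    exact haF (neg_eq_zero.mp hs.symm)
  have hζ0 : ζ ≠ 0 := by
    rintro rfl
    rw [zero_pow (by norm_num)] at hζ
    norm_num at hζ
  have hcop : Nat.Coprime l m := by
    rw [hl.coprime_iff_not_dvd]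
    rintro ⟨k, hk⟩
    obtain ⟨j, hj⟩ := hld
    have h1 : l * l ∣ a := ⟨j * k, by rw [hm, hj, hk]; ring⟩
    exact hl.one_lt.ne' (Nat.isUnit_iff.mp (ha l h1))
  have hmL : ((m : ℤ) : 𝓞 F) ∉ L := by
    intro hc
    have h1 := Nat.gcd_eq_gcd_ab l m
    rw [hcop] at h1
    have h2 : (1 : 𝓞 F) = (l : 𝓞 F) * ((Nat.gcdA l m : ℤ) : 𝓞 F) +
        ((m : ℤ) : 𝓞 F) * ((Nat.gcdB l m : ℤ) : 𝓞 F) := by
      have := congrArg (fun x : ℤ => (x : 𝓞 F)) h1
      push_cast at this ⊢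
      exact this
    have h3 : (1 : 𝓞 F) ∈ L := by
      rw [h2]
      exact L.add_mem (L.mul_mem_right _ hL) (L.mul_mem_right _ hc)
    exact h.prime.ne_top ((Ideal.eq_top_iff_one L).2 h3)
  obtain ⟨e, he⟩ : ∃ e : F, e = s / (w * ζ ^ 2) := ⟨_, rfl⟩
  have he1 : e * (w * ζ ^ 2) = s := by
    rw [he]
    field_simp
  have he2 : e ^ 2 = ((m : ℤ) : F) := by
    have h1 : (e * (w * ζ ^ 2)) ^ 2 = -(a : F) := by rw [he1, hs]
    have h2 : (e * (w * ζ ^ 2)) ^ 2 = e ^ 2 * (d : F) * ζ ^ 4 := by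
      rw [← hw]
      ring
    rw [h2, hζ, hm] at h1
    push_cast at h1 ⊢
    have h3 : (d : F) * (e ^ 2 - m) = 0 := by linear_combination -h1
    rcases mul_eq_zero.mp h3 with h4 | h4
    · exact absurd h4 hdF
    · linear_combination h4
  have hee := inert_sq h he2 hmL
  have h5 := congrArg ι he1
  rw [map_mul, map_mul, map_pow, hee, hz, hι, ← he1] at h5
  have he0 : e ≠ 0 := by
    rintro rfl
    rw [zero_mul] at he1
    exact hs0 he1.symm
  have h6 : (e * ζ ^ 2) * (ι w + w) = 0 := by linear_combination h5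
  rcases mul_eq_zero.mp h6 with h7 | h7
  · exact absurd h7 (mul_ne_zero he0 (pow_ne_zero 2 hζ0))
  · linear_combination h7

end Pool.Agent.Work.MP_8efaaa_nt.N5
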