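import Mathlib
import Pool.Agent.Work.CM.Defs
import Pool.Agent.Work.MP_8efaaa_nt.R.AInt

/-!
# N5/BCjA (M): complex conjugation of the functions of a pair `(M, w)`

PROOF. `wp`, `wpd`, `ev` of a lattice are given by series (`Work/CM/Defs`); complex conjugation is continuous and commutes with the sums (look
for an existing lemma in Work/CM or Work/MP_787500_nt: `conj`, `wp_conj`, `starRingEnd`), so `conj (wp L z) = wp (conj L) (conj z)`, the same
for `wpd`; `ev N L` is the value of `wp N` at the points of `L` outside `N`. Then `sg`, `SS`, `fz`, `fk`, `fv` by unfolding; `Ch (cjL M) (conj w) k =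
cjL (Ch M w k)`. The conjugate lattice is `cjL M = M.map (complex conjugation as a ℤ-linear map)`.
-/

set_option autoImplicit false

namespace Pool.Agent.Work.MP_8efaaa_nt.N5

open Pool.Agent.Work.CM Pool.Agent.Work.MP_8efaaa_nt.R
open scoped Pointwise

/-- the complex conjugate of a lattice -/
noncomputable def cjL (M : Submodule ℤ ℂ) : Submodule ℤ ℂ :=
  M.map ((starRingEnd ℂ : ℂ →+* ℂ).toAddMonoidHom.toIntLinearMap)

theorem mem_cjL {M : Submodule ℤ ℂ} {z : ℂ} : z ∈ cjL M ↔ (starRingEnd ℂ) z ∈ M := by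
  unfold cjL
  rw [Submodule.mem_map]
  constructor
  · rintro ⟨y, hy, rfl⟩
    have : (starRingEnd ℂ) ((starRingEnd ℂ) y) ∈ M := by
      rw [Complex.conj_conj]
      exact hy
    exact this
  · intro h
    refine ⟨(starRingEnd ℂ) z, h, ?_⟩
    exact Complex.conj_conj z

private theorem mem_conj {M : Submodule ℤ ℂ} {z : ℂ} : (starRingEnd ℂ) z ∈ cjL M ↔ z ∈ M := by
  rw [mem_cjL, Complex.conj_conj]

private noncomputable def cjE (M : Submodule ℤ ℂ) : M ≃ cjL M where
  toFun l := ⟨(starRingEnd ℂ) l, mem_conj.2 l.2⟩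
  invFun l := ⟨(starRingEnd ℂ) l, mem_cjL.1 l.2⟩
  left_inv l := by
    apply Subtype.ext
    exact Complex.conj_conj _
  right_inv l := by
    apply Subtype.ext
    exact Complex.conj_conj _

private theorem cjE_coe (M : Submodule ℤ ℂ) (l : M) :
    ((cjE M l : cjL M) : ℂ) = (starRingEnd ℂ) (l : ℂ) := rfl

private theorem wp_cj (M : Submodule ℤ ℂ) (z : ℂ) :
    (starRingEnd ℂ) (wp M z) = wp (cjL M) ((starRingEnd ℂ) z) := by
  unfold wp
  rw [Complex.conj_tsum, ← (cjE M).tsum_eq]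
  refine tsum_congr fun l => ?_
  rw [cjE_coe]
  simp

private theorem wpd_cj (M : Submodule ℤ ℂ) (z : ℂ) :
    (starRingEnd ℂ) (wpd M z) = wpd (cjL M) ((starRingEnd ℂ) z) := by
  unfold wpd
  rw [map_neg, Complex.conj_tsum, ← (cjE M).tsum_eq]
  congr 1
  refine tsum_congr fun l => ?_
  rw [cjE_coe]
  simp only [map_div₀, map_pow, map_sub, map_ofNat]

private theorem lat_cj {M : Submodule ℤ ℂ} (h : IsLat M) : IsLat (cjL M) := by
  obtain ⟨P, rfl⟩ := h
  have hind : LinearIndependent ℝ ![(starRingEnd ℂ) P.ω₁, (starRingEnd ℂ) P.ω₂] := by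
    have h1 := P.indep
    rw [LinearIndependent.pair_iff] at h1 ⊢
    intro s t hst
    refine h1 s t ?_
    have h2 := congrArg (starRingEnd ℂ) hst
    simpa using h2
  refine ⟨⟨(starRingEnd ℂ) P.ω₁, (starRingEnd ℂ) P.ω₂, hind⟩, ?_⟩
  ext z
  rw [mem_cjL, PeriodPair.mem_lattice, PeriodPair.mem_lattice]
  constructor
  · rintro ⟨m, n, rfl⟩
    exact ⟨m, n, by simp⟩
  · rintro ⟨m, n, h⟩
    refine ⟨m, n, ?_⟩
    have h2 := congrArg (starRingEnd ℂ) h
    rw [Complex.conj_conj] at h2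
    rw [← h2]
    simp

private theorem le_cj {M N : Submodule ℤ ℂ} (h : M ≤ N) : cjL M ≤ cjL N := by
  intro z hz
  rw [mem_cjL] at hz ⊢
  exact h hz

private theorem two_cj {N L : Submodule ℤ ℂ} (h : Two N L) : Two (cjL N) (cjL L) where
  lat := lat_cj h.lat
  lat' := lat_cj h.lat'
  le := le_cj h.le
  ex := by
    obtain ⟨u, hu, hu', h2⟩ := h.ex
    refine ⟨(starRingEnd ℂ) u, mem_conj.2 hu, fun h3 => hu' (mem_conj.1 h3), fun z hz => ?_⟩
    rcases h2 _ (mem_cjL.1 hz) with h3 | h3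
    · exact Or.inl (mem_cjL.2 h3)
    · right
      rw [mem_cjL, map_sub, Complex.conj_conj]
      exact h3

private theorem ev_cj {N L : Submodule ℤ ℂ} (h : Two N L) :
    (starRingEnd ℂ) (ev N L) = ev (cjL N) (cjL L) := by
  obtain ⟨u, hu, hu', -⟩ := h.ex
  rw [← h.ev_eq hu hu', wp_cj,
    (two_cj h).ev_eq (mem_conj.2 hu) (fun h3 => hu' (mem_conj.1 h3))]

private theorem sg_cj {N L : Submodule ℤ ℂ} (h : Two N L) (z : ℂ) :
    (starRingEnd ℂ) (sg N L z) = sg (cjL N) (cjL L) ((starRingEnd ℂ) z) := by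
  unfold sg
  rw [map_div₀, map_mul, map_sub, wp_cj, wpd_cj, ev_cj h, map_ofNat]

private theorem Ch_cj (M : Submodule ℤ ℂ) (w : ℂ) (k : ℕ) :
    cjL (Ch M w k) = Ch (cjL M) ((starRingEnd ℂ) w) k := by
  unfold Ch cjL
  rw [Submodule.map_sup, Submodule.map_span, Set.image_singleton]
  congr 3
  show (starRingEnd ℂ) _ = _
  rw [map_mul, map_pow, map_ofNat]

private theorem fr_cj {M : Submodule ℤ ℂ} {w : ℂ} (h : Fr M w) :
    Fr (cjL M) ((starRingEnd ℂ) w) where
  lat := lat_cj h.lat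
  mem := by
    rw [mem_cjL, map_mul, Complex.conj_conj, map_ofNat]
    exact h.mem
  nmem := by
    rw [mem_cjL, map_mul, Complex.conj_conj, map_ofNat]
    exact h.nmem

private theorem SS_cj {M : Submodule ℤ ℂ} {w : ℂ} (h : Fr M w) {j : ℕ} (hj : j ≤ 3) :
    (starRingEnd ℂ) (SS M w j) = SS (cjL M) ((starRingEnd ℂ) w) j := by
  unfold SS
  rw [sg_cj (two_Ch h (by omega : j + 1 < 5)), Ch_cj, Ch_cj, map_mul, map_pow, map_ofNat]

theorem conj_f {M : Submodule ℤ ℂ} {w : ℂ} (h : Fr M w) :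
    Fr (cjL M) ((starRingEnd ℂ) w) ∧
      (starRingEnd ℂ) (fz M w) = fz (cjL M) ((starRingEnd ℂ) w) ∧
      (starRingEnd ℂ) (fk M w) = fk (cjL M) ((starRingEnd ℂ) w) ∧
      (starRingEnd ℂ) (fv M w) = fv (cjL M) ((starRingEnd ℂ) w) := by
  refine ⟨fr_cj h, ?_, ?_, ?_⟩
  · unfold fz
    rw [map_div₀, SS_cj h le_rfl, sg_cj (two_Ch h (by omega : 4 < 5)), Ch_cj, Ch_cj, map_mul,
      map_ofNat]
  · unfold fk
    rw [map_div₀, map_sub, map_mul, SS_cj h (by omega), SS_cj h (by omega), SS_cj h le_rfl,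
      map_ofNat]
  · unfold fv
    rw [map_div₀, map_sub, map_mul, SS_cj h (by omega), SS_cj h (by omega), SS_cj h (by omega),
      map_ofNat]

end Pool.Agent.Work.MP_8efaaa_nt.N5
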