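import Mathlib
import Pool.Agent.Work.MP_8efaaa_nt.R.AInt

/-!
# N5/ALat1 (M): the same lattice, the point `w + g`, `g` of order four

Tested numerically (random lattices). PROOF. `2 g ∉ Ch 4 = M + ℤ 16 w`, so `g` is, modulo `M`, of the form `8 x w + y m / 4` with
`y` odd, where `M = ⟨32 w, m⟩`. `Ch M (w+g) k = Ch M w k` for `k = 2, 3, 4, 5` (as `4 g ∈ M`: `2 ^ k (w + g) = 2 ^ k w + (multiple of 4 g)`).
So `SS M (w+g) 3 = SS M w 3`, `SS M (w+g) 2 = SS M w 2`, `fz` does not change (values of `sg` at arguments that differ by an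
element of the smaller lattice, `8 g ∈ M`, `4 g ∈ M ⊆ Ch 4`). `S_1`: `sg (Ch 3) (Ch 2) (2 w)` and `sg (Ch 3) (Ch 2) (2 w + 2 g)`, where `2 g` is a point of
order two modulo `Ch 3` outside `Ch 2`: their sum is `2 S_2` (this is `S_1 -> 2 S_2 - S_1` of the quarter turn, see block A:
`sg` of `Ch 4 ⊂ Ch 3` at `4 w` against the sum of the two values of `sg (Ch 3) (Ch 2)`; look for the lemma used for `quarter_turn`
in R/SA.lean ... R/SI.lean, R/AInt.lean). So `fk (w + g) = (S_1' - S_2) / (2 S_3) = - fk w`. Finally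
`fvz_sq` : `(fv fz)^2 = 2 fk` for both, and `fz ≠ 0`, gives `fv (w+g)^2 = - fv w ^2`.
-/

set_option autoImplicit false

namespace Pool.Agent.Work.MP_8efaaa_nt.N5

open Pool.Agent.Work.CM Pool.Agent.Work.MP_8efaaa_nt.R
open scoped Pointwise

private theorem ch_same {M : Submodule ℤ ℂ} {w g : ℂ} (hg : 4 * g ∈ M) {k : ℕ} (hk : 2 ≤ k) :
    Ch M (w + g) k = Ch M w k := by
  have hgk : (2 : ℂ) ^ k * g ∈ M := by
    obtain ⟨j, rfl⟩ := Nat.exists_eq_add_of_le hk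
    have e : (2 : ℂ) ^ (2 + j) * g = ((2 ^ j : ℕ) : ℂ) * (4 * g) := by
      push_cast
      ring
    rw [e]
    exact natmul_mem hg _
  ext z
  rw [mem_Ch, mem_Ch]
  constructor
  · rintro ⟨m, hm, n, rfl⟩
    refine ⟨m + n * (2 ^ k * g), add_mem hm (intmul_mem hgk n), n, ?_⟩
    ring
  · rintro ⟨m, hm, n, rfl⟩
    refine ⟨m - n * (2 ^ k * g), sub_mem hm (intmul_mem hgk n), n, ?_⟩
    ring

private theorem notMem_three {M : Submodule ℤ ℂ} {w x : ℂ} (h : Fr M w) (hx : 2 * x ∈ M)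
    (hx' : x ∉ Ch M w 4) : x ∉ Ch M w 3 := by
  intro h3
  obtain ⟨m, hm, n, rfl⟩ := mem_Ch.1 h3
  have h1 : ((16 * n : ℤ) : ℂ) * w ∈ M := by
    have e : ((16 * n : ℤ) : ℂ) * w = 2 * (m + n * (2 ^ 3 * w)) - ((2 : ℤ) : ℂ) * m := by
      push_cast
      ring
    rw [e]
    exact sub_mem hx (intmul_mem hm 2)
  have h2 := (int_mem_M h).1 h1
  obtain ⟨c, hc⟩ : (2 : ℤ) ∣ n := by omega
  refine hx' (mem_Ch.2 ⟨m, hm, c, ?_⟩)
  rw [hc]
  push_cast
  ring

theorem same_quarter {M : Submodule ℤ ℂ} {w g : ℂ} (h : Fr M w) (hg : 4 * g ∈ M)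
    (hg' : 2 * g ∉ Ch M w 4) :
    Fr M (w + g) ∧ fz M (w + g) = fz M w ∧ fk M (w + g) = -fk M w ∧
      fv M (w + g) ^ 2 = -fv M w ^ 2 := by
  have c5 := ch_same (w := w) hg (k := 5) (by norm_num)
  have c4 := ch_same (w := w) hg (k := 4) (by norm_num)
  have c3 := ch_same (w := w) hg (k := 3) (by norm_num)
  have c2 := ch_same (w := w) hg (k := 2) (by norm_num)
  have hM5 := chFive h
  have h' : Fr M (w + g) := by
    refine ⟨h.lat, ?_, fun h1 => h.nmem ?_⟩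
    · have e : 32 * (w + g) = 32 * w + ((8 : ℤ) : ℂ) * (4 * g) := by
        push_cast
        ring
      rw [e]
      exact add_mem h.mem (intmul_mem hg 8)
    · have e : 16 * w = 16 * (w + g) - ((4 : ℤ) : ℂ) * (4 * g) := by
        push_cast
        ring
      rw [e]
      exact sub_mem h1 (intmul_mem hg 4)
  have hl5 : IsLat (Ch M w 5) := by rw [hM5]; exact h.lat
  have hl4 : IsLat (Ch M w 4) := (twoCh h (k := 4) (by norm_num)).lat'
  have s3 : SS M (w + g) 3 = SS M w 3 := by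
    have e : (2 : ℂ) ^ 3 * (w + g) = 2 ^ 3 * w + ((2 : ℤ) : ℂ) * (4 * g) := by
      push_cast
      ring
    show sg (Ch M (w + g) 5) (Ch M (w + g) 4) (2 ^ 3 * (w + g)) = sg (Ch M w 5) (Ch M w 4) (2 ^ 3 * w)
    rw [c5, c4, e]
    exact sg_add hl5 _ (le_Ch 5 (intmul_mem hg 2))
  have s2 : SS M (w + g) 2 = SS M w 2 := by
    have e : (2 : ℂ) ^ 2 * (w + g) = 2 ^ 2 * w + 4 * g := by ring
    show sg (Ch M (w + g) 4) (Ch M (w + g) 3) (2 ^ 2 * (w + g)) = sg (Ch M w 4) (Ch M w 3) (2 ^ 2 * w)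
    rw [c4, c3, e]
    exact sg_add hl4 _ (le_Ch 4 hg)
  have s1 : SS M (w + g) 1 = 2 * SS M w 2 - SS M w 1 := by
    have e : (2 : ℂ) ^ 1 * (w + g) = 2 ^ 1 * w + 2 * g := by ring
    show sg (Ch M (w + g) 3) (Ch M (w + g) 2) (2 ^ 1 * (w + g)) = _
    rw [c3, c2, e]
    have e2 : 2 * (2 * g) = 4 * g := by ring
    have hx : 2 * (2 * g) ∈ M := by rw [e2]; exact hg
    exact SS_diff h (j := 1) (by norm_num) (x := 2 * g) (le_Ch 4 hx) (notMem_three h hx hg')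
  have z1 : fz M (w + g) = fz M w := by
    unfold fz
    have e : 4 * (w + g) = 4 * w + 4 * g := by ring
    rw [s3, c5, c4, e, sg_add hl5 _ (le_Ch 5 hg)]
  have k1 : fk M (w + g) = -fk M w := by
    unfold fk
    rw [s1, s2, s3]
    ring
  refine ⟨h', z1, k1, ?_⟩
  have q1 := fvz_sq h
  have q2 := fvz_sq h'
  have n := fz_ne h
  rw [z1, k1] at q2
  have n2 : fz M w ^ 2 ≠ 0 := pow_ne_zero 2 n
  apply mul_right_cancel₀ n2
  linear_combination q2 + q1

end Pool.Agent.Work.MP_8efaaa_nt.N5
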