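import Mathlib
import Pool.Agent.Work.MP_8efaaa_nt.R.CInt
import Pool.Agent.Work.MP_8efaaa_nt.N5.Defs
import Pool.Agent.Work.MP_8efaaa_nt.N5.ALat1

/-!
# N5/BQm (S): the functions at `w0 - 1/4`

PROOF. `same_quarter` for `M = MM s c`, `w = w0 s`, `g = -1/4`: `fr_MM`; `4 g = -1 ∈ La s 3 ⊆ MM s c`; `2 g = -1/2 ∉ Ch 4`: `odd_mem`, `Ch_eq`, `mem_Lk`
(R/CLatB.lean): `Ch (MM s c) (w0 s) 4 = Lk s 4 ⊔ 8 • iv c`, and `1/2 ∉ Lk s 4` by linear independence (`lin_indep`).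
-/

set_option autoImplicit false

namespace Pool.Agent.Work.MP_8efaaa_nt.N5

open NumberField Pool.Agent.Work.CM Pool.Agent.Work.MP_8efaaa_nt.R
open scoped Pointwise

variable {K : Type*} [Field K] [NumberField K] [Algebra K ℂ] {a : ℕ} {s : K}

theorem half_not_mem (hb : Base5 K a s) {c : Ideal (𝓞 K)} (hc : OddI c) :
    (1 / 2 : ℂ) ∉ Ch (MM s c) (w0 s) 4 := by
  intro h
  have h1 : Ch (MM s c) (w0 s) 4 = Lk s 4 ⊔ (8 : ℂ) • iv c := by
    have h2 := Ch_eq (1 : ℂ) ((8 : ℂ) • iv c) s (show 4 ≤ 5 by norm_num)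
    rw [one_smul, one_smul, one_mul] at h2
    exact h2
  rw [h1] at h
  have h3 : (1 / 2 : ℂ) ∈ Lk s 4 := by
    refine odd_mem hb hc (by norm_num) h (n := 1) ?_
    refine mem_Lk.2 ⟨0, 1, ?_⟩
    push_cast
    ring
  obtain ⟨m, n, hmn⟩ := mem_Lk.1 h3
  have h4 : ((2 * m + n - 1 / 2 : ℚ) : ℂ) + ((2 * m : ℚ) : ℂ) * algebraMap K ℂ s = 0 := by
    unfold w0 at hmn
    push_cast
    linear_combination -hmn
  obtain ⟨h5, h6⟩ := lin_indep hb h4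
  have h7 : (2 * n : ℚ) = 1 := by linear_combination 2 * h5 - 2 * h6
  have h8 : 2 * n = 1 := by exact_mod_cast h7
  omega

private theorem quart (hb : Base5 K a s) {c : Ideal (𝓞 K)} (hc : OddI c) :
    Fr (MM s c) (w0 s - 1 / 4) ∧ fz (MM s c) (w0 s - 1 / 4) = fz (MM s c) (w0 s) ∧
      fk (MM s c) (w0 s - 1 / 4) = -fk (MM s c) (w0 s) ∧
      fv (MM s c) (w0 s - 1 / 4) ^ 2 = -fv (MM s c) (w0 s) ^ 2 := by
  have h1 := same_quarter (g := -1 / 4) (fr_MM hb hc) (by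
    have h2 : (4 : ℂ) * (-1 / 4) = -1 := by norm_num
    rw [h2]
    apply Submodule.neg_mem
    apply Submodule.mem_sup_left
    exact Submodule.subset_span (by simp)) (by
    have h2 : (2 : ℂ) * (-1 / 4) = -(1 / 2) := by norm_num
    rw [h2]
    intro h3
    exact half_not_mem hb hc ((Submodule.neg_mem_iff _).1 h3))
  have h2 : w0 s + -1 / 4 = w0 s - 1 / 4 := by ring
  rw [h2] at h1
  exact h1

theorem fr_m (hb : Base5 K a s) {c : Ideal (𝓞 K)} (hc : OddI c) :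
    Fr (MM s c) (w0 s - 1 / 4) := (quart hb hc).1

theorem qm (hb : Base5 K a s) {c : Ideal (𝓞 K)} (hc : OddI c) :
    Zm s c = Zc s c ∧ Km s c = -Kc s c ∧ Vm s c ^ 2 = -Vc s c ^ 2 :=
  (quart hb hc).2

end Pool.Agent.Work.MP_8efaaa_nt.N5
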