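import Mathlib
import Pool.Agent.Work.MP_8efaaa_nt.R.CInt
import Pool.Agent.Work.MP_8efaaa_nt.N5.Defs
import Pool.Agent.Work.MP_8efaaa_nt.N5.BQm

/-!
# N5/BKr (S-M): the Kronecker congruence for `Vm`

PROOF. Copy `kron_iv` (R/CKrC.lean) with `w := w0 s - 1/4` instead of `w0 s`: `hN` is `fr_m`; `hstep`, `hcyc`, `hVl` do not depend on `w`;
`hw`: `em lam * (w0 - 1/4) - (w0 - 1/4) = (lam w0 - w0) - (lam - 1)/4`, `lam = 1 + 32 t`, `(lam - 1)/4 = 8 t ∈ 8 𝓞 ⊆ 8 c⁻¹ ⊆ MM s c`;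
`hgood`: `Zm s c = Zc s c` (`qm`), so `fz (MM s (q^i c)) (w0 - 1/4) = Zc s (q^i c)`.
-/

set_option autoImplicit false

namespace Pool.Agent.Work.MP_8efaaa_nt.N5

open NumberField Pool.Agent.Work.CM Pool.Agent.Work.MP_8efaaa_nt.R
open scoped Pointwise

variable {K : Type*} [Field K] [NumberField K] [Algebra K ℂ] {a : ℕ} {s : K}

theorem vm_kron (hb : Base5 K a s) {Γ : Type*} [LinearOrderedCommGroupWithZero Γ]
    (V : Valuation ℂ Γ) {l : ℕ} (hl : l.Prime) (hl2 : l ≠ 2) (hla : ¬ l ∣ a)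
    {q : Ideal (𝓞 K)} (hq : q.IsPrime) (hql : Ideal.absNorm q = l)
    (hV1 : ∀ x : 𝓞 K, V (algebraMap K ℂ (algebraMap (𝓞 K) K x)) ≤ 1)
    (hV2 : ∀ x : 𝓞 K, V (algebraMap K ℂ (algebraMap (𝓞 K) K x)) < 1 ↔ x ∈ q)
    (hgood : ∀ c : Ideal (𝓞 K), OddI c → V (Zc s c) = 1 ∧ V (2 - Zc s c ^ 2) = 1)
    {c : Ideal (𝓞 K)} (hc : OddI c) :
    V (Vm s c) ≤ 1 ∧ V (Vm s (q * c) - Vm s c ^ l) < 1 := by
  have hlo : Odd l := hl.odd_of_ne_two hl2
  have hqo : OddI q := by
    unfold OddI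
    rw [hql]
    exact hlo
  have hq0 : q ≠ ⊥ := by
    rintro rfl
    rw [Ideal.absNorm_bot] at hql
    exact hl.ne_zero hql.symm
  obtain ⟨f, lam, t, hf, hlam, ht⟩ := exists_lam hb hqo hq0
  have hodd : ∀ i, OddI (q ^ i * c) := by
    intro i
    induction i with
    | zero => rwa [pow_zero, one_mul]
    | succ i ih =>
      rw [pow_succ', mul_assoc]
      exact (oddI_mul q (q ^ i * c)).2 ⟨hqo, ih⟩
  have hlq : (l : 𝓞 K) ∈ q := by
    rw [← hql]
    exact Ideal.absNorm_mem q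
  have h2q : (2 : 𝓞 K) ∉ q := by
    intro h
    obtain ⟨k, hk⟩ := hlo
    apply hq.ne_top
    rw [Ideal.eq_top_iff_one]
    have h1 : (1 : 𝓞 K) = (l : 𝓞 K) - (k : 𝓞 K) * 2 := by
      rw [hk]
      push_cast
      ring
    rw [h1]
    exact q.sub_mem hlq (q.mul_mem_left _ h)
  have h2 : V 2 = 1 := by
    have h3 := hV1 2
    have h4 := mt (hV2 2).1 h2q
    rw [map_ofNat, map_ofNat] at h3 h4
    exact le_antisymm h3 (not_lt.1 h4)
  have hVl : V (l : ℂ) < 1 := by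
    have h3 := (hV2 (l : 𝓞 K)).2 hlq
    rwa [map_natCast, map_natCast] at h3
  have hlam0 : em (K := K) lam ≠ 0 := by
    intro h
    have h3 : lam = 0 := by
      apply FaithfulSMul.algebraMap_injective (𝓞 K) K
      apply (algebraMap K ℂ).injective
      rw [map_zero, map_zero]
      exact h
    rw [h3, Ideal.span_singleton_eq_bot.2 rfl] at hlam
    exact hq0 (pow_eq_zero_iff hf.ne' |>.1 hlam)
  have key := kron V hl h2 hVl (N := fun i => MM s (q ^ i * c)) (w := w0 s - 1 / 4)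
    (fun i => fr_m hb (hodd i))
    (fun i => by
      obtain ⟨u, hu1, hu2, hu3⟩ := step_iv hb hl hl2 hq hql (hodd i)
      refine ⟨u, hu1, hu2, ?_⟩
      change MM s (q ^ (i + 1) * c) = _
      rw [pow_succ', mul_assoc]
      exact hu3) hf hlam0
    (fun z => by
      change z ∈ MM s (q ^ f * c) ↔ em lam * z ∈ MM s (q ^ 0 * c)
      rw [pow_zero, one_mul, hlam]
      exact cyc_iv hb hc ht z)
    (by
      change em lam * (w0 s - 1 / 4) - (w0 s - 1 / 4) ∈ MM s (q ^ 0 * c)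
      have h5 : em lam = 1 + 32 * em (K := K) t := by
        rw [ht]
        simp only [R.em, map_add, map_mul, map_one, map_ofNat]
      have h6 : em lam * (w0 s - 1 / 4) - (w0 s - 1 / 4) =
          (em lam * w0 s - w0 s) - 8 * em (K := K) t := by
        rw [h5]
        ring
      rw [h6]
      refine Submodule.sub_mem _ (lam_w0 hb _ ht) ?_
      have h7 : em (K := K) t ∈ iv (q ^ 0 * c) := by
        refine ⟨algebraMap (𝓞 K) K t, fun y _ => ⟨t * y, ?_⟩, rfl⟩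
        rw [map_mul]
      exact Submodule.mem_sup_right (Submodule.smul_mem_pointwise_smul _ _ _ h7))
    (val_lam hb V hl hl2 hla hq hql hV1 hV2 hf hlam)
    (fun i => by
      have h8 := hgood _ (hodd i)
      rw [← (qm hb (hodd i)).1] at h8
      exact h8)
  simp only [pow_zero, one_mul, pow_one] at key
  exact key.2.2

end Pool.Agent.Work.MP_8efaaa_nt.N5
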