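import Mathlib
import Pool.Agent.Work.MP_8efaaa_nt.R.DFrob
import Pool.Agent.Work.MP_8efaaa_nt.N5.Defs
import Pool.Agent.Work.MP_8efaaa_nt.N5.BKr

/-!
# N5/CFrb (M): the Frobenius elements

PROOF. Extend `frob_act` (R/DFrob.lean; take its `N` and multiply by more). `vm`: the same argument as for `v` there, with `vm_kron` instead of `c_kron` (the
values `vm c` are in a finite set: `vm c = ± I v c`; or: `vm c ^ 2 = -v c ^ 2`, `v c` in a finite set). `w`: let `N` be a multiple of `2 d`; `Frb σ Q l` gives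
`σ w - w ^ l ∈ Q` (`w` is integral), `w ^ l = w d ^ ((l-1)/2)`, and `d ^ ((l-1)/2) - (d / l) ∈ ℤ l` (`legendreSym.eq_pow` / Euler), so `σ w - (d / l) w ∈ Q`; `σ w = ± w`
(`w ^ 2 = d ∈ ℚ`), and `2 w ∉ Q` (its square `4 d` is prime to `l`): so `σ w = (d / l) w`; `jacobiSym d l = legendreSym l d`.
-/

set_option autoImplicit false

namespace Pool.Agent.Work.MP_8efaaa_nt.N5

open NumberField Pool.Agent.Work.CM Pool.Agent.Work.MP_8efaaa_nt.R

universe u

variable {K : Type u} {F : Type*} [Field K] [NumberField K] [Algebra K ℂ] [Field F] [NumberField F]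
  [Algebra K F] [Algebra F ℂ] [IsScalarTower K F ℂ] [IsGalois K F] {a d : ℕ} {s : K} {ζ w : F}
  {z k v vm : Ideal (𝓞 K) → F}

omit [NumberField K] [Algebra K ℂ] [NumberField F] [Algebra K F] [Algebra F ℂ]
  [IsScalarTower K F ℂ] [IsGalois K F] in
private theorem cfrb_pow {l : ℕ} (hl : l.Prime) (hl2 : l ≠ 2) {d : ℕ} {w : F}
    (hw : w ^ 2 = (d : F)) : ∃ m : ℤ, w ^ l - (jacobiSym d l : ℤ) * w = (l : F) * (m : F) * w := by
  have : Fact l.Prime := ⟨hl⟩
  have h1 := legendreSym.eq_pow l (d : ℤ)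
  rw [jacobiSym.legendreSym.to_jacobiSym] at h1
  have h2 : ((jacobiSym (d : ℤ) l : ℤ) : ZMod l) = (((d : ℤ) ^ (l / 2) : ℤ) : ZMod l) := by
    rw [h1]
    push_cast
    rfl
  rw [ZMod.intCast_eq_intCast_iff_dvd_sub] at h2
  obtain ⟨m, hm⟩ := h2
  refine ⟨m, ?_⟩
  have h3 : l = 2 * (l / 2) + 1 := by
    have := (hl.eq_two_or_odd.resolve_left hl2)
    omega
  have h4 : w ^ l = (d : F) ^ (l / 2) * w := by
    conv_lhs => rw [h3]
    rw [pow_succ, pow_mul, hw]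
  have h5 : ((d : F) ^ (l / 2)) - ((jacobiSym (d : ℤ) l : ℤ) : F) = (l : F) * (m : F) := by
    have h6 := congrArg (fun x : ℤ => (x : F)) hm
    push_cast at h6
    exact h6
  rw [h4, ← h5]
  ring

theorem frob_mact (hb : Base5 K a s) (h : ICtx K F s d ζ w z k v vm) (hd : d ≠ 0) :
    ∃ N : ℕ, N ≠ 0 ∧ 2 ∣ N ∧ a ∣ N ∧
    ∀ (l : ℕ) (Q : Ideal (𝓞 F)) (σ : F ≃ₐ[K] F), l.Prime → ¬ l ∣ N → Q.IsPrime →
      Ideal.absNorm (Q.comap (algebraMap (𝓞 K) (𝓞 F))) = l → Frb σ Q l →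
      MAct d ζ w z k v vm σ (Q.comap (algebraMap (𝓞 K) (𝓞 F))) := by
  classical
  obtain ⟨N0, hN0, h20, hact⟩ := frob_act hb h.dc
  have hfd : FiniteDimensional K F := FiniteDimensional.right ℚ K F
  obtain ⟨T, hT⟩ := h.dc.fin
  have hfin : Finite (F ≃ₐ[K] F) := inferInstance
  have := Fintype.ofFinite (F ≃ₐ[K] F)
  have hinj : Function.Injective (algebraMap F ℂ) := (algebraMap F ℂ).injective
  -- the values of `vm`
  set Tm : Finset F := T.biUnion fun t =>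
    (Polynomial.X ^ 2 + Polynomial.C (t ^ 2) : Polynomial F).roots.toFinset with hTm
  have hvmT : ∀ c, OddI c → vm c ∈ Tm := by
    intro c hc
    have h1 : vm c ^ 2 + v c ^ 2 = 0 := by
      apply hinj
      rw [map_add, map_pow, map_pow, h.hvm c hc, h.dc.hv c hc, (qm hb hc).2.2, map_zero]
      ring
    rw [hTm, Finset.mem_biUnion]
    refine ⟨v c, (hT c hc).2.2, ?_⟩
    rw [Multiset.mem_toFinset, Polynomial.mem_roots]
    · rw [Polynomial.IsRoot.def, Polynomial.eval_add, Polynomial.eval_pow, Polynomial.eval_X,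
        Polynomial.eval_C]
      exact h1
    · exact (Polynomial.monic_X_pow_add_C _ two_ne_zero).ne_zero
  set S : Finset F := ((((T ∪ T.image (fun t => 2 - t ^ 2)) ∪ Tm) ∪ {w}) ∪
    ((Finset.univ : Finset (F ≃ₐ[K] F)) ×ˢ (Tm ×ˢ Tm)).image (fun p => p.1 p.2.1 - p.2.2)) ∪
    ((Finset.univ : Finset (F ≃ₐ[K] F)) ×ˢ ({1, -1, 0} : Finset ℤ)).image
      (fun p => p.1 w - (p.2 : F) * w) with hS
  have s1 : ∀ t ∈ T, t ∈ S := fun t ht => by simp [hS, ht]
  have s2 : ∀ t ∈ T, 2 - t ^ 2 ∈ S := fun t ht =>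
    Finset.mem_union_left _ (Finset.mem_union_left _ (Finset.mem_union_left _
      (Finset.mem_union_left _ (Finset.mem_union_right _
        (Finset.mem_image_of_mem (fun t => 2 - t ^ 2) ht)))))
  have sw : w ∈ S := Finset.mem_union_left _ (Finset.mem_union_left _
    (Finset.mem_union_right _ (Finset.mem_singleton_self w)))
  have s3 : ∀ (σ : F ≃ₐ[K] F), ∀ t ∈ Tm, ∀ t' ∈ Tm, σ t - t' ∈ S := fun σ t ht t' ht' =>
    Finset.mem_union_left _ (Finset.mem_union_right _ (Finset.mem_image.2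
      ⟨(σ, t, t'), by simp [ht, ht'], rfl⟩))
  have s4 : ∀ (σ : F ≃ₐ[K] F) (j : ℤ), j ∈ ({1, -1, 0} : Finset ℤ) → σ w - (j : F) * w ∈ S :=
    fun σ j hj => Finset.mem_union_right _ (Finset.mem_image.2
      ⟨(σ, j), Finset.mem_product.2 ⟨Finset.mem_univ _, hj⟩, rfl⟩)
  obtain ⟨N1, hN1, hg⟩ := good_val S
  obtain ⟨N2, hN2, hf⟩ := frb_val (K := K) (insert w Tm)
  have ha0 : a ≠ 0 := by
    have := hb.mod
    omega
  refine ⟨N0 * (2 * a * N1 * N2), by positivity, ⟨N0 * (a * N1 * N2), by ring⟩,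
    ⟨N0 * (2 * N1 * N2), by ring⟩, ?_⟩
  intro l Q σ hl hlN hQ hql hσ
  have hl0 : ¬ l ∣ N0 := fun e => hlN (e.trans ⟨2 * a * N1 * N2, by ring⟩)
  have hl2 : l ≠ 2 := fun e => hlN (e ▸ ⟨N0 * (a * N1 * N2), by ring⟩)
  have hla : ¬ l ∣ a := fun e => hlN (e.trans ⟨N0 * (2 * N1 * N2), by ring⟩)
  have hl1 : ¬ l ∣ N1 := fun e => hlN (e.trans ⟨N0 * (2 * a * N2), by ring⟩)
  have hl3 : ¬ l ∣ N2 := fun e => hlN (e.trans ⟨N0 * (2 * a * N1), by ring⟩)
  obtain ⟨hζ, hD⟩ := hact l Q σ hl hl0 hQ hql hσ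
  obtain ⟨Γ, hΓ, V, hV1, hV2⟩ := exists_val Q hQ
  set q : Ideal (𝓞 K) := Q.comap (algebraMap (𝓞 K) (𝓞 F)) with hq
  have hqp : q.IsPrime := Ideal.IsPrime.comap _
  have hlQ : (l : 𝓞 F) ∈ Q := by
    have h1 : ((Ideal.absNorm q : ℕ) : 𝓞 K) ∈ q := Ideal.absNorm_mem q
    rw [hql, hq, Ideal.mem_comap, map_natCast] at h1
    exact h1
  set V' : Valuation F Γ := V.comap (algebraMap F ℂ) with hV'
  have v1 : ∀ x : 𝓞 F, V' (algebraMap (𝓞 F) F x) ≤ 1 := hV1
  have v2 : ∀ x : 𝓞 F, V' (algebraMap (𝓞 F) F x) < 1 ↔ x ∈ Q := hV2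
  have vl : V' (l : F) < 1 := by
    have h1 := (v2 (l : 𝓞 F)).2 hlQ
    rwa [map_natCast] at h1
  have hgood := hg Γ V' l hl hl1 v1 vl
  have hfrob := hf Γ V' l Q σ hl hl3 v1 v2 vl hσ
  have htower : ∀ x : 𝓞 K, algebraMap K ℂ (algebraMap (𝓞 K) K x) =
      algebraMap F ℂ (algebraMap (𝓞 F) F (algebraMap (𝓞 K) (𝓞 F) x)) := by
    intro x
    rw [IsScalarTower.algebraMap_apply K F ℂ, ← IsScalarTower.algebraMap_apply (𝓞 K) (𝓞 F) F,
      ← IsScalarTower.algebraMap_apply (𝓞 K) K F]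
  have hne : ∀ c, OddI c → z c ≠ 0 ∧ 2 - z c ^ 2 ≠ 0 := by
    intro c hc
    have hfr := fr_MM hb hc
    have e1 := fz_ne hfr
    have e2 := fz_ne' hfr
    constructor
    · intro e
      apply e1
      have := h.dc.hz c hc
      rw [e, map_zero] at this
      exact this.symm
    · intro e
      apply e2
      have e3 : algebraMap F ℂ (2 - z c ^ 2) = 2 - Zc s c ^ 2 := by
        rw [map_sub, map_pow, h.dc.hz c hc, map_ofNat]
      rw [e, map_zero] at e3
      exact e3.symm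
  have hgood' : ∀ c : Ideal (𝓞 K), OddI c → V (Zc s c) = 1 ∧ V (2 - Zc s c ^ 2) = 1 := by
    intro c hc
    have e3 : algebraMap F ℂ (2 - z c ^ 2) = 2 - Zc s c ^ 2 := by
      rw [map_sub, map_pow, h.dc.hz c hc, map_ofNat]
    refine ⟨?_, ?_⟩
    · rw [← h.dc.hz c hc]
      exact (hgood _ (s1 _ (hT c hc).1)).2 (hne c hc).1
    · rw [← e3]
      exact (hgood _ (s2 _ (hT c hc).1)).2 (hne c hc).2
  have hlodd : Odd l := hl.odd_of_ne_two hl2
  -- a difference in `S` of value less than one is zero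
  have hzero : ∀ x y : F, x - y ∈ S → ∀ u : F, V' (x - u) < 1 → V' (y - u) < 1 → x = y := by
    intro x y hxy u h1 h2
    by_contra hne'
    have h3 := (hgood _ hxy).2 (sub_ne_zero.2 hne')
    have h4 : V' (x - y) < 1 := by
      have : x - y = (x - u) - (y - u) := by ring
      rw [this]
      exact V'.map_sub_lt h1 h2
    exact absurd h3 h4.ne
  refine ⟨hD, ?_, ?_, ?_⟩
  · intro c hc
    have hqc : OddI (q * c) := by
      unfold OddI at hc ⊢
      rw [map_mul, hql]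
      exact hlodd.mul hc
    have k3 := vm_kron hb V hl hl2 hla hqp hql
      (fun x => by rw [htower]; exact hV1 _) (fun x => by rw [htower, hV2, hq, Ideal.mem_comap])
      hgood' hc
    refine hzero _ _ (s3 σ _ (hvmT c hc) _ (hvmT _ hqc)) (vm c ^ l)
      (hfrob _ (Finset.mem_insert_of_mem (hvmT c hc))) ?_
    have e : V' (vm (q * c) - vm c ^ l) = V (Vm s (q * c) - Vm s c ^ l) := by
      rw [hV', Valuation.comap_apply, map_sub, map_pow, h.hvm _ hqc, h.hvm _ hc]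
    rw [e]
    exact k3.2
  · rw [hql]
    exact hζ
  · rw [hql]
    have h1 := hfrob w (Finset.mem_insert_self _ _)
    obtain ⟨m, hm⟩ := cfrb_pow hl hl2 h.hw
    have hj : (jacobiSym (d : ℤ) l : ℤ) ∈ ({1, -1, 0} : Finset ℤ) := by
      rcases jacobiSym.trichotomy (d : ℤ) l with h2 | h2 | h2 <;> simp [h2]
    refine hzero _ _ (s4 σ _ hj) (w ^ l) h1 ?_
    have e : ((jacobiSym (d : ℤ) l : ℤ) : F) * w - w ^ l = -((l : F) * ((m : F) * w)) := by
      rw [← neg_sub, hm, mul_assoc]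
    rw [e, Valuation.map_neg, map_mul]
    have hmw : V' ((m : F) * w) ≤ 1 := by
      rw [map_mul]
      have hm1 : V' (m : F) ≤ 1 := by
        have h2 := v1 (m : 𝓞 F)
        rwa [map_intCast] at h2
      exact mul_le_one' hm1 (hgood w sw).1
    calc V' (l : F) * V' ((m : F) * w) ≤ V' (l : F) * 1 := mul_le_mul_right hmw _
      _ = V' (l : F) := mul_one _
      _ < 1 := vl

end Pool.Agent.Work.MP_8efaaa_nt.N5
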