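import Mathlib
import Pool.Agent.Work.MP_8efaaa_nt.R.EInt
import Pool.Agent.Work.MP_8efaaa_nt.N5.Defs
import Pool.Agent.Work.MP_8efaaa_nt.N5.CFrb

/-!
# N5/CAct (S-M): all automorphisms act by ideals

PROOF. `frob_closure` for `k = K` and the `N` of `frob_mact`: every `σ` is in the closure of the Frobenius elements, and as the group is finite it is a
product of Frobenius elements (no inverses needed: induct with `Subgroup.closure_induction`, for inverses use that `F ≃ₐ[K] F` is finite, `σ⁻¹ = σ ^ (n - 1)`).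
`MAct` for the product: `(σ' ∘ σ)`, ideal `b' * b`: `absNorm` and `jacobiSym` are multiplicative (`jacobiSym.mul_right`), the ideals commute.
The norms are products of primes `l ∤ N`, so odd and prime to `a`. Compare `act_one` (R/DActA.lean).
-/

set_option autoImplicit false

namespace Pool.Agent.Work.MP_8efaaa_nt.N5

open NumberField Pool.Agent.Work.CM Pool.Agent.Work.MP_8efaaa_nt.R

universe u

variable {K : Type u} {F : Type*} [Field K] [NumberField K] [Algebra K ℂ] [Field F] [NumberField F]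
  [Algebra K F] [Algebra F ℂ] [IsScalarTower K F ℂ] [IsGalois K F] {a d : ℕ} {s : K} {ζ w : F}
  {z k v vm : Ideal (𝓞 K) → F}

/-- the property which is proved for all automorphisms -/
private def Good (a d : ℕ) (ζ w : F) (z k v vm : Ideal (𝓞 K) → F) (f : F → F) : Prop :=
  ∃ b : Ideal (𝓞 K), OddI b ∧ Nat.Coprime (Ideal.absNorm b) a ∧ MAct d ζ w z k v vm f b

omit [Algebra K ℂ] [NumberField F] [Algebra F ℂ] [IsScalarTower K F ℂ] [IsGalois K F] in
private theorem good_one : Good a d ζ w z k v vm ⇑(1 : F ≃ₐ[K] F) := by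
  refine ⟨1, by simp [OddI], by simp, ?_, ?_, ?_, ?_⟩
  · intro c _
    rw [one_mul]
    exact ⟨rfl, rfl, rfl⟩
  · intro c _
    rw [one_mul]
    rfl
  · rw [map_one, pow_one]
    rfl
  · rw [map_one, jacobiSym.one_right, Int.cast_one, one_mul]
    rfl

omit [Algebra K ℂ] [NumberField F] [Algebra F ℂ] [IsScalarTower K F ℂ] [IsGalois K F] in
private theorem good_mul {x y : F ≃ₐ[K] F} (hx : Good a d ζ w z k v vm ⇑x)
    (hy : Good a d ζ w z k v vm ⇑y) :
    Good a d ζ w z k v vm ⇑(x * y) := by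
  obtain ⟨b, hb1, hb2, hb3⟩ := hx
  obtain ⟨e, he1, he2, he3⟩ := hy
  have hmul : ∀ c : Ideal (𝓞 K), OddI c → OddI (e * c) := by
    intro c hc
    unfold OddI at *
    rw [map_mul]
    exact he1.mul hc
  refine ⟨b * e, ?_, ?_, ?_, ?_, ?_, ?_⟩
  · unfold OddI at *
    rw [map_mul]
    exact hb1.mul he1
  · rw [map_mul]
    exact Nat.Coprime.mul_left hb2 he2
  · intro c hc
    obtain ⟨h1, h2, h3⟩ := he3.act c hc
    obtain ⟨h4, h5, h6⟩ := hb3.act (e * c) (hmul c hc)
    refine ⟨?_, ?_, ?_⟩
    · show x (y (z c)) = _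
      rw [h1, h4, mul_assoc]
    · show x (y (k c)) = _
      rw [h2, h5, mul_assoc]
    · show x (y (v c)) = _
      rw [h3, h6, mul_assoc]
  · intro c hc
    have h1 := he3.actm c hc
    have h2 := hb3.actm (e * c) (hmul c hc)
    show x (y (vm c)) = _
    rw [h1, h2, mul_assoc]
  · have h1 := he3.z8
    have h2 := hb3.z8
    show x (y ζ) = _
    rw [h1, map_pow, h2, ← pow_mul, map_mul]
  · have h1 := he3.sq
    have h2 := hb3.sq
    have n1 : NeZero (Ideal.absNorm b) := ⟨fun h0 => by
      unfold OddI at hb1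
      rw [h0] at hb1
      exact absurd hb1 (by decide)⟩
    have n2 : NeZero (Ideal.absNorm e) := ⟨fun h0 => by
      unfold OddI at he1
      rw [h0] at he1
      exact absurd he1 (by decide)⟩
    show x (y w) = _
    rw [h1, map_mul, map_intCast, h2, map_mul, jacobiSym.mul_right, Int.cast_mul]
    ring

theorem mact_of (hb : Base5 K a s) (h : ICtx K F s d ζ w z k v vm) (hd : d ≠ 0)
    (σ : F ≃ₐ[K] F) : ∃ b : Ideal (𝓞 K), OddI b ∧ Nat.Coprime (Ideal.absNorm b) a ∧
      MAct d ζ w z k v vm σ b := by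
  obtain ⟨N, hN, h2N, haN, hact⟩ := frob_mact hb h hd
  have hσ : σ ∈ Subgroup.closure {σ : F ≃ₐ[K] F | ∃ (l : ℕ) (Q : Ideal (𝓞 F)), l.Prime ∧
      ¬ l ∣ N ∧ Q.IsPrime ∧ Ideal.absNorm (Q.comap (algebraMap (𝓞 K) (𝓞 F))) = l ∧
      Frb σ Q l} := by
    rw [frob_closure N hN]
    trivial
  have hpow : ∀ x : F ≃ₐ[K] F, Good a d ζ w z k v vm ⇑x → ∀ n : ℕ,
      Good a d ζ w z k v vm ⇑(x ^ n) := by
    intro x hx n
    induction n with
    | zero => rw [pow_zero]; exact good_one
    | succ n ih => rw [pow_succ]; exact good_mul ih hx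
  have key : Good a d ζ w z k v vm ⇑σ := by
    induction hσ using Subgroup.closure_induction with
    | mem x hx =>
      obtain ⟨l, Q, hl, hlN, hQ, hQl, hF⟩ := hx
      have h3 := hact l Q x hl hlN hQ hQl hF
      have hl2 : l ≠ 2 := by
        rintro rfl
        exact hlN h2N
      refine ⟨_, ?_, ?_, h3⟩
      · unfold OddI
        rw [hQl]
        exact hl.odd_of_ne_two hl2
      · rw [hQl, hl.coprime_iff_not_dvd]
        exact fun h0 => hlN (h0.trans haN)
    | one => exact good_one
    | mul x y _ _ hx hy => exact good_mul hx hy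
    | inv x _ hx =>
      have h1 : x⁻¹ = x ^ (orderOf x - 1) := by
        rw [inv_eq_iff_mul_eq_one, ← pow_succ']
        have : orderOf x - 1 + 1 = orderOf x := Nat.succ_pred_eq_of_pos (orderOf_pos x)
        rw [this, pow_orderOf_eq_one]
      rw [h1]
      exact hpow x hx _
  exact key

end Pool.Agent.Work.MP_8efaaa_nt.N5
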