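import Mathlib
import Pool.Agent.Work.MP_8efaaa_nt.R.Defs

/-!
# N5/CConj (S-M): complex conjugation on `F`

PROOF. `F` is normal over `ℚ`, so the embedding `conj ∘ algebraMap F ℂ` of `F` has the same image as `algebraMap F ℂ` (`AlgHom.fieldRange_of_normal`,
`AlgHom.restrictNormal`); compose with the inverse of `algebraMap F ℂ` on its image.
-/

set_option autoImplicit false

namespace Pool.Agent.Work.MP_8efaaa_nt.N5

open NumberField

theorem exists_conj {F : Type*} [Field F] [NumberField F] [Algebra F ℂ] [IsGalois ℚ F] :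
    ∃ κ : F ≃ₐ[ℚ] F, ∀ x : F, algebraMap F ℂ (κ x) = (starRingEnd ℂ) (algebraMap F ℂ x) := by
  haveI : IsScalarTower ℚ F ℂ := IsScalarTower.of_algebraMap_eq fun x => by
    rw [eq_ratCast (algebraMap ℚ ℂ) x, eq_ratCast (algebraMap ℚ F) x, map_ratCast]
  refine ⟨(Complex.conjAe.restrictScalars ℚ).restrictNormal F, fun x => ?_⟩
  rw [AlgEquiv.restrictNormal_commutes]
  rfl

end Pool.Agent.Work.MP_8efaaa_nt.N5
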