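import Mathlib
import Pool.Agent.Work.MP_8efaaa_nt.R.Defs

/-!
# N5/CFin (M): a field that is Galois over `ℚ`

PROOF. Compare `fin_gal` (R/DFld.lean). The elements of `T` are algebraic over `K`, hence over `ℚ`. Let `E ⊆ ℂ` be the normal closure over `ℚ` of the
field generated by `T` and the image of a primitive element (or a basis) of `K` (`IntermediateField ℚ ℂ`, finite dimensional, Galois), and let `F` be the
intermediate field of `ℂ/K` with the same elements (`IntermediateField.extendScalars` style, or `Subfield.toIntermediateField`).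
`IsGalois K F`: tower. `NumberField F` follows from `FiniteDimensional K F` (`NumberField.of_module_finite K F`); `IsGalois ℚ F`: isomorphic to `E` over `ℚ`.
-/

set_option autoImplicit false

namespace Pool.Agent.Work.MP_8efaaa_nt.N5

open NumberField

variable {K : Type*} [Field K] [NumberField K] [Algebra K ℂ]

theorem fin_gal_rat (T : Finset ℂ) (hT : ∀ z ∈ T, IsAlgebraic K z) :
    ∃ (F : IntermediateField K ℂ) (_ : FiniteDimensional K F) (_ : IsGalois K F)
      (_ : IsGalois ℚ F), ∀ z ∈ T, z ∈ F := by
  classical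
  have hTQ : ∀ z ∈ T, IsAlgebraic ℚ z := fun z hz =>
    IsAlgebraic.restrictScalars_of_isIntegral ℚ (hT z hz)
  have hKQ : ∀ x : K, IsAlgebraic ℚ (algebraMap K ℂ x) := fun x =>
    (Algebra.IsAlgebraic.isAlgebraic (R := ℚ) x).algebraMap
  let b := Module.finBasis ℚ K
  set T' : Finset ℂ := T ∪ Finset.univ.image fun i => algebraMap K ℂ (b i) with hT'
  have hA : ∀ z ∈ T', IsAlgebraic ℚ z := by
    intro z hz
    rcases Finset.mem_union.1 hz with hz | hz
    · exact hTQ z hz
    · obtain ⟨i, _, rfl⟩ := Finset.mem_image.1 hz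
      exact hKQ _
  set p : Polynomial ℚ := ∏ z ∈ T', minpoly ℚ z with hp
  have hp0 : p ≠ 0 := Finset.prod_ne_zero_iff.2 fun z hz => minpoly.ne_zero (hA z hz).isIntegral
  have hsp : (p.map (algebraMap ℚ ℂ)).Splits := IsAlgClosed.splits _
  have hsf := IntermediateField.adjoin_rootSet_isSplittingField hsp
  set E : IntermediateField ℚ ℂ := IntermediateField.adjoin ℚ (p.rootSet ℂ) with hE
  have hsf' : Polynomial.IsSplittingField ℚ E p := by
    convert hsf
    exact Subsingleton.elim _ _
  have h1 : FiniteDimensional ℚ E := Polynomial.IsSplittingField.finiteDimensional _ p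
  have h2 : Normal ℚ E := Normal.of_isSplittingField p
  have h3 : IsGalois ℚ E := { }
  have hTE : ∀ z ∈ T', z ∈ E := by
    intro z hz
    apply IntermediateField.subset_adjoin
    rw [Polynomial.mem_rootSet_of_ne hp0, hp, map_prod]
    exact Finset.prod_eq_zero hz (minpoly.aeval ℚ z)
  have hKE : ∀ x : K, algebraMap K ℂ x ∈ E.toSubfield := by
    intro x
    have hx := b.sum_repr x
    rw [← hx, map_sum]
    refine sum_mem fun i _ => ?_
    rw [Algebra.smul_def, map_mul, ← IsScalarTower.algebraMap_apply ℚ K ℂ]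
    refine mul_mem (E.algebraMap_mem _) (hTE _ ?_)
    exact Finset.mem_union_right _ (Finset.mem_image_of_mem _ (Finset.mem_univ i))
  let F : IntermediateField K ℂ := E.toSubfield.toIntermediateField hKE
  have hmem : ∀ z : ℂ, z ∈ F ↔ z ∈ E := fun z => Iff.rfl
  let e0 : E ≃+* F :=
    { toFun := fun x => ⟨x.1, x.2⟩
      invFun := fun x => ⟨x.1, x.2⟩
      left_inv := fun _ => rfl
      right_inv := fun _ => rfl
      map_mul' := fun _ _ => rfl
      map_add' := fun _ _ => rfl }
  let e : E ≃ₐ[ℚ] F := AlgEquiv.ofRingEquiv (f := e0) (fun r => by simp)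
  have h4 : FiniteDimensional ℚ F := LinearEquiv.finiteDimensional e.toLinearEquiv
  have h5 : IsGalois ℚ F := IsGalois.of_algEquiv e
  have h6 : FiniteDimensional K F := FiniteDimensional.right ℚ K F
  have h7 : IsGalois K F := IsGalois.tower_top_of_isGalois ℚ K F
  exact ⟨F, h6, h7, h5, fun z hz => (hmem z).2 (hTE z (Finset.mem_union_left _ hz))⟩

end Pool.Agent.Work.MP_8efaaa_nt.N5
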