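import Mathlib
import Pool.Agent.Work.MP_8efaaa_nt.R.AInt

/-!
# N5/ALat2 (M-L): the Fricke involution

Tested numerically (random lattices). `M = ⟨32 w, m⟩`, `M' = ⟨8 w, 8 m⟩ = 8 Ch M w 0`. The chain of `(M', m/4)` is dual to the chain of
`(M, w)`: `Ch M' (m/4) k = M' + ℤ 2 ^ k m / 4 = 2 ^ (k - 2) Ch M w (5 - k)`, `Ch M w j = ⟨2 ^ j w, m⟩`. So the functions `sg` of the dual
chain are the functions `sg (L) (half N)` for `N ⊂ L` of index two. Let `L = Ch j`; its three sublattices of index two belong to the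
points `a_1, a_2, a_3` of order two; all relations are in block A (R/SA.lean .. R/SI.lean): `f_i^2 = wp_L - e_i`,
`f_2(z + a_1) = f_2(a_1) f_3(z) / f_1(z)`, and for the superlattice `L0 = L + ℤ c`: `g_a = f_c + k_c / f_c`, `g_b = f_c - k_c / f_c`, `g_q = f_p f_q / f_c`.
THETA DICTIONARY (to find the algebra; `τ = 8 w / m`): `S_2 = θ3^2`, `S_1 = θ3^2 + θ2^2`, `S_3 = (θ3^2 + θ4^2)/2`, `S_0 - S_1 = 2 θ2 θ3`
(times `π/m` or so), `fv = θ2/θ3`, `fu = θ4^2/θ3^2`; for `M'` the functions are those of `-1/τ`, so `θ2` and `θ4` are exchanged after one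
more doubling: `fv M' (m/4) = θ2(4τ')/θ3(4τ')`.. where `fu/(1 + fv^2) = θ4(τ)^2/(θ3(τ)^2 + θ2(τ)^2) = θ4(τ)^2/θ3(τ/2)^2`.
A possible route: `S_j' := SS M' (m/4) j` satisfy `S_3' : S_2' : S_1' : S_0'` in terms of `S_0 .. S_3`; it is enough to find `S_2', S_1' - S_2', S_0' - S_1'`
(`fv' = (S_0' - S_1')/(2 S_2')`, `fu' = 2 S_3'/S_2' - 1`).
`1 + fv M w ^ 2 ≠ 0`, since `fv^2 = -1` gives `fu = 0`, `fz^2 = 2`, against `fz_ne'`.
-/

set_option autoImplicit false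

namespace Pool.Agent.Work.MP_8efaaa_nt.N5

open Pool.Agent.Work.CM Pool.Agent.Work.MP_8efaaa_nt.R
open scoped Pointwise

private theorem al_indep {M : Submodule ℤ ℂ} {a b : ℂ} (hL : IsLat M)
    (hM : M = Submodule.span ℤ {a, b}) {x y : ℤ} (hxy : (x : ℂ) * a + y * b = 0) :
    x = 0 ∧ y = 0 := by
  obtain ⟨P, hP⟩ := hL
  have hind : ∀ m n : ℤ, (m : ℂ) * P.ω₁ + n * P.ω₂ = 0 → m = 0 ∧ n = 0 := by
    intro m n hmn
    have h1 := LinearIndependent.pair_iff.1 P.indep (m : ℝ) (n : ℝ) (by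
      rw [Complex.real_smul, Complex.real_smul]
      exact_mod_cast hmn)
    exact ⟨by exact_mod_cast h1.1, by exact_mod_cast h1.2⟩
  have hmem : ∀ z ∈ M, ∃ x1 y1 : ℤ, (x1 : ℂ) * a + y1 * b = z := by
    intro z hz
    rw [hM, Submodule.mem_span_pair] at hz
    obtain ⟨x1, y1, h⟩ := hz
    exact ⟨x1, y1, by rw [← h, zsmul_eq_mul, zsmul_eq_mul]⟩
  have m1 : P.ω₁ ∈ M := by
    rw [← hP]
    exact PeriodPair.mem_lattice.2 ⟨1, 0, by push_cast; ring⟩
  have m2 : P.ω₂ ∈ M := by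
    rw [← hP]
    exact PeriodPair.mem_lattice.2 ⟨0, 1, by push_cast; ring⟩
  obtain ⟨x1, y1, e1⟩ := hmem _ m1
  obtain ⟨x2, y2, e2⟩ := hmem _ m2
  obtain ⟨u, hu⟩ : ∃ u : ℤ, u = y * x1 - x * y1 := ⟨_, rfl⟩
  obtain ⟨v, hv⟩ : ∃ v : ℤ, v = y * x2 - x * y2 := ⟨_, rfl⟩
  have hu' : (u : ℂ) = y * x1 - x * y1 := by exact_mod_cast congrArg (fun t : ℤ => (t : ℂ)) hu
  have hv' : (v : ℂ) = y * x2 - x * y2 := by exact_mod_cast congrArg (fun t : ℤ => (t : ℂ)) hv
  have f1 : (y : ℂ) * P.ω₁ = u * a := by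
    rw [← e1, hu']
    linear_combination (y1 : ℂ) * hxy
  have f2 : (y : ℂ) * P.ω₂ = v * a := by
    rw [← e2, hv']
    linear_combination (y2 : ℂ) * hxy
  have f3 : (x : ℂ) * P.ω₁ = -(u * b) := by
    rw [← e1, hu']
    linear_combination (x1 : ℂ) * hxy
  have f4 : (x : ℂ) * P.ω₂ = -(v * b) := by
    rw [← e2, hv']
    linear_combination (x2 : ℂ) * hxy
  have c1 := hind (v * y) (-(u * y)) (by
    push_cast
    linear_combination (v : ℂ) * f1 - (u : ℂ) * f2)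
  have c2 := hind (v * x) (-(u * x)) (by
    push_cast
    linear_combination (v : ℂ) * f3 - (u : ℂ) * f4)
  constructor
  · by_contra hx
    have hu0 : u = 0 := by
      rcases mul_eq_zero.1 (neg_eq_zero.1 c2.2) with h | h
      · exact h
      · exact absurd h hx
    exact hx (hind x 0 (by
      rw [f3, hu0]
      push_cast
      ring)).1
  · by_contra hy
    have hu0 : u = 0 := by
      rcases mul_eq_zero.1 (neg_eq_zero.1 c1.2) with h | h
      · exact h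
      · exact absurd h hy
    exact hy (hind y 0 (by
      rw [f1, hu0]
      push_cast
      ring)).1

private theorem al_mem {M : Submodule ℤ ℂ} {w m : ℂ} (hM : M = Submodule.span ℤ {32 * w, m}) {k : ℕ}
    (hk : k ≤ 5) {z : ℂ} : z ∈ Ch M w k ↔ ∃ a b : ℤ, z = a * (2 ^ k * w) + b * m := by
  rw [mem_Ch]
  constructor
  · rintro ⟨m0, hm0, n, rfl⟩
    rw [hM, Submodule.mem_span_pair] at hm0
    obtain ⟨a, b, rfl⟩ := hm0
    refine ⟨a * 2 ^ (5 - k) + n, b, ?_⟩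
    have e : (2 : ℂ) ^ (5 - k) * 2 ^ k = 32 := by
      rw [← pow_add, Nat.sub_add_cancel hk]
      norm_num
    rw [zsmul_eq_mul, zsmul_eq_mul]
    push_cast
    linear_combination (-(a : ℂ) * w) * e
  · rintro ⟨a, b, rfl⟩
    refine ⟨b * m, ?_, a, by ring⟩
    have h1 : m ∈ M := by
      rw [hM]
      exact Submodule.subset_span (by simp)
    exact intmul_mem h1 b

private theorem al_smul {μ : ℂ} {L : Submodule ℤ ℂ} {z : ℂ} : z ∈ μ • L ↔ ∃ s ∈ L, μ * s = z := by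
  rw [Submodule.mem_smul_pointwise_iff_exists]
  rfl

private theorem al_Ch {M M' : Submodule ℤ ℂ} {w m : ℂ}
    (hM : M = Submodule.span ℤ {32 * w, m}) (hM' : M' = Submodule.span ℤ {8 * w, 8 * m}) {k : ℕ}
    (hk : k ≤ 5) : Ch M' (m / 4) k = ((2 : ℂ) ^ k / 4) • Ch M w (5 - k) := by
  have hM2 : M' = Submodule.span ℤ {32 * (m / 4), 8 * w} := by
    rw [hM', Set.pair_comm]
    congr 2
    ring
  have e : (2 : ℂ) ^ k * 2 ^ (5 - k) = 32 := by
    rw [← pow_add, Nat.add_sub_cancel' hk]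
    norm_num
  ext z
  rw [al_mem hM2 hk, al_smul]
  constructor
  · rintro ⟨a, b, rfl⟩
    refine ⟨b * (2 ^ (5 - k) * w) + a * m, (al_mem hM (by omega)).2 ⟨b, a, rfl⟩, ?_⟩
    linear_combination ((b : ℂ) * w / 4) * e
  · rintro ⟨s, hs, rfl⟩
    obtain ⟨a, b, rfl⟩ := (al_mem hM (by omega)).1 hs
    refine ⟨b, a, ?_⟩
    linear_combination ((a : ℂ) * w / 4) * e

private theorem al_SS {M M' : Submodule ℤ ℂ} {w m : ℂ} (h : Fr M w)
    (hM : M = Submodule.span ℤ {32 * w, m}) (hM' : M' = Submodule.span ℤ {8 * w, 8 * m}) {i j : ℕ}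
    (hij : i + j = 3) :
    SS M' (m / 4) j = gf (Ch M w (i + 1)) (Ch M w i) (m / 2) / ((2 : ℂ) ^ j / 2) := by
  have e2 : 5 - (j + 2) = i := by omega
  have e1 : 5 - (j + 1) = i + 1 := by omega
  have e3 : (2 : ℂ) ^ (j + 2) / 4 = (2 : ℂ) ^ j / 2 * 2 := by
    rw [pow_add]
    ring
  have e4 : (2 : ℂ) ^ (j + 1) / 4 = (2 : ℂ) ^ j / 2 := by
    rw [pow_add]
    ring
  have e5 : (2 : ℂ) ^ j * (m / 4) = (2 : ℂ) ^ j / 2 * (m / 2) := by ring
  unfold SS
  rw [al_Ch hM hM' (by omega), al_Ch hM hM' (by omega), e1, e2, e3, e4, e5, ← smul_smul,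
    sg_smul (two_dbl (twoCh h (by omega))) (div_ne_zero (pow_ne_zero _ two_ne_zero) two_ne_zero), gf_def]

private theorem al_T {M : Submodule ℤ ℂ} {w m : ℂ} (h : Fr M w) (hm : m ∈ M)
    (hm0 : m / 2 ∉ Ch M w 0) {j : ℕ} (hj : j < 3) :
    gf (Ch M w (j + 1)) (Ch M w j) (m / 2) * SS M w (j + 1) =
      gf (Ch M w (j + 2)) (Ch M w (j + 1)) (m / 2) * SS M w j := by
  obtain ⟨D, hT⟩ := chain_tri h (k := j + 1) (by omega)
  have hmk : ∀ k, m / 2 ∉ Ch M w k := fun k h1 => hm0 (Ch_anti (Nat.zero_le k) h1)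
  have hmh : ∀ k, m / 2 ∈ half (Ch M w k) := fun k => by
    rw [mem_half, mul_div_cancel₀ m (two_ne_zero (α := ℂ))]
    exact le_Ch k hm
  have g1 := gsum (twoCh h (k := j + 1) (by omega)) (pow_mem_Ch (j + 1))
    (pow_notMem h (by omega) (by omega)) (twoCh h (k := j) (by omega))
    (by
      have e : (2 : ℂ) ^ (j + 1) * w / 2 = 2 ^ j * w := by
        rw [pow_succ]
        ring
      rw [e]
      exact pow_mem_Ch j) (hmk (j + 1))
  have g2 := (hT.sympl (hmh (j + 3)) (hmk (j + 2)) (pow_mem_Ch (j + 1))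
    (pow_notMem h (by omega) (by omega))).2
  rw [SS_step h hj hT, ← SS_eq] at g2
  rw [add_comm (m / 2)] at g1
  rw [g1]
  linear_combination g2

theorem fricke {M M' : Submodule ℤ ℂ} {w m : ℂ} (h : Fr M w)
    (hM : M = Submodule.span ℤ {32 * w, m}) (hM' : M' = Submodule.span ℤ {8 * w, 8 * m}) :
    Fr M' (m / 4) ∧ 1 + fv M w ^ 2 ≠ 0 ∧ fv M' (m / 4) = fu M w / (1 + fv M w ^ 2) ∧
      fu M' (m / 4) = 2 * fv M w / (1 + fv M w ^ 2) := by
  have hmM : m ∈ M := by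
    rw [hM]
    exact Submodule.subset_span (by simp)
  have key : ∀ a b : ℤ, (a : ℂ) * (32 * w) + (32 * b - 16 : ℂ) * m = 0 → False := by
    intro a b hab
    have h1 := (al_indep h.lat hM (x := a) (y := 32 * b - 16) (by
      push_cast
      exact hab)).2
    omega
  have hm0 : m / 2 ∉ Ch M w 0 := by
    intro h1
    obtain ⟨a, b, hab⟩ := (al_mem hM (by omega)).1 h1
    exact key a b (by linear_combination (-32 : ℂ) * hab)
  have hM8 : M' = (8 : ℂ) • Ch M w 0 := by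
    ext z
    rw [al_smul, hM', Submodule.mem_span_pair]
    constructor
    · rintro ⟨a, b, rfl⟩
      refine ⟨a * (2 ^ 0 * w) + b * m, (al_mem hM (by omega)).2 ⟨a, b, rfl⟩, ?_⟩
      rw [zsmul_eq_mul, zsmul_eq_mul]
      ring
    · rintro ⟨s, hs, rfl⟩
      obtain ⟨a, b, rfl⟩ := (al_mem hM (by omega)).1 hs
      refine ⟨a, b, ?_⟩
      rw [zsmul_eq_mul, zsmul_eq_mul]
      ring
  have h' : Fr M' (m / 4) := by
    refine ⟨?_, ?_, ?_⟩
    · rw [hM8]
      exact (twoCh h (k := 0) (by omega)).lat'.smul (by norm_num)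
    · have e : 32 * (m / 4) = 8 * m := by ring
      rw [e, hM']
      exact Submodule.subset_span (by simp)
    · intro h1
      rw [hM', Submodule.mem_span_pair] at h1
      obtain ⟨a, b, hab⟩ := h1
      rw [zsmul_eq_mul, zsmul_eq_mul] at hab
      exact key a b (by linear_combination (4 : ℂ) * hab)
  have n1 := SS_ne' h (j := 1) (by norm_num)
  have n2 := SS_ne' h (j := 2) (by norm_num)
  have q1 := fv_sqE h
  have q2 := fu_mul h
  have q3 := fu_mul h'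
  have n2' := SS_ne' h' (j := 2) (by norm_num)
  have s0 : SS M' (m / 4) 0 = gf (Ch M w 4) (Ch M w 3) (m / 2) / ((2 : ℂ) ^ 0 / 2) :=
    al_SS h hM hM' (i := 3) (j := 0) rfl
  have s1 : SS M' (m / 4) 1 = gf (Ch M w 3) (Ch M w 2) (m / 2) / ((2 : ℂ) ^ 1 / 2) :=
    al_SS h hM hM' (i := 2) (j := 1) rfl
  have s2 : SS M' (m / 4) 2 = gf (Ch M w 2) (Ch M w 1) (m / 2) / ((2 : ℂ) ^ 2 / 2) :=
    al_SS h hM hM' (i := 1) (j := 2) rfl
  have s3 : SS M' (m / 4) 3 = gf (Ch M w 1) (Ch M w 0) (m / 2) / ((2 : ℂ) ^ 3 / 2) :=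
    al_SS h hM hM' (i := 0) (j := 3) rfl
  have t0 : gf (Ch M w 1) (Ch M w 0) (m / 2) * SS M w 1 =
      gf (Ch M w 2) (Ch M w 1) (m / 2) * SS M w 0 := al_T h hmM hm0 (j := 0) (by omega)
  have t1 : gf (Ch M w 2) (Ch M w 1) (m / 2) * SS M w 2 =
      gf (Ch M w 3) (Ch M w 2) (m / 2) * SS M w 1 := al_T h hmM hm0 (j := 1) (by omega)
  have t2 : gf (Ch M w 3) (Ch M w 2) (m / 2) * SS M w 3 =
      gf (Ch M w 4) (Ch M w 3) (m / 2) * SS M w 2 := al_T h hmM hm0 (j := 2) (by omega)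
  have hfv : fv M w = (SS M w 0 - SS M w 1) / (2 * SS M w 2) := rfl
  have hfv' : fv M' (m / 4) = (SS M' (m / 4) 0 - SS M' (m / 4) 1) / (2 * SS M' (m / 4) 2) := rfl
  rw [s2, s3] at q3
  rw [s0, s1, s2] at hfv'
  rw [s2] at n2'
  generalize gf (Ch M w 1) (Ch M w 0) (m / 2) = T0 at *
  generalize gf (Ch M w 2) (Ch M w 1) (m / 2) = T1 at *
  generalize gf (Ch M w 3) (Ch M w 2) (m / 2) = T2 at *
  generalize gf (Ch M w 4) (Ch M w 3) (m / 2) = T3 at *
  have nT1 : T1 ≠ 0 := by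
    rintro rfl
    exact n2' (by simp)
  have p1 : 1 + fv M w ^ 2 = SS M w 1 / SS M w 2 := by
    rw [eq_div_iff n2]
    linear_combination q1
  have p2 : fu M w = (2 * SS M w 3 - SS M w 2) / SS M w 2 := by
    rw [eq_div_iff n2]
    exact q2
  have hT2 : T2 = T1 * SS M w 2 / SS M w 1 := by
    rw [eq_div_iff n1]
    exact t1.symm
  have hT3 : T3 = T1 * SS M w 3 / SS M w 1 := by
    rw [eq_div_iff n1]
    apply mul_right_cancel₀ n2
    rw [hT2, div_mul_eq_mul_div, div_eq_iff n1] at t2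
    linear_combination -t2
  have hT0 : T0 = T1 * SS M w 0 / SS M w 1 := by
    rw [eq_div_iff n1]
    exact t0
  refine ⟨h', ?_, ?_, ?_⟩
  · rw [p1]
    exact div_ne_zero n1 n2
  · rw [hfv', p1, p2, hT2, hT3]
    field_simp
  · have q4 : fu M' (m / 4) = SS M w 0 / SS M w 1 - 1 := by
      apply mul_right_cancel₀ n2'
      rw [q3, hT0]
      field_simp
    rw [q4, p1, hfv]
    field_simp

end Pool.Agent.Work.MP_8efaaa_nt.N5
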