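import Mathlib
import Pool.Agent.Work.MP_8efaaa_nt.R.AInt
import Pool.Agent.Work.MP_8efaaa_nt.N5.ALat1
import Pool.Agent.Work.MP_8efaaa_nt.N5.ALat2

/-!
# N5/ALat3 (M-L): the sign

Tested numerically (random lattices). By `same_quarter`, `J := fv M (w - m/4) / fv M w` and `J' := fv M' (m/4 + 2 w) / fv M' (m/4)` are
square roots of `-1`; the claim is `J' = J`. Both are values of the Weil pairing of block A (`w(a1,a2) = f2(a1)/f1(a2) = ±i`,
`w_{L0}(a0,b0) = -w_L(p,q)`), for the lattices `Ch 2`, `Ch 3` of the chain of `(M, w)` and the dual lattices. `fv M (w - m/4)/fv M w =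
(S_0' - S_1')/(S_0 - S_1)` with the same `S_2`. See the proof of `quarter_turn` (R/SF.lean .. R/SH.lean) where the same kind of sign
is determined (the sign of the quotient u/v is the Weil pairing relation).
-/

set_option autoImplicit false

namespace Pool.Agent.Work.MP_8efaaa_nt.N5

open Pool.Agent.Work.CM Pool.Agent.Work.MP_8efaaa_nt.R
open scoped Pointwise

private theorem not_real {M : Submodule ℤ ℂ} {w m : ℂ} (h : Fr M w)
    (hM : M = Submodule.span ℤ {32 * w, m}) (r : ℝ) : m ≠ r * w := by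
  intro h0
  obtain ⟨P, hP⟩ := h.lat
  have key : ∀ z ∈ M, ∃ t : ℝ, z = t * w := by
    intro z hz
    rw [hM] at hz
    obtain ⟨a, b, rfl⟩ := Submodule.mem_span_pair.1 hz
    refine ⟨32 * a + b * r, ?_⟩
    rw [h0, zsmul_eq_mul, zsmul_eq_mul]
    push_cast
    ring
  obtain ⟨r1, e1⟩ := key P.ω₁ (by rw [← hP]; exact P.ω₁_mem_lattice)
  obtain ⟨r2, e2⟩ := key P.ω₂ (by rw [← hP]; exact P.ω₂_mem_lattice)
  have li := P.indep
  rw [LinearIndependent.pair_iff] at li
  have h1 := li r2 (-r1) (by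
    rw [e1, e2, Complex.real_smul, Complex.real_smul]
    push_cast
    ring)
  have h2 := li 1 0 (by
    rw [e1, neg_eq_zero.1 h1.2]
    simp)
  exact one_ne_zero h2.1

private theorem sup_eq {M : Submodule ℤ ℂ} {x y : ℂ} (h : x - y ∈ M) :
    M ⊔ Submodule.span ℤ {x} = M ⊔ Submodule.span ℤ {y} := by
  refine le_antisymm (sup_le le_sup_left ?_) (sup_le le_sup_left ?_)
  · rw [Submodule.span_singleton_le_iff_mem]
    have e : x = (x - y) + y := by ring
    rw [e]
    exact add_mem (Submodule.mem_sup_left h)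
      (Submodule.mem_sup_right (Submodule.mem_span_singleton_self y))
  · rw [Submodule.span_singleton_le_iff_mem]
    have e : y = -(x - y) + x := by ring
    rw [e]
    exact add_mem (Submodule.mem_sup_left (neg_mem h))
      (Submodule.mem_sup_right (Submodule.mem_span_singleton_self x))

private theorem fr_add {M : Submodule ℤ ℂ} {w g : ℂ} (h : Fr M w) (hg : 4 * g ∈ M) :
    Fr M (w + g) := by
  refine ⟨h.lat, ?_, fun h1 => h.nmem ?_⟩
  · have e : 32 * (w + g) = 32 * w + ((8 : ℤ) : ℂ) * (4 * g) := by push_cast; ring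
    rw [e]
    exact add_mem h.mem (intmul_mem hg 8)
  · have e : 16 * w = 16 * (w + g) - ((4 : ℤ) : ℂ) * (4 * g) := by push_cast; ring
    rw [e]
    exact sub_mem h1 (intmul_mem hg 4)

private theorem ch_add {M : Submodule ℤ ℂ} {w g : ℂ} (hg : 4 * g ∈ M) (k : ℕ) :
    Ch M (w + g) (k + 2) = Ch M w (k + 2) := by
  unfold Ch
  apply sup_eq
  have e : (2 : ℂ) ^ (k + 2) * (w + g) - 2 ^ (k + 2) * w = ((2 ^ k : ℤ) : ℂ) * (4 * g) := by
    push_cast
    ring
  rw [e]
  exact intmul_mem hg _

private theorem turn {M : Submodule ℤ ℂ} {w g : ℂ} (h : Fr M w) (hg : 4 * g ∈ M)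
    (hg' : 2 * g ∉ Ch M w 2) :
    fv M (w + g) * gf (Ch M w 2) (half (Ch M w 3)) (2 * w) =
      gf (Ch M w 2) (Ch M w 1) (2 * g) * fv M w := by
  have h' := fr_add h hg
  have c2 : Ch M (w + g) 2 = Ch M w 2 := ch_add hg 0
  have c3 : Ch M (w + g) 3 = Ch M w 3 := ch_add hg 1
  have c4 : Ch M (w + g) 4 = Ch M w 4 := ch_add hg 2
  have s2 : SS M (w + g) 2 = SS M w 2 := by
    unfold SS
    rw [c3, c4]
    have e : (2 : ℂ) ^ 2 * (w + g) = 2 ^ 2 * w + 4 * g := by ring
    rw [e]
    exact sg_add (twoCh h (k := 3) (by omega)).lat _ (le_Ch 4 hg)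
  have m1 : 2 * g ∈ half (Ch M w 3) := by
    rw [mem_half]
    have e : 2 * (2 * g) = 4 * g := by ring
    rw [e]
    exact le_Ch 3 hg
  have m2 : 2 * w ∈ Ch M w 1 := by simpa using pow_mem_Ch (M := M) (w := w) 1
  have m3 : 2 * (w + g) ∈ Ch M (w + g) 1 := by simpa using pow_mem_Ch (M := M) (w := w + g) 1
  have t1 : Two (Ch M w 2) (Ch M w 1) := twoCh h (k := 1) (by omega)
  have t2 : Two (Ch M w 2) (half (Ch M w 3)) := two_half_Ch h (k := 1) (by omega)
  have t3 : Two (Ch M w 2) (Ch M (w + g) 1) := by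
    have := twoCh h' (k := 1) (by omega)
    rwa [c2] at this
  have n1 : half (Ch M w 3) ≠ Ch M w 1 := half_ne h (k := 1) (by omega)
  have n2 : half (Ch M w 3) ≠ Ch M (w + g) 1 := by
    have := half_ne h' (k := 1) (by omega)
    rwa [c3] at this
  have n3 : Ch M w 1 ≠ Ch M (w + g) 1 := by
    intro h0
    rw [← h0] at m3
    have m4 : 2 * g ∈ Ch M w 1 := by
      have e : 2 * g = 2 * (w + g) - 2 * w := by ring
      rw [e]
      exact sub_mem m3 m2
    exact n1 (Two.eq_of_mem t2 t1 m1 m4 hg')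
  have T : Tri (Ch M w 2) (half (Ch M w 3)) (Ch M w 1) (Ch M (w + g) 1) :=
    ⟨t2, t1, t3, n1, n3, n2.symm⟩
  have a1 := SS_step h (j := 0) (by omega) T
  have T' : Tri (Ch M (w + g) (0 + 2)) (half (Ch M (w + g) (0 + 3))) (Ch M (w + g) (0 + 1))
      (Ch M w 1) := by
    have e2 : Ch M (w + g) (0 + 2) = Ch M w 2 := c2
    have e3 : Ch M (w + g) (0 + 3) = Ch M w 3 := c3
    rw [e2, e3]
    exact T.sw
  have a2 := SS_step h' (j := 0) (by omega) T'
  have e2 : Ch M (w + g) (0 + 2) = Ch M w 2 := c2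
  rw [e2] at a2
  have hz : 2 * w ∉ half (Ch M w 3) := by
    intro h1
    have h2 : 2 * w ∈ Ch M w 2 := T.mem_inter h1 m2
    have h3 := pow_notMem h (i := 1) (k := 2) (by omega) (by omega)
    rw [pow_one] at h3
    exact h3 h2
  have a3 := T.shift m1 hg' hz
  have e4 : 2 * w + 2 * g = 2 * (w + g) := by ring
  rw [e4] at a3
  have e5 : (2 : ℂ) ^ (0 + 1) * (w + g) = 2 * (w + g) := by norm_num
  have e6 : (2 : ℂ) ^ (0 + 1) * w = 2 * w := by norm_num
  rw [e5] at a2
  rw [e6] at a1
  have n4 := SS_ne' h (j := 2) (by omega)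
  unfold fv
  rw [s2, ← a1, ← a2]
  field_simp
  linear_combination a3

theorem quarter_sign {M M' : Submodule ℤ ℂ} {w m : ℂ} (h : Fr M w)
    (hM : M = Submodule.span ℤ {32 * w, m}) (hM' : M' = Submodule.span ℤ {8 * w, 8 * m}) :
    fv M' (m / 4 + 2 * w) * fv M w = fv M (w - m / 4) * fv M' (m / 4) := by
  have F := (fricke h hM hM').1
  have mm : m ∈ M := by
    rw [hM]
    exact Submodule.subset_span (by simp)
  -- the lattices
  have hC : ∀ k ≤ 5, Ch M w k = Submodule.span ℤ {(2 : ℂ) ^ k * w, m} := by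
    intro k hk
    unfold Ch
    refine le_antisymm (sup_le ?_ ?_) ?_
    · rw [hM, Submodule.span_le]
      rintro z (rfl | rfl)
      · have e : 32 * w = ((2 ^ (5 - k) : ℤ) : ℂ) * (2 ^ k * w) := by
          push_cast
          rw [← mul_assoc, ← pow_add, Nat.sub_add_cancel hk]
          norm_num
        rw [e]
        exact intmul_mem (Submodule.subset_span (by simp)) _
      · exact Submodule.subset_span (by simp)
    · rw [Submodule.span_singleton_le_iff_mem]
      exact Submodule.subset_span (by simp)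
    · rw [Submodule.span_le]
      rintro z (rfl | rfl)
      · exact Submodule.mem_sup_right (Submodule.mem_span_singleton_self _)
      · exact Submodule.mem_sup_left mm
  have hC' : ∀ k ≤ 5, Ch M' (m / 4) k = Submodule.span ℤ {(2 : ℂ) ^ k * (m / 4), 8 * w} := by
    intro k hk
    unfold Ch
    refine le_antisymm (sup_le ?_ ?_) ?_
    · rw [hM', Submodule.span_le]
      rintro z (rfl | rfl)
      · exact Submodule.subset_span (by simp)
      · have e : 8 * m = ((2 ^ (5 - k) : ℤ) : ℂ) * (2 ^ k * (m / 4)) := by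
          push_cast
          rw [← mul_assoc, ← pow_add, Nat.sub_add_cancel hk]
          ring
        rw [e]
        exact intmul_mem (Submodule.subset_span (by simp)) _
    · rw [Submodule.span_singleton_le_iff_mem]
      exact Submodule.subset_span (by simp)
    · rw [Submodule.span_le]
      rintro z (rfl | rfl)
      · exact Submodule.mem_sup_right (Submodule.mem_span_singleton_self _)
      · refine Submodule.mem_sup_left ?_
        rw [hM']
        exact Submodule.subset_span (by simp)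
  have half_span : ∀ x y : ℂ, half (Submodule.span ℤ {2 * x, 2 * y}) = Submodule.span ℤ {x, y} := by
    intro x y
    ext z
    rw [mem_half, Submodule.mem_span_pair, Submodule.mem_span_pair]
    constructor
    · rintro ⟨a, b, e⟩
      refine ⟨a, b, ?_⟩
      rw [zsmul_eq_mul, zsmul_eq_mul] at e ⊢
      linear_combination e / 2
    · rintro ⟨a, b, e⟩
      refine ⟨a, b, ?_⟩
      rw [zsmul_eq_mul, zsmul_eq_mul] at e ⊢
      linear_combination 2 * e
  have d2 : Ch M' (m / 4) 2 = Ch M w 3 := by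
    rw [hC' 2 (by omega), hC 3 (by omega), Set.pair_comm]
    congr 2
    · norm_num
    · ext z
      constructor
      · rintro rfl
        show _ = _
        ring
      · rintro rfl
        show _ = _
        ring
  have d3 : half (Ch M' (m / 4) 3) = Ch M w 2 := by
    rw [hC' 3 (by omega), hC 2 (by omega)]
    have e1 : (2 : ℂ) ^ 3 * (m / 4) = 2 * m := by ring
    have e2 : 8 * w = 2 * (2 ^ 2 * w) := by ring
    rw [e1, e2, half_span, Set.pair_comm]
  have d1 : Ch M' (m / 4) 1 = half (Ch M w 4) := by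
    rw [hC' 1 (by omega), hC 4 (by omega)]
    have e1 : (2 : ℂ) ^ 4 * w = 2 * (8 * w) := by ring
    have e2 : m = 2 * (m / 2) := by ring
    have e3 : (2 : ℂ) ^ 1 * (m / 4) = m / 2 := by ring
    rw [e1, e3]
    conv_rhs => rw [e2]
    rw [half_span, Set.pair_comm]
  -- the points
  have p1 : m / 2 ∉ Ch M w 2 := by
    intro h1
    rw [hC 2 (by omega)] at h1
    obtain ⟨a, b, e⟩ := Submodule.mem_span_pair.1 h1
    rw [zsmul_eq_mul, zsmul_eq_mul] at e
    have hb : (1 - 2 * (b : ℝ)) ≠ 0 := by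
      intro h2
      have h3 : (1 - 2 * b : ℤ) = 0 := by exact_mod_cast h2
      omega
    have hb' : (1 - 2 * (b : ℂ)) ≠ 0 := by
      intro h2
      have h3 : (1 - 2 * b : ℤ) = 0 := by exact_mod_cast h2
      omega
    refine not_real h hM (8 * a / (1 - 2 * b)) ?_
    push_cast
    rw [div_mul_eq_mul_div, eq_div_iff hb']
    linear_combination -2 * e
  have p2 : m / 2 ∈ half (Ch M w 4) := by
    rw [mem_half]
    have e : 2 * (m / 2) = m := by ring
    rw [e]
    exact le_Ch 4 mm
  have p3 : m / 2 ∉ Ch M w 3 := fun h1 => p1 (Ch_le 2 h1)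
  have q1 : 4 * w ∈ Ch M w 2 := by
    have := pow_mem_Ch (M := M) (w := w) 2
    norm_num at this
    exact this
  have q2 : 4 * w ∉ Ch M w 3 := by
    have := pow_notMem h (i := 2) (k := 3) (by omega) (by omega)
    norm_num at this
    exact this
  have q3 : 2 * w ∈ Ch M w 1 := by simpa using pow_mem_Ch (M := M) (w := w) 1
  -- the two quotients
  have h1 := turn h (g := -(m / 4)) (by
    have e : 4 * -(m / 4) = -m := by ring
    rw [e]
    exact neg_mem mm) (by
    intro h1
    have e : 2 * -(m / 4) = -(m / 2) := by ring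
    rw [e] at h1
    exact p1 (by simpa using neg_mem h1))
  have h2 := turn F (g := 2 * w) (by
    rw [hM']
    have e : 4 * (2 * w) = 8 * w := by ring
    rw [e]
    exact Submodule.subset_span (by simp)) (by
    rw [d2]
    have e : 2 * (2 * w) = 4 * w := by ring
    rw [e]
    exact q2)
  rw [d1, d2, d3] at h2
  obtain ⟨D, T⟩ := chain_tri h (k := 2) (by omega)
  have e1 : 2 * -(m / 4) = -(m / 2) := by ring
  have e2 : 2 * (2 * w) = 4 * w := by ring
  have e3 : 2 * (m / 4) = m / 2 := by ring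
  have e4 : w + -(m / 4) = w - m / 4 := by ring
  have t1 : Two (Ch M w 2) (Ch M w 1) := twoCh h (k := 1) (by omega)
  have t2 : Two (Ch M w 3) (Ch M w 2) := twoCh h (k := 2) (by omega)
  rw [e1, e4, gf_neg t1] at h1
  rw [e2, e3] at h2
  have g1 := gsum t2 q1 q2 t1 (by
    have e : 4 * w / 2 = 2 * w := by ring
    rw [e]
    exact q3) p1
  have g2 : gf (Ch M w 2) (half (Ch M w 3)) (2 * w) =
      gf (Ch M w 3) (half (Ch M w 4)) (4 * w) + gf (Ch M w 3) D (4 * w) := by
    have := T.qsum (q := 2 * w) (by rw [e2]; exact q1) (by rw [e2]; exact q2)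
    rw [e2] at this
    rw [← this, sg_eq_gf]
  have g3 := T.shift p2 p3 (z := 4 * w) (fun h3 => q2 (T.mem_inter h3 q1))
  have g4 := T.val q1 q2
  have g5 := T.swap.val p2 p3
  have n1 := T.val_ne q1 q2
  have n2 := T.swap.val_ne p2 p3
  have n3 : gf (Ch M w 3) (half (Ch M w 4)) (4 * w) + gf (Ch M w 3) D (4 * w) ≠ 0 := by
    rw [← g2, ← sg_eq_gf]
    have := T.sg_q_ne (q := 2 * w) (by rw [e2]; exact q2)
    exact this
  rw [g2, g1] at h1
  have e5 : 4 * w + m / 2 = m / 2 + 4 * w := by ring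
  rw [e5] at g3
  have h3 : fv M (w - m / 4) * gf (Ch M w 3) (half (Ch M w 4)) (4 * w) =
      -gf (Ch M w 3) (Ch M w 2) (m / 2) * fv M w := by
    apply mul_left_cancel₀ n3
    linear_combination gf (Ch M w 3) (half (Ch M w 4)) (4 * w) * h1 - fv M w * g3
  have n4 := mul_ne_zero n1 n2
  apply mul_left_cancel₀ n4
  linear_combination fv M w * gf (Ch M w 3) (half (Ch M w 4)) (4 * w) * h2 -
    fv M' (m / 4) * gf (Ch M w 3) (Ch M w 2) (m / 2) * h3 +
    fv M w * fv M' (m / 4) * (g4 + g5)

end Pool.Agent.Work.MP_8efaaa_nt.N5
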