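import Mathlib
import Pool.Agent.Work.MP_8efaaa_nt.Rf.Cj
import Pool.Agent.Work.MP_8efaaa_nt.N5.Defs

/-!
# N5/NMi (S-M): the ideal `mI S a`

PROOF. `n = (1 + a)/2` is `3` modulo `4`. `mI S a = (n, 1 + S)`, `N(1 + S) = 1 + a = 2 n`; elements `x n + y (1 + S) ..`: `u + v S ∈ mI` iff `n ∣ u - v` (use
`S (1 + S) = S - a = (1 + S) - 2 n`), so the norm is `n` (index of the sublattice). Alternatively `mI S a * P2 S = span {1 + S}`, `absNorm (P2 S) = 2`, see
R/RInt.lean (`Q5.P2`, `norm_gen`). `jac_mi`: `d ∣ a`, `d = 1, 3 (mod 8)`: `(d / n) = (n / d) (-1)^((d-1)/2)` (`n = 3 (mod 4)`), `2 n = 1 (mod d)`, so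
`(n / d) = (2 / d)`; `(2 / d) (-1)^((d-1)/2) = (-2 / d) = 1` for `d = 1, 3 (mod 8)`.
-/

set_option autoImplicit false

namespace Pool.Agent.Work.MP_8efaaa_nt.N5

open NumberField Pool.Agent.Work.MP_8efaaa_nt.R

variable {K : Type*} [Field K] [NumberField K] {a : ℕ} {s : K} {S : 𝓞 K}

theorem norm_mI (hb : Base5 K a s) (hS : algebraMap (𝓞 K) K S = s) :
    Ideal.absNorm (mI S a) = (1 + a) / 2 := by
  obtain ⟨S', hS1, hQ⟩ := exists_Q5 hb
  obtain rfl : S' = S := RingOfIntegers.ext (hS1.trans hS.symm)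
  have ha8 := hQ.mod
  obtain ⟨n, hn⟩ : ∃ n : ℕ, (1 + a) / 2 = n := ⟨_, rfl⟩
  have hn2 : 1 + a = 2 * n := by omega
  obtain ⟨m, hm⟩ : ∃ m : ℕ, n = 2 * m + 1 := ⟨n / 2, by omega⟩
  have h2n : (1 + S') * (1 - S') = 2 * (n : 𝓞 K) := by
    have h1 := hQ.sq
    have h2 := congrArg (Nat.cast (R := 𝓞 K)) hn2
    push_cast at h2
    linear_combination h2 - h1
  have hprod : mI S' a * Q5.P2 S' = Ideal.span {1 + S'} := by
    unfold mI Q5.P2
    rw [hn, Ideal.span_pair_mul_span_pair]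
    apply le_antisymm
    · rw [Ideal.span_le]
      rintro z (rfl | rfl | rfl | rfl)
      · rw [SetLike.mem_coe, Ideal.mem_span_singleton]
        exact ⟨1 - S', by rw [h2n]; ring⟩
      · rw [SetLike.mem_coe, Ideal.mem_span_singleton]
        exact dvd_mul_left _ _
      · rw [SetLike.mem_coe, Ideal.mem_span_singleton]
        exact dvd_mul_right _ _
      · rw [SetLike.mem_coe, Ideal.mem_span_singleton]
        exact dvd_mul_right _ _
    · rw [Ideal.span_singleton_le_iff_mem]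
      have h3 : (n : 𝓞 K) * (1 + S') ∈ Ideal.span {(n : 𝓞 K) * 2, (n : 𝓞 K) * (1 + S'),
          (1 + S') * 2, (1 + S') * (1 + S')} := Ideal.subset_span (by simp)
      have h4 : (1 + S') * 2 ∈ Ideal.span {(n : 𝓞 K) * 2, (n : 𝓞 K) * (1 + S'),
          (1 + S') * 2, (1 + S') * (1 + S')} := Ideal.subset_span (by simp)
      have h5 : 1 + S' = (n : 𝓞 K) * (1 + S') - (m : 𝓞 K) * ((1 + S') * 2) := by
        rw [hm]
        push_cast
        ring
      have h6 := Ideal.sub_mem _ h3 (Ideal.mul_mem_left _ (m : 𝓞 K) h4)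
      rw [← h5] at h6
      exact h6
  have h7 := congrArg Ideal.absNorm hprod
  rw [map_mul, hQ.norm_p2] at h7
  have h8 := hQ.norm_gen 1 1
  have e : (((1 : ℤ) : 𝓞 K) + ((1 : ℤ) : 𝓞 K) * S') = 1 + S' := by push_cast; ring
  rw [e, ← h7] at h8
  push_cast at h8
  omega

theorem jac_mi {a d : ℕ} (ha : a % 8 = 5) (hd : d ∣ a) (hd8 : d % 8 = 1 ∨ d % 8 = 3) :
    jacobiSym d ((1 + a) / 2) = 1 := by
  obtain ⟨n, hn⟩ : ∃ n : ℕ, (1 + a) / 2 = n := ⟨_, rfl⟩
  rw [hn]
  have hn2 : 1 + a = 2 * n := by omega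
  have hn4 : n % 4 = 3 := by omega
  have hno : Odd n := Nat.odd_iff.2 (by omega)
  have hdo : Odd d := Nat.odd_iff.2 (by omega)
  have h1 : jacobiSym 2 d * jacobiSym (n : ℤ) d = 1 := by
    rw [← jacobiSym.mul_left, jacobiSym.mod_left]
    have h2 : (2 * (n : ℤ)) % (d : ℤ) = 1 % (d : ℤ) := by
      obtain ⟨e, he⟩ := hd
      have h3 : 2 * (n : ℤ) = 1 + (d : ℤ) * (e : ℤ) := by
        have := congrArg (Nat.cast (R := ℤ)) hn2
        rw [he] at this
        push_cast at this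
        linarith
      rw [h3, Int.add_mul_emod_self_left]
    rw [h2, ← jacobiSym.mod_left, jacobiSym.one_left]
  have h2 : jacobiSym 2 d = ZMod.χ₈ d := jacobiSym.at_two hdo
  rcases hd8 with h8 | h8
  · have h3 : jacobiSym 2 d = 1 := by
      rw [h2, ZMod.χ₈_nat_eq_if_mod_eight, if_neg (by omega), if_pos (Or.inl h8)]
    rw [h3, one_mul] at h1
    rw [jacobiSym.quadratic_reciprocity_one_mod_four (by omega) hno]
    exact h1
  · have h3 : jacobiSym 2 d = -1 := by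
      rw [h2, ZMod.χ₈_nat_eq_if_mod_eight, if_neg (by omega), if_neg (by omega)]
    rw [h3] at h1
    rw [jacobiSym.quadratic_reciprocity_three_mod_four (by omega) hn4]
    linarith

end Pool.Agent.Work.MP_8efaaa_nt.N5
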