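import Mathlib
import Pool.Agent.Work.MP_8efaaa_nt.R.CInt
import Pool.Agent.Work.MP_8efaaa_nt.N5.Defs
import Pool.Agent.Work.MP_8efaaa_nt.N5.ALat3
import Pool.Agent.Work.MP_8efaaa_nt.N5.BQm
import Pool.Agent.Work.MP_8efaaa_nt.N5.NMi

/-!
# N5/BFrk (M): the Fricke involution and the ideal `mI S a`

Tested numerically (a = 5, 13, 21, 29, 37). PROOF. Write `σ = (1 + s)/2 = 4 w0`, `n = (1 + a)/2 = 3 (mod 4)`, `σ σ' = n/2`, `σ^2 = σ - n/2`.
`M = MM s 1 = ⟨8 σ, 1⟩ = ⟨32 w0, 1⟩` (`m = 1` in `fricke`), `M' = ⟨8 w0, 8⟩ = ⟨2 σ, 8⟩`. For `𝔪 = mI S a = (n, 1 + S)`: `iv 𝔪 = ⟨1, σ⁻¹⟩` (`σ⁻¹ = 2 σ'/n`,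
`𝔪 σ⁻¹ ⊆ 𝓞`), so `σ • MM s 𝔪 = ⟨8 σ^2, σ, 8 σ, 8⟩ = ⟨σ, 4 n, 8⟩ = ⟨σ, 4⟩`, hence `(2 σ) • MM s 𝔪 = M'`, and `2 σ w0 = σ^2/2 = σ/2 - n/4 = 2 w0 - n/4`.
`f_smul` (factor `2 σ`): the values of `(MM s 𝔪, w0)` are those of `(M', 2 w0 - n/4)`. `f_odd` with `d = -n`: `(2 w0 - n/4) - (-n)(1/4 + 2 w0) =
2 w0 (1 + n) ∈ ℤ 8 w0`, as `4 ∣ n + 1`. So `Vc s 𝔪 = fv M' (1/4 + 2 w0)` and `Zc s 𝔪 = ± fz M' (1/4 + 2 w0)`, `Uc s 𝔪 = fu M' (1/4 + 2 w0) = fu M' (1/4)`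
by `same_quarter` for `(M', 1/4)`, `g = 2 w0` (`4 g = 8 w0 ∈ M'`, `2 g = 4 w0 ∉ ⟨8 w0, 4⟩ = Ch M' (1/4) 4`). Then `fricke`: `Uc s 𝔪 = 2 V/(1 + V^2)`, `quarter_sign`:
`Vc s 𝔪 * V = Vm s 1 * (U/(1 + V^2))`, `V = Vc s 1`, `U = Uc s 1`, `U^2 = 1 - V^4`, `Vm^2 = -V^2` (`qm`): the two claims are algebra
(`V ≠ 0`, `1 + V^2 ≠ 0`).
-/

set_option autoImplicit false

namespace Pool.Agent.Work.MP_8efaaa_nt.N5

open NumberField Pool.Agent.Work.CM Pool.Agent.Work.MP_8efaaa_nt.R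
open scoped Pointwise

variable {K : Type*} [Field K] [NumberField K] [Algebra K ℂ] {a : ℕ} {s : K} {S : 𝓞 K}

private theorem bf_sq (hb : Base5 K a s) : algebraMap K ℂ s ^ 2 = -(a : ℂ) := by
  rw [← map_pow, hb.sq, map_neg, map_natCast]

private theorem bf_smul {z y : ℂ} {S : Submodule ℤ ℂ} : y ∈ z • S ↔ ∃ x ∈ S, z * x = y := by
  rw [Submodule.mem_smul_pointwise_iff_exists]
  rfl

/-- the second lattice -/
private def MP (s : K) : Submodule ℤ ℂ := Submodule.span ℤ {8 * w0 s, 8 * 1}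

private theorem mem_MP {z : ℂ} : z ∈ MP s ↔ ∃ m n : ℤ, z = m * (8 * w0 s) + n * 8 := by
  unfold MP
  rw [Submodule.mem_span_pair]
  refine exists_congr fun m => exists_congr fun n => ?_
  rw [zsmul_eq_mul, zsmul_eq_mul, mul_one]
  exact eq_comm

private theorem bf_MM1 (hb : Base5 K a s) : MM s 1 = Submodule.span ℤ {32 * w0 s, 1} := by
  have h1 : Lk s 5 = Submodule.span ℤ {32 * w0 s, 1} := by
    unfold Lk
    norm_num
  rw [MM_eq, ← h1]
  apply sup_eq_left.2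
  intro y hy
  obtain ⟨z, hz, rfl⟩ := bf_smul.1 hy
  obtain ⟨x, hx, rfl⟩ := mem_iv.1 hz
  obtain ⟨t, ht⟩ := hx 1 (by rw [Ideal.one_eq_top]; trivial)
  rw [map_one, mul_one] at ht
  rw [← ht]
  exact eight_mem_Lk hb le_rfl t

private theorem bf_n (hb : Base5 K a s) : ∃ k : ℕ, (1 + a) / 2 = 4 * k + 3 ∧ a = 8 * k + 5 := by
  have := hb.mod
  exact ⟨a / 8, by omega, by omega⟩

private theorem bf_lat (hb : Base5 K a s) (hS : algebraMap (𝓞 K) K S = s) :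
    (8 * w0 s) • MM s (mI S a) = MP s := by
  obtain ⟨k, hk, hka⟩ := bf_n hb
  have hkC : (a : ℂ) = 8 * k + 5 := by exact_mod_cast hka
  have hkK : (a : K) = 8 * k + 5 := by exact_mod_cast hka
  have hsq := bf_sq hb
  have hw : 8 * w0 s = 1 + algebraMap K ℂ s := by
    unfold w0
    ring
  apply le_antisymm
  · intro y hy
    obtain ⟨x, hx, rfl⟩ := bf_smul.1 hy
    rw [MM_eq] at hx
    obtain ⟨u, hu, v, hv, rfl⟩ := Submodule.mem_sup.1 hx
    obtain ⟨m, n, rfl⟩ := mem_Lk.1 hu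
    obtain ⟨z, hz, rfl⟩ := bf_smul.1 hv
    obtain ⟨x, hxx, rfl⟩ := mem_iv.1 hz
    obtain ⟨T, hT⟩ := hxx (1 + S) (Ideal.subset_span (by simp))
    obtain ⟨S', hS', hc⟩ := exists_S hb
    obtain ⟨p, q, rfl⟩ := hc T
    have h2 : algebraMap K ℂ x * (8 * w0 s) = p + q * algebraMap K ℂ s := by
      have h3 := congrArg (algebraMap K ℂ) hT
      simp only [map_add, map_mul, map_intCast, map_one, hS', hS] at h3
      rw [hw, h3]
    refine mem_MP.2 ⟨8 * m + n + 8 * q, -((4 * k + 3) * m) + p - q, ?_⟩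
    have h4 : 8 * w0 s * (m * (2 ^ 5 * w0 s) + n + 8 * algebraMap K ℂ x) =
        8 * w0 s * (m * (2 ^ 5 * w0 s) + n) + 8 * (algebraMap K ℂ x * (8 * w0 s)) := by ring
    rw [h4, h2]
    push_cast
    have h5 : w0 s = (1 + algebraMap K ℂ s) / 8 := rfl
    rw [h5]
    linear_combination (4 * (m : ℂ)) * hsq + (-4 * (m : ℂ)) * hkC
  · unfold MP
    rw [Submodule.span_le]
    have h1 : (1 : ℂ) ∈ MM s (mI S a) := by
      rw [MM_eq]
      refine Submodule.mem_sup_left (mem_Lk.2 ⟨0, 1, ?_⟩)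
      push_cast
      ring
    have hone : (1 + algebraMap K ℂ s) ≠ 0 := by
      intro h0
      have h2 : (((1 : ℚ)) : ℂ) + ((1 : ℚ) : ℂ) * algebraMap K ℂ s = 0 := by
        push_cast
        rw [one_mul]
        exact h0
      exact one_ne_zero (lin_indep hb h2).1
    have hw0 : 8 * w0 s ≠ 0 := by
      rw [hw]
      exact hone
    have hone' : (1 + s) ≠ 0 := by
      intro h0
      apply hone
      rw [← map_one (algebraMap K ℂ), ← map_add, h0, map_zero]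
    have hsq' := hb.sq
    have h2 : (2 / (1 + algebraMap K ℂ s)) ∈ iv (mI S a) := by
      refine mem_iv.2 ⟨2 / (1 + s), fun y hy => ?_, ?_⟩
      · obtain ⟨α, β, rfl⟩ := Ideal.mem_span_pair.1 hy
        refine ⟨α * (1 - S) + β * 2, ?_⟩
        rw [hk]
        simp only [map_add, map_mul, map_sub, map_one, map_ofNat, map_natCast, hS]
        push_cast
        field_simp
        linear_combination (-(algebraMap (𝓞 K) K α)) * hsq' + (algebraMap (𝓞 K) K α) * hkK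
      · rw [map_div₀, map_add, map_one, map_ofNat]
    have h8n : (8 * (4 * k + 3 : ℤ) : ℂ) ∈ (8 * w0 s) • MM s (mI S a) := by
      refine bf_smul.2 ⟨8 - 32 * w0 s, ?_, ?_⟩
      · rw [MM_eq]
        refine Submodule.mem_sup_left (mem_Lk.2 ⟨-1, 8, ?_⟩)
        push_cast
        ring
      · have h5 : w0 s = (1 + algebraMap K ℂ s) / 8 := rfl
        rw [h5]
        push_cast
        linear_combination -4 * hsq + 4 * hkC
    have h16 : (16 : ℂ) ∈ (8 * w0 s) • MM s (mI S a) := by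
      refine bf_smul.2 ⟨8 * (2 / (1 + algebraMap K ℂ s)), ?_, ?_⟩
      · rw [MM_eq]
        exact Submodule.mem_sup_right (bf_smul.2 ⟨_, h2, rfl⟩)
      · rw [hw]
        field_simp
        norm_num
    rintro y hy
    rcases hy with rfl | hy
    · exact bf_smul.2 ⟨1, h1, mul_one _⟩
    · rw [Set.mem_singleton_iff] at hy
      subst hy
      have h6 : (8 * 1 : ℂ) = (-1 : ℤ) • (8 * (4 * k + 3 : ℤ) : ℂ) + (2 * k + 2 : ℤ) • (16 : ℂ) := by
        rw [zsmul_eq_mul, zsmul_eq_mul]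
        push_cast
        ring
      rw [h6]
      exact Submodule.add_mem _ (Submodule.smul_mem _ _ h8n) (Submodule.smul_mem _ _ h16)

private theorem bf_Ch (hb : Base5 K a s) : 2 * (2 * w0 s) ∉ Ch (MP s) (1 / 4) 4 := by
  intro h
  unfold Ch at h
  obtain ⟨u, hu, v, hv, huv⟩ := Submodule.mem_sup.1 h
  obtain ⟨m, n, rfl⟩ := mem_MP.1 hu
  obtain ⟨l, rfl⟩ := Submodule.mem_span_singleton.1 hv
  rw [zsmul_eq_mul] at huv
  have h5 : w0 s = (1 + algebraMap K ℂ s) / 8 := rfl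
  rw [h5] at huv
  have h2 : (((m : ℚ) + 8 * n + 4 * l - 1 / 2 : ℚ) : ℂ) + ((m - 1 / 2 : ℚ) : ℂ) * algebraMap K ℂ s = 0 := by
    push_cast
    linear_combination huv
  have h3 := (lin_indep hb h2).2
  have h4 : 2 * (m : ℚ) = 1 := by linarith
  have h6 : 2 * m = 1 := by exact_mod_cast h4
  omega

private theorem bf_odd (hb : Base5 K a s) (hS : algebraMap (𝓞 K) K S = s) : OddI (mI S a) := by
  unfold OddI
  rw [norm_mI hb hS]
  obtain ⟨k, hk, -⟩ := bf_n hb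
  rw [hk]
  exact ⟨2 * k + 1, by ring⟩

private theorem bf_one : OddI (1 : Ideal (𝓞 K)) := by
  unfold OddI
  rw [map_one]
  exact odd_one

theorem frk_one (hb : Base5 K a s) (hS : algebraMap (𝓞 K) K S = s) :
    Vc s (mI S a) ^ 2 * (1 + Vc s 1 ^ 2) = -(1 - Vc s 1 ^ 2) ∧
      Uc s (mI S a) * Uc s 1 = -(2 * Vm s 1 * Vc s (mI S a)) := by
  obtain ⟨k, hk, hka⟩ := bf_n hb
  have hkC : (a : ℂ) = 8 * k + 5 := by exact_mod_cast hka
  have hsq := bf_sq hb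
  have hF : Fr (MM s 1) (w0 s) := fr_MM hb bf_one
  have hFm : Fr (MM s (mI S a)) (w0 s) := fr_MM hb (bf_odd hb hS)
  have hMM : MM s 1 = Submodule.span ℤ {32 * w0 s, 1} := bf_MM1 hb
  obtain ⟨hF', hne, hfv, hfu⟩ := fricke (M' := MP s) hF hMM rfl
  have hsgn := quarter_sign (M' := MP s) hF hMM rfl
  have h4g : 4 * (2 * w0 s) ∈ MP s := mem_MP.2 ⟨1, 0, by push_cast; ring⟩
  obtain ⟨hF2, hz2, hk2, hv2⟩ := same_quarter hF' h4g (bf_Ch hb)
  have hw0 : 8 * w0 s ≠ 0 := by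
    intro h0
    have h1 := hF.nmem
    apply h1
    have h2 : 16 * w0 s = 0 := by linear_combination 2 * h0
    rw [h2]
    exact zero_mem _
  obtain ⟨s1, s2, s3⟩ := f_smul hFm hw0
  rw [bf_lat hb hS] at s1 s2 s3
  obtain ⟨o1, o2, o3⟩ := f_odd hF2 (d := -(4 * k + 3 : ℕ)) (w' := 8 * w0 s * w0 s)
    (by
      refine Odd.neg ?_
      exact ⟨2 * k + 1, by push_cast; ring⟩)
    (by
      refine mem_MP.2 ⟨k + 1, 0, ?_⟩
      have h5 : w0 s = (1 + algebraMap K ℂ s) / 8 := rfl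
      rw [h5]
      push_cast
      linear_combination (1 / 8 : ℂ) * hsq - (1 / 8 : ℂ) * hkC)
  have he8 : ((e8 (-(4 * k + 3 : ℕ)) : ℤ) : ℂ) ^ 2 = 1 := by
    unfold e8
    split_ifs <;> norm_num
  have hV : Vc s (mI S a) = fv (MP s) (1 / 4 + 2 * w0 s) := by
    show fv (MM s (mI S a)) (w0 s) = _
    rw [← s3, o3]
  have hU : Uc s (mI S a) = fu (MP s) (1 / 4) := by
    show 2 / fz (MM s (mI S a)) (w0 s) ^ 2 - 1 = 2 / fz (MP s) (1 / 4) ^ 2 - 1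
    rw [← s1, o1, hz2, mul_pow, he8, one_mul]
  have hVm : Vm s 1 ^ 2 = -Vc s 1 ^ 2 := (qm hb bf_one).2.2
  have hV1 : Vc s 1 = fv (MM s 1) (w0 s) := rfl
  have hU1 : Uc s 1 = fu (MM s 1) (w0 s) := rfl
  have hVm1 : Vm s 1 = fv (MM s 1) (w0 s - 1 / 4) := rfl
  have hVne : Vc s 1 ≠ 0 := by
    intro h
    have h1 := fvz_sq hF
    rw [← hV1, h, zero_mul] at h1
    apply fk_ne hF
    have h4 : (2 : ℂ) * fk (MM s 1) (w0 s) = 0 := by
      rw [← h1]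
      ring
    rcases mul_eq_zero.1 h4 with h5 | h5
    · exact absurd h5 two_ne_zero
    · exact h5
  have hUV : Uc s 1 ^ 2 = 1 - Vc s 1 ^ 4 := by
    have h1 := fvz_sq hF
    have h2 := fz_sq hF
    have h3 := fz_ne hF
    rw [← hV1] at h1
    have h6 : Uc s 1 = 2 / fz (MM s 1) (w0 s) ^ 2 - 1 := rfl
    rw [h6]
    field_simp
    have h7 : fk (MM s 1) (w0 s) ^ 2 = fz (MM s 1) (w0 s) ^ 2 - 1 := by linear_combination -h2
    have h8 : (Vc s 1 * fz (MM s 1) (w0 s)) ^ 4 = 4 * (fz (MM s 1) (w0 s) ^ 2 - 1) := by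
      rw [← h7]
      linear_combination ((Vc s 1 * fz (MM s 1) (w0 s)) ^ 2 + 2 * fk (MM s 1) (w0 s)) * h1
    linear_combination h8
  rw [← hV1, ← hU1] at hfv
  rw [← hV1] at hfu hne
  rw [← hV1, ← hV, ← hVm1, hfv] at hsgn
  rw [← hV, hfv] at hv2
  rw [hU, hfu]
  generalize Vc s (mI S a) = W at *
  generalize Vc s 1 = V at *
  generalize Uc s 1 = U at *
  generalize Vm s 1 = Y at *
  constructor
  · rw [hv2]
    field_simp
    linear_combination -hUV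
  · have h1 : Y * W = -(V * U / (1 + V ^ 2)) := by
      apply mul_left_cancel₀ hVne
      have h2 : V * (Y * W) = Y * (W * V) := by ring
      rw [h2, hsgn]
      have h3 : Y * (Y * (U / (1 + V ^ 2))) = Y ^ 2 * (U / (1 + V ^ 2)) := by ring
      rw [h3, hVm]
      ring
    have h2 : -(2 * Y * W) = -2 * (Y * W) := by ring
    rw [h2, h1]
    ring

end Pool.Agent.Work.MP_8efaaa_nt.N5
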