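import Mathlib
import Pool.Agent.Work.MP_8efaaa_nt.R.CInt
import Pool.Agent.Work.MP_8efaaa_nt.N5.Defs
import Pool.Agent.Work.MP_8efaaa_nt.N5.BQm

/-!
# N5/BTr (S-M): `Vm` and the elements `x + 4 y s`

PROOF. As `tr_one` (R/CTr.lean) for the point `w0 - 1/4` instead of `w0`: `MM s (span {δ} * c) = δ⁻¹ • (...)`, `f_smul` with `m = δ⁻¹`, and then
`f_odd`: `δ (w0 - 1/4) - (x - 4 y)(w0 - 1/4) ∈ ℤ ⊆ M`, since `w0 = (1 + s)/8`, `s = 8 w0 - 1`, `δ w0 ≡ (x + 4 y) w0` modulo `ℤ` (as in `tr_one`),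
`δ / 4 = x / 4 + y s = x/4 + 8 y w0 - y`; `x - 4 y` is odd. Only the value of `fv` is needed.
-/

set_option autoImplicit false

namespace Pool.Agent.Work.MP_8efaaa_nt.N5

open NumberField Pool.Agent.Work.CM Pool.Agent.Work.MP_8efaaa_nt.R
open scoped Pointwise

variable {K : Type*} [Field K] [NumberField K] [Algebra K ℂ] {a : ℕ} {s : K}

theorem vm_tr (hb : Base5 K a s) {c : Ideal (𝓞 K)} (hc : OddI c) {x y : ℤ} (hx : Odd x) {δ : 𝓞 K}
    (hδ : algebraMap (𝓞 K) K δ = x + 4 * y * s) : Vm s (Ideal.span {δ} * c) = Vm s c := by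
  have hodd : Odd (x + 4 * y) := by
    obtain ⟨k, hk⟩ := hx
    exact ⟨k + 2 * y, by rw [hk]; ring⟩
  have hodd' : Odd (x - 4 * y) := by
    obtain ⟨k, hk⟩ := hx
    exact ⟨k - 2 * y, by rw [hk]; ring⟩
  have hδ1 : algebraMap (𝓞 K) K δ = (x : K) + ((4 * y : ℤ) : K) * s := by
    rw [hδ]
    push_cast
    ring
  have hO : OddI (Ideal.span {δ}) := (oddI_span hb hδ1).2 hodd
  have hδ0 : δ ≠ 0 := by
    rintro rfl
    unfold OddI at hO
    rw [Ideal.span_singleton_eq_bot.2 rfl, Ideal.absNorm_bot] at hO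
    exact absurd hO (by decide)
  have hd : em δ ≠ 0 := by
    intro h
    apply hδ0
    have h1 : algebraMap (𝓞 K) K δ = 0 := (map_eq_zero (algebraMap K ℂ)).1 h
    exact (FaithfulSMul.algebraMap_eq_zero_iff (𝓞 K) K).1 h1
  have hc' : OddI (Ideal.span {δ} * c) := oddI_mul'.2 ⟨hO, hc⟩
  have h3 := (f_smul (fr_m hb hc') hd).2.2
  have h4 : em δ • MM s (Ideal.span {δ} * c) = MM s c := by
    rw [MM_span s hδ0, smul_inv_smul₀ hd]
    exact order_eq hb c (j := 3) (by norm_num) (p := x) (q := y) (by rw [hδ]; norm_num) hO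
  rw [h4] at h3
  have hem : em δ = x + 4 * y * algebraMap K ℂ s := by
    show algebraMap K ℂ (algebraMap (𝓞 K) K δ) = _
    rw [hδ, map_add, map_intCast, map_mul, map_mul, map_ofNat, map_intCast]
  have hsq : algebraMap K ℂ s ^ 2 = -(a : ℂ) := by
    rw [← map_pow, hb.sq, map_neg, map_natCast]
  obtain ⟨k, hk⟩ : ∃ k : ℕ, a + 1 = 2 * k := ⟨(a + 1) / 2, by have := hb.mod; omega⟩
  have hkC : (a : ℂ) + 1 = 2 * k := by exact_mod_cast hk
  have hw : em δ * (w0 s - 1 / 4) - ((x - 4 * y : ℤ) : ℂ) * (w0 s - 1 / 4) ∈ MM s c := by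
    have h1 : em δ * (w0 s - 1 / 4) - ((x - 4 * y : ℤ) : ℂ) * (w0 s - 1 / 4) =
        ((-(y * k) : ℤ) : ℂ) := by
      rw [hem]
      unfold w0
      push_cast
      linear_combination (y : ℂ) / 2 * hsq - (y : ℂ) / 2 * hkC
    rw [h1, MM_eq]
    exact Submodule.mem_sup_left (mem_Lk.2 ⟨0, -(y * k), by push_cast; ring⟩)
  exact h3.symm.trans (f_odd (fr_m hb hc) hodd' hw).2.2

end Pool.Agent.Work.MP_8efaaa_nt.N5
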