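import Mathlib
import Pool.Agent.Work.MP_8efaaa_nt.N5.Defs
import Pool.Agent.Work.MP_8efaaa_nt.N5.BQm
import Pool.Agent.Work.MP_8efaaa_nt.N5.BFrk
import Pool.Agent.Work.MP_8efaaa_nt.N5.CAll

/-!
# N5/CSgn (M): the sign of `vm`, and the Fricke involution for all ideals

PROOF. All relations between values can be checked in `ℂ` (`algebraMap F ℂ` is injective) or are images of relations under automorphisms of `F`.
`i0 := -vm 1 / v 1` has square `-1` (`qm`), `ζ ^ 2` too: so `ζ ^ 2 = i0` or `-i0`; put `ζ' = ζ` or `ζ' = ζ ^ 7` (`(ζ ^ 7) ^ 2 = -ζ ^ 2`). `ICtx` with `ζ'`: clear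
(`DCtx` asks only `ζ ^ 4 = -1`). For an odd `c` take `σ` from `all_act` (for the ideal `c`): `vm c = σ (vm 1) = σ (-ζ'^2 v 1) = -σ (ζ'^2) v c`, and `σ (ζ'^2) =
ζ'^(2 N c)`, which is `ζ'^2` or `-ζ'^2` for `N c = 1, 3 (mod 4)`. Apply the same `σ` to the two relations of `frk_one` (in `F`: `v (mI)^2 (1 + v 1^2) = -(1 - v 1^2)`,
`u (mI) u 1 = 2 ζ'^2 v 1 v (mI)`, where `u c = 2 / z c ^ 2 - 1`): this gives `fr1`, `fr2` for `N c = 1 (mod 4)` (`c * mI = mI * c`).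
-/

set_option autoImplicit false

namespace Pool.Agent.Work.MP_8efaaa_nt.N5

open NumberField Pool.Agent.Work.CM Pool.Agent.Work.MP_8efaaa_nt.R

universe u

variable {K : Type u} {F : Type*} [Field K] [NumberField K] [Algebra K ℂ] [Field F] [NumberField F]
  [Algebra K F] [Algebra F ℂ] [IsScalarTower K F ℂ] [IsGalois K F] {a d : ℕ} {s : K} {S : 𝓞 K}
  {ζ w : F} {z k v vm : Ideal (𝓞 K) → F}

theorem exists_sgn (hb : Base5 K a s) (hS : algebraMap (𝓞 K) K S = s)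
    (h : ICtx K F s d ζ w z k v vm) (hd : d ≠ 0) : ∃ ζ' : F, ICtx K F s d ζ' w z k v vm ∧
      (∀ c, Ideal.absNorm c % 4 = 1 → vm c = -(ζ' ^ 2 * v c)) ∧
      (∀ c, Ideal.absNorm c % 4 = 3 → vm c = ζ' ^ 2 * v c) ∧
      (∀ c, Ideal.absNorm c % 4 = 1 → v (mI S a * c) ^ 2 * (1 + v c ^ 2) = -(1 - v c ^ 2)) ∧
      ∀ c, Ideal.absNorm c % 4 = 1 → (2 / z (mI S a * c) ^ 2 - 1) * (2 / z c ^ 2 - 1) =
        2 * ζ' ^ 2 * v c * v (mI S a * c) := by
  have inj : Function.Injective (algebraMap F ℂ) := (algebraMap F ℂ).injective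
  have ho1 : OddI (1 : Ideal (𝓞 K)) := oddI_one
  have hoM : OddI (mI S a) := by
    unfold OddI
    rw [norm_mI hb hS]
    have := hb.mod
    exact Nat.odd_iff.2 (by omega)
  have hq : vm 1 ^ 2 = -v 1 ^ 2 := by
    apply inj
    rw [map_pow, map_neg, map_pow, h.hvm 1 ho1, h.dc.hv 1 ho1]
    exact (qm hb ho1).2.2
  obtain ⟨ζ', hz4, hz1⟩ : ∃ ζ' : F, ζ' ^ 4 = -1 ∧ vm 1 = -(ζ' ^ 2 * v 1) := by
    have h4 := h.dc.z8
    have h5 : (vm 1 - ζ ^ 2 * v 1) * (vm 1 + ζ ^ 2 * v 1) = 0 := by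
      linear_combination hq - v 1 ^ 2 * h4
    rcases mul_eq_zero.1 h5 with h6 | h6
    · refine ⟨ζ ^ 7, ?_, ?_⟩
      · rw [← pow_mul, show 7 * 4 = 4 * 7 by norm_num, pow_mul, h4]
        norm_num
      · have h7 : (ζ ^ 7) ^ 2 = -ζ ^ 2 := by
          rw [← pow_mul, show 7 * 2 = 4 * 3 + 2 by norm_num, pow_add, pow_mul, h4]
          ring
        rw [h7]
        linear_combination h6
    · exact ⟨ζ, h4, by linear_combination h6⟩
  have h' : ICtx K F s d ζ' w z k v vm :=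
    ⟨⟨hz4, h.dc.hz, h.dc.hk, h.dc.hv, h.dc.fin⟩, h.hvm, h.hw, h.hwr⟩
  have hp1 : ∀ n : ℕ, n % 4 = 1 → (ζ' ^ n) ^ 2 = ζ' ^ 2 := by
    intro n hn
    rw [← pow_mul, show n * 2 = 4 * (2 * (n / 4)) + 2 by omega, pow_add, pow_mul, hz4, pow_mul]
    norm_num
  have hp3 : ∀ n : ℕ, n % 4 = 3 → (ζ' ^ n) ^ 2 = -ζ' ^ 2 := by
    intro n hn
    rw [← pow_mul, show n * 2 = 4 * (2 * (n / 4) + 1) + 2 by omega, pow_add, pow_mul, hz4,
      pow_succ, pow_mul]
    norm_num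
  have hvm : ∀ c, OddI c → vm c = -((ζ' ^ Ideal.absNorm c) ^ 2 * v c) := by
    intro c hc
    obtain ⟨σ, s1, s2, s3⟩ := all_act hb h' hd hc
    have e1 := s3 1 ho1
    have e2 := (s2 1 ho1).2.2
    rw [mul_one] at e1 e2
    rw [← e1, hz1, map_neg, map_mul, map_pow, s1, e2]
  have F1 : v (mI S a) ^ 2 * (1 + v 1 ^ 2) = -(1 - v 1 ^ 2) := by
    apply inj
    simp only [map_mul, map_pow, map_add, map_sub, map_neg, map_one]
    rw [h.dc.hv 1 ho1, h.dc.hv _ hoM]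
    exact (frk_one hb hS).1
  have F2 : (2 / z (mI S a) ^ 2 - 1) * (2 / z 1 ^ 2 - 1) = -(2 * vm 1 * v (mI S a)) := by
    apply inj
    simp only [map_mul, map_pow, map_sub, map_neg, map_one, map_div₀, map_ofNat]
    rw [h.dc.hv _ hoM, h.dc.hz _ hoM, h.dc.hz 1 ho1, h.hvm 1 ho1]
    exact (frk_one hb hS).2
  refine ⟨ζ', h', ?_, ?_, ?_, ?_⟩
  · intro c hc
    rw [hvm c (oddI_of_one hc), hp1 _ hc]
  · intro c hc
    have hco : OddI c := Nat.odd_iff.2 (by omega)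
    rw [hvm c hco, hp3 _ hc]
    ring
  · intro c hc
    obtain ⟨σ, s1, s2, s3⟩ := all_act hb h' hd (oddI_of_one hc)
    have e2 := (s2 1 ho1).2.2
    have e3 := (s2 _ hoM).2.2
    rw [mul_one] at e2
    rw [mul_comm c] at e3
    have := congrArg σ F1
    simp only [map_mul, map_pow, map_add, map_sub, map_neg, map_one] at this
    rw [e2, e3] at this
    exact this
  · intro c hc
    obtain ⟨σ, s1, s2, s3⟩ := all_act hb h' hd (oddI_of_one hc)
    have e2 := (s2 1 ho1).2.2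
    have e3 := (s2 _ hoM).2.2
    have z2 := (s2 1 ho1).1
    have z3 := (s2 _ hoM).1
    rw [mul_one] at e2 z2
    rw [mul_comm c] at e3 z3
    have F3 : (2 / z (mI S a) ^ 2 - 1) * (2 / z 1 ^ 2 - 1) =
        2 * ζ' ^ 2 * v 1 * v (mI S a) := by
      rw [F2, hz1]; ring
    have := congrArg σ F3
    simp only [map_mul, map_pow, map_sub, map_one, map_div₀, map_ofNat] at this
    rw [e2, e3, z2, z3, s1, hp1 _ hc] at this
    exact this

end Pool.Agent.Work.MP_8efaaa_nt.N5
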