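import Mathlib
import Pool.Agent.Work.MP_8efaaa_nt.R.FSum
import Pool.Agent.Work.MP_8efaaa_nt.N5.Defs

/-!
# N5/EKl (S-M): classes of odd ideals, comparison of sums

PROOF of `sum_compare`: as in `exists_sum` (R/FSum.lean): `equiv_odd` for every `j` gives `p j`, `q j` with `(p j) b j = (q j) b' j`; `shift` for both sides
(`N b j = N b' j = 1 (mod 4)`): `PP (b j) + tt (p j) = PP (b' j) + tt (q j)`; `p = ∏ p j`, `q = ∏ q j`, `tt_prod`.
-/

set_option autoImplicit false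

namespace Pool.Agent.Work.MP_8efaaa_nt.N5

open NumberField Pool.Agent.Work.MP_8efaaa_nt.R
open scoped Classical nonZeroDivisors

noncomputable section

universe u v

variable {K : Type u} {F : Type v} [Field K] [NumberField K] [Field F] [Algebra K F] [CharZero F]
  {a : ℕ} {s : K} {ζ : F} {X Y : Ideal (𝓞 K) → F}

/-- the class of an ideal (`1` for the zero ideal) -/
def kl (c : Ideal (𝓞 K)) : ClassGroup (𝓞 K) :=
  if h : c ∈ (Ideal (𝓞 K))⁰ then ClassGroup.mk0 ⟨c, h⟩ else 1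

theorem kl_mk0 {c : Ideal (𝓞 K)} (h : c ∈ (Ideal (𝓞 K))⁰) : kl c = ClassGroup.mk0 ⟨c, h⟩ := by
  exact dif_pos h

theorem kl_mul {b c : Ideal (𝓞 K)} (hb : OddI b) (hc : OddI c) : kl (b * c) = kl b * kl c := by
  have hb0 := ne_bot_of_odd hb
  have hc0 := ne_bot_of_odd hc
  rw [kl_mk0 hb0, kl_mk0 hc0, kl_mk0 (mul_mem hb0 hc0), ← map_mul]
  rfl

theorem kl_one : kl (1 : Ideal (𝓞 K)) = 1 := by
  rw [kl_mk0 (one_mem _)]
  exact map_one ClassGroup.mk0

theorem kl_pow {b : Ideal (𝓞 K)} (hb : OddI b) (n : ℕ) : kl (b ^ n) = kl b ^ n := by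
  induction n with
  | zero => rw [pow_zero, pow_zero, kl_one]
  | succ n ih =>
    have h1 : OddI (b ^ n) := by
      unfold OddI
      rw [map_pow]
      exact Odd.pow hb
    rw [pow_succ, pow_succ, kl_mul h1 hb, ih]

theorem kl_eq_one {b : Ideal (𝓞 K)} (hb : OddI b) :
    kl b = 1 ↔ ∃ δ : 𝓞 K, b = Ideal.span {δ} := by
  rw [kl_mk0 (ne_bot_of_odd hb), ClassGroup.mk0_eq_one_iff]
  constructor
  · intro h
    obtain ⟨δ, hδ⟩ := h.principal
    exact ⟨δ, hδ⟩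
  · rintro ⟨δ, hδ⟩
    exact ⟨⟨δ, hδ⟩⟩

/-- the class of the conjugate is the inverse -/
theorem kl_inv {b c : Ideal (𝓞 K)} (hb : OddI b) (hc : OddI c) {δ : 𝓞 K}
    (h : b * c = Ideal.span {δ}) : kl c = (kl b)⁻¹ := by
  have hbc : OddI (b * c) := oddI_mul'.2 ⟨hb, hc⟩
  have h1 := (kl_eq_one hbc).2 ⟨δ, h⟩
  rw [kl_mul hb hc] at h1
  exact eq_inv_of_mul_eq_one_right h1

theorem sum_compare (hb : Base5 K a s) (hG : GDat K F s ζ X Y) {J : Type*} [Fintype J]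
    (b b' : J → Ideal (𝓞 K)) (h1 : ∀ j, Ideal.absNorm (b j) % 4 = 1)
    (h2 : ∀ j, Ideal.absNorm (b' j) % 4 = 1) (h3 : ∀ j, kl (b j) = kl (b' j)) :
    ∃ p q : 𝓞 K, OddI (Ideal.span {p}) ∧ OddI (Ideal.span {q}) ∧
      Ideal.span {p} * ∏ j, b j = Ideal.span {q} * ∏ j, b' j ∧
      ∑ j, PP hG (b j) = ∑ j, PP hG (b' j) + tt hG (Ideal.span {q}) - tt hG (Ideal.span {p}) := by
  have key : ∀ j : J, ∃ p q : 𝓞 K, OddI (Ideal.span {p}) ∧ OddI (Ideal.span {q}) ∧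
      Ideal.span {p} * b j = Ideal.span {q} * b' j := by
    intro j
    have o1 := oddI_of_one (h1 j)
    have o2 := oddI_of_one (h2 j)
    have h4 := h3 j
    rw [kl_mk0 (ne_bot_of_odd o1), kl_mk0 (ne_bot_of_odd o2)] at h4
    exact equiv_odd hb (b := ⟨b j, ne_bot_of_odd o1⟩) (b' := ⟨b' j, ne_bot_of_odd o2⟩) o1 o2 h4
  choose p q hp hq hpq using key
  have h5 : ∀ j, PP hG (b j) = PP hG (b' j) + tt hG (Ideal.span {q j}) -
      tt hG (Ideal.span {p j}) := by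
    intro j
    have e1 := shift hG (h1 j) (hp j)
    have e2 := shift hG (h2 j) (hq j)
    rw [hpq, e2] at e1
    rw [e1, add_sub_cancel_right]
  obtain ⟨h6, h7⟩ := tt_prod hb hG Finset.univ p hp
  obtain ⟨h8, h9⟩ := tt_prod hb hG Finset.univ q hq
  refine ⟨∏ j, p j, ∏ j, q j, h6, h8, ?_, ?_⟩
  · rw [← Ideal.prod_span_singleton, ← Ideal.prod_span_singleton, ← Finset.prod_mul_distrib,
      ← Finset.prod_mul_distrib]
    exact Finset.prod_congr rfl fun j _ => hpq j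
  · rw [Finset.sum_congr rfl (fun j _ => h5 j), Finset.sum_sub_distrib, Finset.sum_add_distrib,
      h7, h9]

end

end Pool.Agent.Work.MP_8efaaa_nt.N5
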