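import Mathlib
import Pool.Agent.Work.MP_8efaaa_nt.N5.EKl
import Pool.Agent.Work.MP_8efaaa_nt.N5.CDat
import Pool.Agent.Work.MP_8efaaa_nt.N5.DFix

/-!
# N5/EIo (M): the action of the inertia element on the points

PROOF. `σ := ι ∘ κ` fixes `s`, so it is an automorphism over `K` (`K` is generated by `s` over `ℚ`, `coords5`/`finrank`): `act3` gives `b`: `σ ζ = ι (ζ^7) = ζ^7 = ζ^(N b)`, so `N b = 7 (mod 8)`;
`σ w = ι w = -w`, so `jacobiSym d (N b) = -1` (`w ≠ 0`). For odd `c`: `κ (X (cj c)) = -X c` (`cj (cj c) = c`: `norm_cj`), so `ι (X c) = -ι κ (X (cj c)) = -X (b * cj c)`.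
`N c = 1 (mod 4)`: `κ (Y (cj c)) = -ζ^2 Y c`, `Y c = ζ^2 κ (Y (cj c)) = κ (-ζ^2 Y (cj c))` (`κ (ζ^2) = ζ^14 = -ζ^2`), so `ι (Y c) = σ (-ζ^2 Y (cj c)) = -ζ^14 Y (b * cj c) = ζ^2 Y (b * cj c)`: this is
`I (PP (b * cj c))`. `N c = 3`: `κ (Y (cj c)) = ζ^2 Y c`, so `ι (Y c) = -ζ^2 Y (b * cj c)`: `-I (PP (b * cj c))`.
-/

set_option autoImplicit false

namespace Pool.Agent.Work.MP_8efaaa_nt.N5

open NumberField Pool.Agent.Work.MP_8efaaa_nt.R
open scoped Classical

theorem iota_pt {K : Type*} {F : Type*} [Field K] [NumberField K] [Field F] [NumberField F]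
    [Algebra K F] {a d : ℕ} {s : K} (hb : Base5 K a s) {S : 𝓞 K}
    (hS : algebraMap (𝓞 K) K S = s) {τ : 𝓞 K ≃+* 𝓞 K} (hτ : τ S = -S) {ζ w : F}
    {X Y V U : Ideal (𝓞 K) → F} {κ : F ≃ₐ[ℚ] F} (h : IDat K F a d s S τ ζ w X Y V U κ)
    (hd : d ≠ 0) {I : (cQ F).Point →+ (cQ F).Point} (hI : CMI (ζ ^ 2) I) {ι : F ≃ₐ[ℚ] F}
    (h1 : ι (algebraMap K F s) = -algebraMap K F s) (h2 : ι ζ = ζ) (h3 : ι w = -w) :
    ∃ b : Ideal (𝓞 K), Ideal.absNorm b % 8 = 7 ∧ Nat.Coprime (Ideal.absNorm b) a ∧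
      jacobiSym d (Ideal.absNorm b) = -1 ∧
      (∀ c, Ideal.absNorm c % 4 = 1 → gal ι (PP h.gd c) = I (PP h.gd (b * cj τ c))) ∧
      ∀ c, Ideal.absNorm c % 4 = 3 → gal ι (PP h.gd c) = -I (PP h.gd (b * cj τ c)) := by
  have hz := h.gd.z8
  have hζ0 : ζ ≠ 0 := by
    rintro rfl
    rw [zero_pow (by norm_num)] at hz
    norm_num at hz
  have hfix : ∀ x : K, ι (κ (algebraMap K F x)) = algebraMap K F x := by
    have hint : ∀ y : 𝓞 K, ι (κ (algebraMap K F (algebraMap (𝓞 K) K y))) =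
        algebraMap K F (algebraMap (𝓞 K) K y) := by
      intro y
      obtain ⟨m, n, hmn⟩ := coords5 hb y
      have e1 : algebraMap K F ((m : K) + n * s) = (m : F) + n * algebraMap K F s := by
        rw [map_add, map_mul, map_intCast, map_intCast]
      rw [hmn, e1, map_add, map_mul, h.cs, map_intCast, map_intCast, map_add, map_mul, map_neg, h1,
        map_intCast, map_intCast, neg_neg]
    intro x
    obtain ⟨y, z, -, hyz⟩ := IsFractionRing.div_surjective (A := 𝓞 K) x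
    rw [← hyz, map_div₀, map_div₀, map_div₀, hint, hint]
  let σ : F ≃ₐ[K] F := AlgEquiv.ofRingEquiv (f := (κ.trans ι).toRingEquiv) hfix
  have hσ : ∀ x, σ x = ι (κ x) := fun x => rfl
  obtain ⟨b, hbo, hbc, hbz, hbw, hbA⟩ := h.act3 σ
  have h8 : Ideal.absNorm b % 8 = 7 := by
    rw [hσ, h.cz, map_pow, h2, pow_mod_zeta hz (Ideal.absNorm b)] at hbz
    have ho : Ideal.absNorm b % 2 = 1 := Nat.odd_iff.1 hbo
    have hr : Ideal.absNorm b % 8 = 1 ∨ Ideal.absNorm b % 8 = 3 ∨ Ideal.absNorm b % 8 = 5 ∨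
        Ideal.absNorm b % 8 = 7 := by omega
    have hne : ζ ^ 2 ≠ 1 ∧ ζ ^ 2 ≠ -1 := by
      constructor
      · intro hc
        have : ζ ^ 4 = 1 := by
          calc ζ ^ 4 = (ζ ^ 2) ^ 2 := by ring
            _ = 1 := by rw [hc, one_pow]
        rw [this] at hz
        norm_num at hz
      · intro hc
        have : ζ ^ 4 = 1 := by
          calc ζ ^ 4 = (ζ ^ 2) ^ 2 := by ring
            _ = 1 := by rw [hc]; ring
        rw [this] at hz
        norm_num at hz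
    rcases hr with hr | hr | hr | hr
    · exfalso
      rw [hr] at hbz
      have h5 : ζ * (ζ ^ 2 + 1) = 0 := by linear_combination ζ ^ 3 * hz - hbz
      rcases mul_eq_zero.mp h5 with h6 | h6
      · exact hζ0 h6
      · exact hne.2 (by linear_combination h6)
    · exfalso
      rw [hr] at hbz
      have h5 : 2 * ζ ^ 3 = 0 := by linear_combination ζ ^ 3 * hz - hbz
      rcases mul_eq_zero.mp h5 with h6 | h6
      · norm_num at h6
      · exact hζ0 (pow_eq_zero_iff (by norm_num) |>.mp h6)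
    · exfalso
      rw [hr] at hbz
      have h5 : ζ * (ζ ^ 2 - 1) = 0 := by linear_combination ζ ^ 3 * hz - ζ * hz - hbz
      rcases mul_eq_zero.mp h5 with h6 | h6
      · exact hζ0 h6
      · exact hne.1 (by linear_combination h6)
    · exact hr
  have hw0 : w ≠ 0 := by
    rintro rfl
    have := h.hw
    rw [zero_pow two_ne_zero] at this
    exact (Nat.cast_ne_zero.mpr hd) this.symm
  have hj : jacobiSym d (Ideal.absNorm b) = -1 := by
    rw [hσ, h.cw, h3] at hbw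
    have h5 : (((jacobiSym d (Ideal.absNorm b) : ℤ) : F) + 1) * w = 0 := by
      linear_combination -hbw
    rcases mul_eq_zero.mp h5 with h6 | h6
    · have h7 : ((jacobiSym d (Ideal.absNorm b) : ℤ) : F) = ((-1 : ℤ) : F) := by
        push_cast
        linear_combination h6
      exact_mod_cast h7
    · exact absurd h6 hw0
  have hcj : ∀ c, OddI c → OddI (cj τ c) := by
    intro c hc
    have := (norm_cj hb hS hτ c).1
    unfold OddI at hc ⊢
    rw [this]
    exact hc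
  have hcc : ∀ c, cj τ (cj τ c) = c := fun c => (norm_cj hb hS hτ c).2.2
  have hX : ∀ c, OddI c → ι (X c) = -X (b * cj τ c) := by
    intro c hc
    have e1 := h.cX (cj τ c) (hcj c hc)
    rw [hcc] at e1
    have e2 := (hbA (cj τ c) (hcj c hc)).1
    rw [hσ, e1, map_neg] at e2
    rw [← e2, neg_neg]
  have hI1 : ∀ (x y : F) (hxy : y ^ 2 = x ^ 3 - x), I (pt x y hxy) = pt (-x) (ζ ^ 2 * y)
      (hI.i_eq hxy) := fun x y hxy => hI.pt hxy
  refine ⟨b, h8, hbc, hj, fun c hc => ?_, fun c hc => ?_⟩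
  · have hco : OddI c := Nat.odd_iff.2 (by omega)
    have e0 := (norm_cj hb hS hτ c).1
    have e1 := h.cY1 (cj τ c) (by rw [e0]; exact hc)
    rw [hcc] at e1
    have e2 := (hbA (cj τ c) (hcj c hco)).2
    rw [hσ, e1, map_neg, map_mul, map_pow, h2] at e2
    have e3 : ι (Y c) = ζ ^ 2 * Y (b * cj τ c) := by
      rw [← e2]
      linear_combination ι (Y c) * hz
    have hbco : OddI (b * cj τ c) := oddI_mul'.2 ⟨hbo, hcj c hco⟩
    rw [PP_eq h.gd hco, PP_eq h.gd hbco, gal_pt, hI1, pt_inj]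
    exact ⟨hX c hco, e3⟩
  · have hco : OddI c := Nat.odd_iff.2 (by omega)
    have e0 := (norm_cj hb hS hτ c).1
    have e1 := h.cY3 (cj τ c) (by rw [e0]; exact hc)
    rw [hcc] at e1
    have e2 := (hbA (cj τ c) (hcj c hco)).2
    rw [hσ, e1, map_mul, map_pow, h2] at e2
    have e3 : ι (Y c) = ζ ^ 2 * (ζ ^ 2 * (ζ ^ 2 * Y (b * cj τ c))) := by
      rw [← e2]
      linear_combination (ζ ^ 4 * -1 + 1) * ι (Y c) * hz
    have hbco : OddI (b * cj τ c) := oddI_mul'.2 ⟨hbo, hcj c hco⟩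
    rw [← hI.sq, PP_eq h.gd hco, PP_eq h.gd hbco, gal_pt, hI1, hI1, hI1, pt_inj]
    refine ⟨?_, e3⟩
    rw [hX c hco, neg_neg]

end Pool.Agent.Work.MP_8efaaa_nt.N5
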