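import Mathlib
import Pool.Agent.Work.MP_8efaaa_nt.R.RInt
import Pool.Agent.Work.MP_8efaaa_nt.N5.Defs

/-!
# N5/DIn (M): an inertia element at a ramified prime

PROOF. `l` is odd, `l ∣ a`, so `l` is ramified in `K`: `S^2 = -a`. Let `L` be a prime ideal of `𝓞 F` above `l`. The inertia group `I` of `L` in `F ≃ₐ[ℚ] F` has order the
ramification index `e(L/l)` (`Ideal.card_inertia_eq_ramificationIdxIn`, Mathlib/NumberTheory/RamificationInertia/Galois.lean). If all elements of `I` fixed `s`, then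
`I` would be the inertia group of `L` in `F ≃ₐ[K] F`, of order `e(L/p)`, `p = L ∩ 𝓞 K`, but `e(L/l) = e(L/p) e(p/l)` and `e(p/l) = 2` (`(l) = p^2`: `Rf.rI_sq`, `rI_prime`
in Rf/Ram.lean). So some `ι ∈ I` moves `s`, `ι s = -s` (`s^2 = -a`). An alternative without ramification indices: with the `L`-adic valuation.
`2 ∉ L` since `l ∈ L` is odd.
-/

set_option autoImplicit false

namespace Pool.Agent.Work.MP_8efaaa_nt.N5

open NumberField Pool.Agent.Work.MP_8efaaa_nt.R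

private theorem din_sq {K : Type*} [Field K] [NumberField K] {a : ℕ} {S : 𝓞 K}
    (hq : Q5 K a S) {l : ℕ} (_hl : l.Prime) (hla : l ∣ a) {P : Ideal (𝓞 K)} (hP : P.IsPrime)
    (hlP : (l : 𝓞 K) ∈ P) :
    Ideal.map (algebraMap ℤ (𝓞 K)) (Ideal.span {(l : ℤ)}) ≤ P ^ 2 := by
  have haP : (a : 𝓞 K) ∈ P := by
    obtain ⟨c, rfl⟩ := hla
    push_cast
    exact P.mul_mem_right _ hlP
  have hSP : S ∈ P := by
    have h1 : S * S ∈ P := by
      rw [hq.sq]
      exact P.neg_mem haP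
    rcases hP.mem_or_mem h1 with h | h <;> exact h
  obtain ⟨c, hc⟩ := hla
  have hcop : IsCoprime (l : ℤ) (c : ℤ) := by
    rw [Nat.isCoprime_iff_coprime]
    have h1 : Squarefree (l * c) := hc ▸ hq.sf
    exact (Nat.squarefree_mul_iff.1 h1).1
  obtain ⟨u, v, huv⟩ := hcop
  have huv' : (u : 𝓞 K) * l + v * c = 1 := by
    exact_mod_cast congrArg (Int.cast : ℤ → 𝓞 K) huv
  have hl2 : (l : 𝓞 K) ∈ P ^ 2 := by
    have h1 : (l : 𝓞 K) = u * (l * l) + (-v) * (S * S) := by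
      have h2 : S * S = -((l : 𝓞 K) * c) := by
        rw [hq.sq, hc]
        push_cast
        ring
      rw [h2]
      linear_combination (-(l : 𝓞 K)) * huv'
    rw [h1, pow_two]
    exact Ideal.add_mem _ (Ideal.mul_mem_left _ _ (Ideal.mul_mem_mul hlP hlP))
      (Ideal.mul_mem_left _ _ (Ideal.mul_mem_mul hSP hSP))
  rw [Ideal.map_span, Set.image_singleton, Ideal.span_singleton_le_iff_mem]
  simpa using hl2

theorem exists_inert {K : Type*} {F : Type*} [Field K] [NumberField K] [Field F] [NumberField F]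
    [Algebra K F] [IsGalois ℚ F] {a : ℕ} {s : K} (hb : Base5 K a s) {l : ℕ} (hl : l.Prime)
    (hla : l ∣ a) : ∃ (ι : F ≃ₐ[ℚ] F) (L : Ideal (𝓞 F)), Inert ι L ∧ (l : 𝓞 F) ∈ L ∧
      ι (algebraMap K F s) = -algebraMap K F s := by
  classical
  have hKF : IsGalois K F := IsGalois.tower_top_of_isGalois ℚ K F
  obtain ⟨S, hS, hq⟩ := exists_Q5 hb
  have hlZ : Prime (l : ℤ) := Nat.prime_iff_prime_int.1 hl
  have hpZ : (Ideal.span {(l : ℤ)}).IsPrime := (Ideal.span_singleton_prime hlZ.ne_zero).2 hlZ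
  have hpZ0 : (Ideal.span {(l : ℤ)}) ≠ ⊥ := by
    rw [Ne, Ideal.span_singleton_eq_bot]
    exact hlZ.ne_zero
  obtain ⟨⟨L, hL1, hL2⟩⟩ :=
    (inferInstance : Nonempty ((Ideal.span {(l : ℤ)}).primesOver (𝓞 F)))
  have hLl : (l : 𝓞 F) ∈ L := by
    have h1 : (l : ℤ) ∈ Ideal.span {(l : ℤ)} := Ideal.mem_span_singleton_self _
    rw [hL2.over, Ideal.mem_comap] at h1
    simpa using h1
  have hLbot : L ≠ ⊥ := by
    rintro rfl
    rw [Ideal.mem_bot] at hLl
    exact hl.ne_zero (by exact_mod_cast hLl)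
  have hodd : l % 2 = 1 := by
    obtain ⟨c, hc⟩ := hla
    have h1 := hq.mod
    rcases Nat.mod_two_eq_zero_or_one l with h | h
    · exfalso
      have h2 : a % 2 = 0 := by
        rw [hc, Nat.mul_mod, h]
        simp
      omega
    · exact h
  have hL2' : (2 : 𝓞 F) ∉ L := by
    intro h2
    apply hL1.ne_top
    rw [Ideal.eq_top_iff_one]
    have h3 : (1 : 𝓞 F) = (l : 𝓞 F) - ((l / 2 : ℕ) : 𝓞 F) * 2 := by
      have h4 : l = (l / 2) * 2 + 1 := by omega
      have h5 : (l : 𝓞 F) = ((l / 2 : ℕ) : 𝓞 F) * 2 + 1 := by exact_mod_cast congrArg (Nat.cast : ℕ → 𝓞 F) h4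
      rw [h5]
      ring
    rw [h3]
    exact L.sub_mem hLl (L.mul_mem_left _ h2)
  by_contra hno
  have hfix : ∀ σ ∈ L.inertia (F ≃ₐ[ℚ] F), σ (algebraMap K F s) = algebraMap K F s := by
    intro σ hσ
    have hsq : (σ (algebraMap K F s)) ^ 2 = (algebraMap K F s) ^ 2 := by
      rw [← map_pow, ← map_pow, hb.sq]
      simp
    rcases sq_eq_sq_iff_eq_or_eq_neg.mp hsq with h | h
    · exact h
    · exfalso
      apply hno
      refine ⟨σ, L, ⟨hL1, hLbot, hL2', fun x => ⟨σ • x - x, hσ x, ?_⟩⟩, hLl, h⟩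
      rw [map_sub]
      rfl
  have hcomm : ∀ σ ∈ L.inertia (F ≃ₐ[ℚ] F), ∀ k : K,
      σ (algebraMap K F k) = algebraMap K F k := by
    intro σ hσ k
    obtain ⟨x, y, rfl⟩ :=
      Pool.Agent.Work.MP_787500_nt.Quad.exists_coords hb.dim hb.sq hq.pos k
    rw [map_add, map_mul, map_add, map_mul, hfix σ hσ]
    simp
  let toK : L.inertia (F ≃ₐ[ℚ] F) → L.inertia (F ≃ₐ[K] F) := fun σ =>
    ⟨AlgEquiv.ofRingEquiv (f := (σ.1 : F ≃ₐ[ℚ] F).toRingEquiv) (hcomm σ.1 σ.2), fun x => by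
      have h1 := σ.2 x
      exact h1⟩
  have hinj : Function.Injective toK := by
    intro σ τ h
    apply Subtype.ext
    apply AlgEquiv.ext
    intro x
    have h1 := congrArg (fun g => (g : F ≃ₐ[K] F) x) (congrArg Subtype.val h)
    exact h1
  have hle : Nat.card (L.inertia (F ≃ₐ[ℚ] F)) ≤ Nat.card (L.inertia (F ≃ₐ[K] F)) :=
    Nat.card_le_card_of_injective toK hinj
  have hP : (L.under (𝓞 K)).IsPrime := inferInstance
  have hlP : (l : 𝓞 K) ∈ L.under (𝓞 K) := by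
    rw [Ideal.mem_comap]
    simpa using hLl
  have hPo : (L.under (𝓞 K)).LiesOver (Ideal.span {(l : ℤ)}) := by
    constructor
    rw [hL2.over, Ideal.under_under]
  have e1 : Nat.card (L.inertia (F ≃ₐ[ℚ] F)) = L.ramificationIdx ℤ := by
    rw [Ideal.card_inertia_eq_ramificationIdxIn (Ideal.span {(l : ℤ)}) L,
      Ideal.ramificationIdxIn_eq_ramificationIdx (Ideal.span {(l : ℤ)}) L (F ≃ₐ[ℚ] F)]
  have e2 : Nat.card (L.inertia (F ≃ₐ[K] F)) = L.ramificationIdx (𝓞 K) := by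
    rw [Ideal.card_inertia_eq_ramificationIdxIn (L.under (𝓞 K)) L,
      Ideal.ramificationIdxIn_eq_ramificationIdx (L.under (𝓞 K)) L (F ≃ₐ[K] F)]
  have e3 : L.ramificationIdx ℤ = (L.under (𝓞 K)).ramificationIdx ℤ * L.ramificationIdx (𝓞 K) :=
    Ideal.ramificationIdx_tower _ _
  have e4 : (L.under (𝓞 K)).ramificationIdx ℤ ≠ 1 := by
    rw [← Ideal.ramificationIdx'_eq_ramificationIdx (Ideal.span {(l : ℤ)}) (L.under (𝓞 K)) hpZ0]
    rw [Ideal.ramificationIdx'_ne_one_iff]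
    · exact din_sq hq hl hla hP hlP
    · exact (din_sq hq hl hla hP hlP).trans (Ideal.pow_le_self two_ne_zero)
  have e5 : 0 < (L.under (𝓞 K)).ramificationIdx ℤ := Ideal.ramificationIdx_pos _ _
  have e6 : 0 < L.ramificationIdx (𝓞 K) := Ideal.ramificationIdx_pos _ _
  rw [e1, e2, e3] at hle
  have e7 : 2 ≤ (L.under (𝓞 K)).ramificationIdx ℤ := by omega
  nlinarith

end Pool.Agent.Work.MP_8efaaa_nt.N5
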