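import Mathlib
import Pool.Agent.Work.MP_8efaaa_nt.R.FCls
import Pool.Agent.Work.MP_8efaaa_nt.R.DMove
import Pool.Agent.Work.MP_8efaaa_nt.N5.EKl

/-!
# N5/EQt (M): the subgroup of index four

PROOF. For an odd ideal `c` prime to `a` the pair (`N c` modulo `4`, `jacobiSym d (N c)`) depends only on the class: if `kl b = kl c` then `b * cj c` is principal
(`c * cj c = (N c)`), generated by `x + y S` (`coords5`), `N b N c = x^2 + a y^2` is odd and prime to `a`; it is `1` modulo `4` (`norm_principal`) and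
`jacobiSym d (x^2 + a y^2) = jacobiSym (x^2 + a y^2) d = jacobiSym (x^2) d = 1` (quadratic reciprocity, the number is `1 (mod 4)`; `d ∣ a` odd, `x` prime to `d`). Every class
contains an odd ideal prime to `a` (`move` (R/DInt.lean) with `N = 2 a` for an odd ideal of the class: `L.prod` has norm prime to `N`, and `(m) L.prod = (δ) d`; or
`ClassGroup` standard). So `Cl → {±1} × {±1}` is a homomorphism, `S0` (first component) and `S` = kernel; it is surjective: `exists_three` and `e0`. So the orders are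
`h/2` and `h/4`. Squares are in the kernel. See `exists_half` (R/FCls.lean) for the same construction.
-/

set_option autoImplicit false

namespace Pool.Agent.Work.MP_8efaaa_nt.N5

open NumberField Pool.Agent.Work.MP_8efaaa_nt.R
open scoped nonZeroDivisors

variable {K : Type*} [Field K] [NumberField K] {a : ℕ} {s : K}

private theorem eqt_prod_coprime (L : List (Ideal (𝓞 K))) (N : ℕ)
    (h : ∀ q ∈ L, q.IsPrime ∧ (Ideal.absNorm q).Prime ∧ ¬ Ideal.absNorm q ∣ N) :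
    Nat.Coprime (Ideal.absNorm L.prod) N := by
  induction L with
  | nil => rw [List.prod_nil, map_one]; exact Nat.coprime_one_left N
  | cons q L ih =>
    rw [List.prod_cons, map_mul]
    have h1 := h q (by simp)
    exact Nat.Coprime.mul_left ((Nat.Prime.coprime_iff_not_dvd h1.2.1).2 h1.2.2)
      (ih fun q' hq' => h q' (by simp [hq']))

/-- moving an odd ideal away from `a` -/
private theorem eqt_move (hb : Base5 K a s) {b : Ideal (𝓞 K)} (h : OddI b) :
    ∃ c : Ideal (𝓞 K), OddI c ∧ Nat.Coprime (Ideal.absNorm c) a ∧ kl c = kl b ∧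
      (Ideal.absNorm b % 4 = 1 → Ideal.absNorm c % 4 = 1) := by
  have ha0 : a ≠ 0 := by
    have := hb.mod
    omega
  obtain ⟨L, m, x, y, δ, hm, hx, -, hδ, hL, he⟩ := mov_all hb h (N := a) ha0
  obtain ⟨S, hSs, hS⟩ := exists_Q5 hb
  have hδ' : δ = ((x : ℤ) : 𝓞 K) + ((8 * y : ℤ) : 𝓞 K) * S := by
    apply RingOfIntegers.ext
    change algebraMap (𝓞 K) K δ = algebraMap (𝓞 K) K (((x : ℤ) : 𝓞 K) + ((8 * y : ℤ) : 𝓞 K) * S)
    rw [hδ, map_add, map_mul, map_intCast, map_intCast, hSs]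
    push_cast
    ring
  have hoδ : OddI (Ideal.span {δ}) := by
    rw [hδ', hS.oddI_span]
    obtain ⟨k, hk⟩ := hx
    exact ⟨k + 4 * y, by rw [hk]; ring⟩
  have hom : OddI (Ideal.span {(m : 𝓞 K)}) := by
    have e : (m : 𝓞 K) = ((m : ℤ) : 𝓞 K) + ((0 : ℤ) : 𝓞 K) * S := by push_cast; ring
    rw [e, hS.oddI_span, add_zero]
    exact hm
  have hoL : OddI L.prod := by
    have h1 : OddI (Ideal.span {(m : 𝓞 K)} * L.prod) := by
      rw [he]
      exact hoδ.mul h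
    exact (oddI_mul'.1 h1).2
  refine ⟨L.prod, hoL, eqt_prod_coprime L a hL, ?_, fun h1 => ?_⟩
  · have h1 := congrArg kl he
    rw [kl_mul hom hoL, kl_mul hoδ h, (kl_eq_one hom).2 ⟨_, rfl⟩, (kl_eq_one hoδ).2 ⟨_, rfl⟩,
      one_mul, one_mul] at h1
    exact h1
  · have h2 := congrArg Ideal.absNorm he
    rw [map_mul, map_mul] at h2
    have h3 := norm_principal hb hom
    have h4 := norm_principal hb hoδ
    have h5 : (Ideal.absNorm (Ideal.span {(m : 𝓞 K)}) * Ideal.absNorm L.prod) % 4 =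
        Ideal.absNorm L.prod % 4 := by
      rw [Nat.mul_mod, h3, one_mul, Nat.mod_mod]
    have h6 : (Ideal.absNorm (Ideal.span {δ}) * Ideal.absNorm b) % 4 = 1 := by
      rw [Nat.mul_mod, h4, h1]
    rw [h2, h6] at h5
    exact h5.symm

private theorem eqt_rep (hb : Base5 K a s) (C : ClassGroup (𝓞 K)) :
    ∃ c : Ideal (𝓞 K), OddI c ∧ Nat.Coprime (Ideal.absNorm c) a ∧ kl c = C := by
  obtain ⟨b, hbo, hbC⟩ := exists_odd_rep hb C
  obtain ⟨c, h1, h2, h3, -⟩ := eqt_move hb hbo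
  exact ⟨c, h1, h2, by rw [h3, kl_mk0 b.2]; exact hbC⟩

/-- the symbol of the norm of a number -/
private theorem eqt_sym (hb : Base5 K a s) {d : ℕ} (hd : d ∣ a) {δ : 𝓞 K}
    (h1 : OddI (Ideal.span {δ})) (h2 : Nat.Coprime (Ideal.absNorm (Ideal.span {δ})) a) :
    jacobiSym d (Ideal.absNorm (Ideal.span {δ})) = 1 := by
  obtain ⟨S, hSs, hS⟩ := exists_Q5 hb
  obtain ⟨x, y, rfl⟩ := hS.coords δ
  have h3 := hS.norm_gen x y
  have h4 := norm_principal hb h1
  obtain ⟨n, hn⟩ : ∃ n : ℕ, n = Ideal.absNorm (Ideal.span {(x : 𝓞 K) + (y : 𝓞 K) * S}) := ⟨_, rfl⟩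
  rw [← hn] at h2 h3 h4 ⊢
  have hda : Odd d := by
    have ha : Odd a := Nat.odd_iff.2 (by have := hb.mod; omega)
    exact Odd.of_dvd_nat ha hd
  have hd0 : d ≠ 0 := by
    rintro rfl
    exact absurd hda (by decide)
  obtain ⟨t, ht⟩ := hd
  rw [jacobiSym.quadratic_reciprocity_one_mod_four' hda h4, h3]
  have h5 : (x ^ 2 + (a : ℤ) * y ^ 2) % (d : ℤ) = (x ^ 2) % (d : ℤ) := by
    have : x ^ 2 + (a : ℤ) * y ^ 2 = x ^ 2 + (d : ℤ) * (t * y ^ 2) := by
      rw [ht]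
      push_cast
      ring
    rw [this, Int.add_mul_emod_self_left]
  rw [jacobiSym.mod_left' h5]
  apply jacobiSym.sq_one'
  rw [Int.gcd_eq_natAbs, Int.natAbs_natCast]
  apply Nat.Coprime.gcd_eq_one
  by_contra hcon
  obtain ⟨p, hp, hpx, hpd⟩ := Nat.Prime.not_coprime_iff_dvd.1 hcon
  have h6 : (p : ℤ) ∣ x := Int.natCast_dvd.2 hpx
  have h7 : (p : ℤ) ∣ (a : ℤ) := Int.natCast_dvd_natCast.2 (hpd.trans ⟨t, ht⟩)
  have h8 : (p : ℤ) ∣ (n : ℤ) := by
    rw [h3]
    exact dvd_add (dvd_pow h6 two_ne_zero) (h7.mul_right _)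
  have h9 : p ∣ n := Int.natCast_dvd_natCast.1 h8
  have h10 : p ∣ a := hpd.trans ⟨t, ht⟩
  exact Nat.Prime.not_coprime_iff_dvd.2 ⟨p, hp, h9, h10⟩ h2

private theorem eqt_ne {b : Ideal (𝓞 K)} (h : OddI b) : Ideal.absNorm b ≠ 0 := by
  intro h0
  unfold OddI at h
  rw [h0] at h
  exact absurd h (by decide)

private theorem eqt_mul (d : ℕ) {b c : Ideal (𝓞 K)} (hb : OddI b) (hc : OddI c) :
    jacobiSym d (Ideal.absNorm (b * c)) =
      jacobiSym d (Ideal.absNorm b) * jacobiSym d (Ideal.absNorm c) := by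
  rw [map_mul]
  exact jacobiSym.mul_right' _ (eqt_ne hb) (eqt_ne hc)

private theorem eqt_pm {d : ℕ} (hd : d ∣ a) {b : Ideal (𝓞 K)}
    (hc : Nat.Coprime (Ideal.absNorm b) a) :
    jacobiSym d (Ideal.absNorm b) = 1 ∨ jacobiSym d (Ideal.absNorm b) = -1 := by
  apply jacobiSym.eq_one_or_neg_one
  rw [Int.gcd_natCast_natCast]
  exact (Nat.Coprime.coprime_dvd_right hd hc).symm

/-- the symbol depends only on the class -/
private theorem eqt_wd (hb : Base5 K a s) {d : ℕ} (hd : d ∣ a) {b c : Ideal (𝓞 K)}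
    (ob : OddI b) (oc : OddI c) (cb : Nat.Coprime (Ideal.absNorm b) a)
    (cc : Nat.Coprime (Ideal.absNorm c) a) (h : kl b = kl c) :
    jacobiSym d (Ideal.absNorm b) = jacobiSym d (Ideal.absNorm c) := by
  obtain ⟨e, oe, ce, he⟩ := eqt_rep hb (kl b)⁻¹
  have key : ∀ b' : Ideal (𝓞 K), OddI b' → Nat.Coprime (Ideal.absNorm b') a → kl b' = kl b →
      jacobiSym d (Ideal.absNorm b') * jacobiSym d (Ideal.absNorm e) = 1 := by
    intro b' ob' cb' hk
    have o1 : OddI (b' * e) := ob'.mul oe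
    have h1 : kl (b' * e) = 1 := by rw [kl_mul ob' oe, he, hk, mul_inv_cancel]
    obtain ⟨δ, hδ⟩ := (kl_eq_one o1).1 h1
    rw [← eqt_mul d ob' oe, hδ]
    apply eqt_sym hb hd
    · rw [← hδ]; exact o1
    · rw [← hδ, map_mul]
      exact Nat.Coprime.mul_left cb' ce
  have k1 := key b ob cb rfl
  have k2 := key c oc cc h.symm
  rcases eqt_pm hd ce with h1 | h1
  · rw [h1, mul_one] at k1 k2
    rw [k1, k2]
  · rw [h1] at k1 k2
    linarith

theorem exists_quarter (hb : Base5 K a s) {d : ℕ} (hd : d ∣ a) {e0 : Ideal (𝓞 K)}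
    (he : Ideal.absNorm e0 % 4 = 1) (hea : Nat.Coprime (Ideal.absNorm e0) a)
    (hej : jacobiSym d (Ideal.absNorm e0) = -1) :
    ∃ S0 S : Subgroup (ClassGroup (𝓞 K)), S ≤ S0 ∧
      2 * Nat.card S0 = Fintype.card (ClassGroup (𝓞 K)) ∧
      4 * Nat.card S = Fintype.card (ClassGroup (𝓞 K)) ∧
      (∀ C ∈ S0, ∃ b : Ideal (𝓞 K), Ideal.absNorm b % 4 = 1 ∧ kl b = C) ∧
      (∀ b : Ideal (𝓞 K), Ideal.absNorm b % 4 = 1 → kl b ∈ S0) ∧
      (∀ b : Ideal (𝓞 K), Ideal.absNorm b % 4 = 1 → Nat.Coprime (Ideal.absNorm b) a →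
        (kl b ∈ S ↔ jacobiSym d (Ideal.absNorm b) = 1)) ∧
      (∀ C : ClassGroup (𝓞 K), C ^ 2 ∈ S) ∧
      ∀ C g : ClassGroup (𝓞 K), C ∈ S0 → g ∈ S0 → g ∉ S → C ∉ S → g⁻¹ * C ∈ S := by
  obtain ⟨S0, hS0c, hS01, hS02⟩ := exists_half hb
  have oe0 : OddI e0 := oddI_of_one he
  have hin : ∀ b : Ideal (𝓞 K), Ideal.absNorm b % 4 = 1 → kl b ∈ S0 := by
    intro b h1
    have hb0 := ne_bot_of_odd (oddI_of_one h1)
    rw [kl_mk0 hb0]
    exact hS02 ⟨b, hb0⟩ h1
  have hrep : ∀ C ∈ S0, ∃ b : Ideal (𝓞 K), Ideal.absNorm b % 4 = 1 ∧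
      Nat.Coprime (Ideal.absNorm b) a ∧ kl b = C := by
    intro C hC
    obtain ⟨b, h1, h2⟩ := hS01 C hC
    obtain ⟨c, -, h4, h5, h6⟩ := eqt_move hb (oddI_of_one h1)
    exact ⟨c, h6 h1, h4, by rw [h5, kl_mk0 b.2]; exact h2⟩
  let S : Subgroup (ClassGroup (𝓞 K)) :=
    { carrier := {C | ∃ b : Ideal (𝓞 K), Ideal.absNorm b % 4 = 1 ∧
        Nat.Coprime (Ideal.absNorm b) a ∧ jacobiSym d (Ideal.absNorm b) = 1 ∧ kl b = C}
      mul_mem' := by
        rintro _ _ ⟨b, h1, h2, h3, rfl⟩ ⟨b', h1', h2', h3', rfl⟩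
        refine ⟨b * b', ?_, ?_, ?_, kl_mul (oddI_of_one h1) (oddI_of_one h1')⟩
        · rw [map_mul, Nat.mul_mod, h1, h1']
        · rw [map_mul]
          exact Nat.Coprime.mul_left h2 h2'
        · rw [eqt_mul d (oddI_of_one h1) (oddI_of_one h1'), h3, h3', mul_one]
      one_mem' := ⟨1, by rw [map_one]; norm_num, by rw [map_one]; exact Nat.coprime_one_left a,
        by rw [map_one, jacobiSym.one_right], kl_one⟩
      inv_mem' := by
        rintro _ ⟨b, h1, h2, h3, rfl⟩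
        refine ⟨b ^ (orderOf (kl b) - 1), ?_, ?_, ?_, ?_⟩
        · rw [map_pow, Nat.pow_mod, h1, one_pow]; norm_num
        · rw [map_pow]
          exact Nat.Coprime.pow_left _ h2
        · rw [map_pow, jacobiSym.pow_right, h3, one_pow]
        · rw [kl_pow (oddI_of_one h1), eq_inv_iff_mul_eq_one, ← pow_succ,
            Nat.sub_add_cancel (orderOf_pos _), pow_orderOf_eq_one] }
  have hmem : ∀ C, C ∈ S ↔ ∃ b : Ideal (𝓞 K), Ideal.absNorm b % 4 = 1 ∧
      Nat.Coprime (Ideal.absNorm b) a ∧ jacobiSym d (Ideal.absNorm b) = 1 ∧ kl b = C :=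
    fun C => Iff.rfl
  have hiff : ∀ b : Ideal (𝓞 K), Ideal.absNorm b % 4 = 1 → Nat.Coprime (Ideal.absNorm b) a →
      (kl b ∈ S ↔ jacobiSym d (Ideal.absNorm b) = 1) := by
    intro b h1 h2
    rw [hmem]
    constructor
    · rintro ⟨b', h1', h2', h3', h4'⟩
      rw [← h3']
      exact eqt_wd hb hd (oddI_of_one h1) (oddI_of_one h1') h2 h2' h4'.symm
    · intro h3
      exact ⟨b, h1, h2, h3, rfl⟩
  have hle : S ≤ S0 := by
    intro C hC
    obtain ⟨b, h1, -, -, rfl⟩ := (hmem C).1 hC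
    exact hin b h1
  have hmul : ∀ b c : Ideal (𝓞 K), Ideal.absNorm b % 4 = 1 → Nat.Coprime (Ideal.absNorm b) a →
      Ideal.absNorm c % 4 = 1 → Nat.Coprime (Ideal.absNorm c) a →
      (kl b * kl c ∈ S ↔ jacobiSym d (Ideal.absNorm b) * jacobiSym d (Ideal.absNorm c) = 1) := by
    intro b c h1 h2 h3 h4
    rw [← kl_mul (oddI_of_one h1) (oddI_of_one h3), ← eqt_mul d (oddI_of_one h1) (oddI_of_one h3)]
    apply hiff
    · rw [map_mul, Nat.mul_mod, h1, h3]
    · rw [map_mul]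
      exact Nat.Coprime.mul_left h2 h4
  have hidx : (S.subgroupOf S0).index = 2 := by
    rw [Subgroup.index_eq_two_iff]
    refine ⟨⟨kl e0, hin e0 he⟩, ?_⟩
    rintro ⟨C, hC⟩
    obtain ⟨b, h1, h2, rfl⟩ := hrep C hC
    rw [Subgroup.mem_subgroupOf, Subgroup.mem_subgroupOf]
    simp only [Subgroup.coe_mul]
    rw [hmul b e0 h1 h2 he hea, hiff b h1 h2, hej]
    rcases eqt_pm hd h2 with h3 | h3
    · right
      rw [h3]
      norm_num
    · left
      rw [h3]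
      norm_num
  have hcard : 2 * Nat.card S = Nat.card S0 := by
    have h1 := (S.subgroupOf S0).card_mul_index
    rw [hidx, Nat.card_congr (Subgroup.subgroupOfEquivOfLe hle).toEquiv] at h1
    omega
  have hsq : ∀ C : ClassGroup (𝓞 K), C ^ 2 ∈ S := by
    intro C
    obtain ⟨c, h1, h2, rfl⟩ := eqt_rep hb C
    rw [hmem]
    refine ⟨c ^ 2, ?_, ?_, ?_, kl_pow h1 2⟩
    · rw [map_pow, Nat.pow_mod]
      have h3 : Ideal.absNorm c % 2 = 1 := Nat.odd_iff.1 h1
      have h4 : Ideal.absNorm c % 4 = 1 ∨ Ideal.absNorm c % 4 = 3 := by omega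
      rcases h4 with h4 | h4 <;> rw [h4]
    · rw [map_pow]
      exact Nat.Coprime.pow_left _ h2
    · rw [map_pow, jacobiSym.pow_right]
      rcases eqt_pm hd h2 with h3 | h3 <;> rw [h3] <;> norm_num
  refine ⟨S0, S, hle, hS0c, by omega, fun C hC => ?_, hin, hiff, hsq, ?_⟩
  · obtain ⟨b, h1, -, h3⟩ := hrep C hC
    exact ⟨b, h1, h3⟩
  · intro C g hC hg hgS hCS
    obtain ⟨b, h1, h2, rfl⟩ := hrep C hC
    obtain ⟨c, h3, h4, rfl⟩ := hrep g hg
    rw [hiff b h1 h2] at hCS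
    rw [hiff c h3 h4] at hgS
    have h5 := (eqt_pm hd h2).resolve_left hCS
    have h6 := (eqt_pm hd h4).resolve_left hgS
    have h7 : kl c * kl b ∈ S := by
      rw [hmul c b h3 h4 h1 h2, h5, h6]
      norm_num
    have h8 : (kl c)⁻¹ * kl b = (kl c ^ 2)⁻¹ * (kl c * kl b) := by
      rw [pow_two, mul_inv]
      group
    rw [h8]
    exact S.mul_mem (S.inv_mem (hsq _)) h7

end Pool.Agent.Work.MP_8efaaa_nt.N5
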