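import Mathlib
import Pool.Agent.Work.MP_8efaaa_nt.N5.Defs

/-!
# N5/DVal (S-M): the valuation of an inertia element

PROOF. `v` = the valuation of the prime ideal `L` (`HeightOneSpectrum.valuation`, the place `⟨L, prime, ne_bot⟩`). `ι` maps `L` onto `L`: for `x ∈ L`, `ι x = x + y ∈ L` (`triv`),
also for the inverse of `ι`. So `v (ι x) = v x` (for integral `x` by the powers of `L`: `ι` induces a ring automorphism of `𝓞 F` that fixes `L`, hence all `L ^ n`;
then for quotients). If `v x ≤ 1`: `x = p / q` with `q ∉ L` (strong approximation/`exists` lemma: elements of valuation `≤ 1` are quotients with denominator outside `L`,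
e.g. `IsDedekindDomain.HeightOneSpectrum.exists_..` or localization at `L`), `ι x - x = (ι p - p)/ι q - p (ι q - q)/(q ι q)`, of valuation `< 1`.
`Γ` can be chosen as you like (e.g. `ℤᵐ⁰`).
-/

set_option autoImplicit false

namespace Pool.Agent.Work.MP_8efaaa_nt.N5

open NumberField

private theorem iv_mem {R : Type*} [CommRing R] (ρ : R ≃+* R) {L : Ideal R}
    (h : ∀ x, x ∈ L → ρ x ∈ L) (n : ℕ) {x : R} (hx : x ∈ L ^ n) : ρ x ∈ L ^ n := by
  have h1 : L.map (ρ : R →+* R) ≤ L := by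
    rw [Ideal.map_le_iff_le_comap]
    intro y hy
    exact h y hy
  have h2 : (L ^ n).map (ρ : R →+* R) ≤ L ^ n := by
    rw [Ideal.map_pow]
    exact Ideal.pow_right_mono h1 n
  exact h2 (Ideal.mem_map_of_mem (ρ : R →+* R) hx)

private theorem iv_eq {R : Type*} [CommRing R] [IsDedekindDomain R]
    (v : IsDedekindDomain.HeightOneSpectrum R) (ρ : R ≃+* R)
    (h : ∀ x, x ∈ v.asIdeal → ρ x ∈ v.asIdeal) (h' : ∀ x, x ∈ v.asIdeal → ρ.symm x ∈ v.asIdeal)
    (x : R) : v.intValuation (ρ x) = v.intValuation x := by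
  by_cases hx : x = 0
  · simp [hx]
  have hx' : ρ x ≠ 0 := by simpa using hx
  apply le_antisymm
  · rw [v.intValuation_if_neg hx, v.intValuation_le_pow_iff_mem]
    apply iv_mem ρ h
    rw [← v.intValuation_le_pow_iff_mem, v.intValuation_if_neg hx]
  · rw [v.intValuation_if_neg hx', v.intValuation_le_pow_iff_mem]
    have h1 : ρ x ∈ v.asIdeal ^ (Associates.mk v.asIdeal).count
        (Associates.mk (Ideal.span {ρ x} : Ideal R)).factors := by
      rw [← v.intValuation_le_pow_iff_mem, v.intValuation_if_neg hx']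
    have h2 := iv_mem ρ.symm h' _ h1
    simpa using h2

theorem inert_val {F : Type*} [Field F] [NumberField F] {ι : F ≃ₐ[ℚ] F} {L : Ideal (𝓞 F)}
    (h : Inert ι L) : ∃ (Γ : Type) (_ : LinearOrderedCommGroupWithZero Γ) (V : Valuation F Γ),
      (∀ x : 𝓞 F, V (algebraMap (𝓞 F) F x) ≤ 1) ∧ V 2 = 1 ∧ (∀ x : F, V (ι x) = V x) ∧
      ∀ x : F, V x ≤ 1 → V (ι x - x) < 1 := by
  classical
  let v : IsDedekindDomain.HeightOneSpectrum (𝓞 F) := ⟨L, h.prime, h.ne_bot⟩
  let ρ : 𝓞 F ≃+* 𝓞 F := MulSemiringAction.toRingEquiv (F ≃ₐ[ℚ] F) (𝓞 F) ι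
  have hρ : ∀ x : 𝓞 F, algebraMap (𝓞 F) F (ρ x) = ι (algebraMap (𝓞 F) F x) := fun x => rfl
  have htr : ∀ x : 𝓞 F, ρ x - x ∈ L := by
    intro x
    obtain ⟨y, hy, h1⟩ := h.triv x
    have h2 : ρ x - x = y := by
      apply FaithfulSMul.algebraMap_injective (𝓞 F) F
      rw [map_sub, hρ, h1]
    rw [h2]
    exact hy
  have hf : ∀ x, x ∈ L → ρ x ∈ L := by
    intro x hx
    have h1 := L.add_mem (htr x) hx
    simpa using h1
  have hb : ∀ x, x ∈ L → ρ.symm x ∈ L := by
    intro x hx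
    have h1 := L.sub_mem hx (htr (ρ.symm x))
    simpa using h1
  have hint : ∀ x : 𝓞 F, v.valuation F (ι (algebraMap (𝓞 F) F x)) =
      v.valuation F (algebraMap (𝓞 F) F x) := by
    intro x
    rw [← hρ, v.valuation_of_algebraMap, v.valuation_of_algebraMap]
    exact iv_eq v ρ hf hb x
  have hval : ∀ x : F, v.valuation F (ι x) = v.valuation F x := by
    intro x
    obtain ⟨p, q, hq, rfl⟩ := IsFractionRing.div_surjective (𝓞 F) x
    rw [map_div₀, map_div₀, map_div₀, hint, hint]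
  refine ⟨WithZero (Multiplicative ℤ), inferInstance, v.valuation F, fun x => v.valuation_le_one x,
    ?_, hval, ?_⟩
  · have h1 := (v.valuation_eq_one_iff_notMem (K := F) (r := (2 : 𝓞 F))).2 h.two
    rwa [map_ofNat] at h1
  · intro x hx
    obtain ⟨n, d, hnd⟩ := v.exists_primeCompl_mul_eq_of_integer x hx
    have hd : v.valuation F (algebraMap (𝓞 F) F d) = 1 :=
      v.valuation_eq_one_iff_notMem.2 d.2
    have hd' : v.valuation F (ι (algebraMap (𝓞 F) F d)) = 1 := by rw [hval, hd]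
    have h1 : (ι x - x) * ι (algebraMap (𝓞 F) F d) =
        (algebraMap (𝓞 F) F (ρ n - n)) - x * algebraMap (𝓞 F) F (ρ d - d) := by
      rw [map_sub, map_sub, hρ, hρ, ← hnd, map_mul]
      ring
    have h2 : v.valuation F ((ι x - x) * ι (algebraMap (𝓞 F) F d)) < 1 := by
      rw [h1]
      refine lt_of_le_of_lt (Valuation.map_sub _ _ _) (max_lt ?_ ?_)
      · exact (v.valuation_lt_one_iff_mem (K := F) _).2 (htr n)
      · rw [map_mul]
        have h3 : v.valuation F (algebraMap (𝓞 F) F (ρ d - d)) < 1 :=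
          (v.valuation_lt_one_iff_mem (K := F) _).2 (htr d)
        exact lt_of_le_of_lt (mul_le_of_le_one_left' hx) h3
    rwa [map_mul, hd', mul_one] at h2

end Pool.Agent.Work.MP_8efaaa_nt.N5
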