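import Mathlib
import Pool.Agent.Work.MP_8efaaa_nt.R.FGal
import Pool.Agent.Work.MP_8efaaa_nt.N5.Defs
import Pool.Agent.Work.MP_8efaaa_nt.N5.DVal

/-!
# N5/DRed (M-L): reduction is injective on the torsion points of order four

PROOF. `V` from `inert_val`, `T := gal ι R - R`, suppose `T ≠ 0`, `T = (p, q)`. `4 T = 0` gives that `p` is integral: `2 T = 0` or `2 T` is a point of order two: `p = 0, ±1`, or
`p^2 = -1`, or `p^2 ± 2p - 1 = 0` (duplication: `x(2T) = (p^2+1)^2/(4 (p^3 - p))` is `0`, `1` or `-1`: `(p^2+1)^2 = 0`, `(p^2 - 2p - 1)^2 = 0`, `(p^2 + 2p - 1)^2 = 0`), so `V p ≤ 1`, and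
`V q ≤ 1`. CASE A: `R = 0`: `T = 0`. CASE B: `R = (x, y)`, `V x > 1`. Then `V y ^ 2 = V x ^ 3`, and `gal ι R = (ι x, ι y)`, `V (ι x) = V x > 1`. But `gal ι R = R + T`, and its
first coordinate is `m^2 - x - p`, `m = (y - q)/(x - p)` (`x ≠ p`): `m^2 - x = ((y - q)^2 - x (x - p)^2)/(x - p)^2 = (-x - 2 y q + q^2 + 2 p x^2 - p^2 x)/(x - p)^2` (used `y^2 = x^3 - x`), every term of the
numerator has valuation `≤ V x ^ 2`, `V (x - p) = V x`: so `V (ι x) ≤ 1`, contradiction. CASE C: `V x ≤ 1`, `V y ≤ 1`. `V (ι x - x) < 1`, `V (ι y - y) < 1`. `T = gal ι R + (-R)`, `-R = (x, -y)`.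
(C1) `ι x = x`: `ι y = ± y`; `ι y = y` gives `T = 0`; so `ι y = -y ≠ y`, `V (2 y) < 1`, `V y < 1`, `T = 2 (-R)`, slope `m = (3 x^2 - 1)/(-2 y)`; `V (3 x^2 - 1) = 1`, as `V (x^3 - x) < 1`
(`(3x^2-1)^2 (..)`: from `4 = (3 x^2 - 1)(..) + (x^3 - x)(..)`: `(9 x^3 - 9 x)*... `; concretely `(3x^2 - 1)(3 x^2 - 4)... = 9 x (x^3 - x) - 6 x^2 + 4 - ..`, find a polynomial identity `4 = A (3x^2-1) + B (x^3 - x)` with
integer coefficients, `V 2 = 1`), so `V m > 1`, `p = m^2 - 2x`, `V p > 1`, contradiction. (C2) `ι x ≠ x`: `m = (ι y + y)/(ι x - x)`. If `V (ι y + y) = 1` then `V m > 1`, `p = m^2 - ι x - x`, `V p > 1`,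
contradiction. Otherwise `V (2 y) < 1`, `V y < 1`, `V (ι y) < 1`; `(ι y + y)(ι y - y) = (ι x - x)(ι x^2 + ι x x + x^2 - 1)`, and `ι x^2 + ι x x + x^2 - 1 = (3x^2 - 1) + (valuation < 1)` has valuation `1`; so
`ι y ≠ y` and `m = (ι x^2 + ι x x + x^2 - 1)/(ι y - y)` has `V m > 1`, contradiction.
-/

set_option autoImplicit false

namespace Pool.Agent.Work.MP_8efaaa_nt.N5

open NumberField Pool.Agent.Work.MP_8efaaa_nt.R
open scoped Classical

open WeierstrassCurve WeierstrassCurve.Affine in
private theorem neg_pt {F : Type*} [Field F] [CharZero F] {x y : F} (h : y ^ 2 = x ^ 3 - x)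
    (h' : (-y) ^ 2 = x ^ 3 - x) : -(pt x y h) = pt x (-y) h' := by
  unfold pt
  rw [Point.neg_some, Point.some.injEq]
  exact ⟨rfl, negY_cQ x y⟩

open WeierstrassCurve WeierstrassCurve.Affine in
private theorem add_pt {F : Type*} [Field F] [CharZero F] {x1 y1 x2 y2 x3 y3 : F}
    {h1 : y1 ^ 2 = x1 ^ 3 - x1} {h2 : y2 ^ 2 = x2 ^ 3 - x2} {h3 : y3 ^ 2 = x3 ^ 3 - x3}
    (hx : x1 ≠ x2) (h : pt x1 y1 h1 + pt x2 y2 h2 = pt x3 y3 h3) :
    x3 * (x1 - x2) ^ 2 = (y1 - y2) ^ 2 - (x1 + x2) * (x1 - x2) ^ 2 := by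
  unfold pt at h
  rw [Point.add_of_X_ne hx, Point.some.injEq] at h
  have h4 := h.1
  rw [slope_of_X_ne hx] at h4
  simp only [addX, cQ] at h4
  have h5 : x1 - x2 ≠ 0 := sub_ne_zero.2 hx
  rw [← h4]
  field_simp
  ring

private theorem dbl_pt {F : Type*} [Field F] [CharZero F] {x y x3 y3 : F}
    {h1 : y ^ 2 = x ^ 3 - x} {h3 : y3 ^ 2 = x3 ^ 3 - x3}
    (hy : y ≠ 0) (h : pt x y h1 + pt x y h1 = pt x3 y3 h3) :
    x3 * (2 * y) ^ 2 = (x ^ 2 + 1) ^ 2 := by
  obtain ⟨x', y', hn', e1, e2, -, -⟩ := double (cQ_nonsingular.2 h1) hy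
  unfold pt at h
  rw [e1, WeierstrassCurve.Affine.Point.some.injEq] at h
  rw [← h.1, e2]
  have : (2 : F) ≠ 0 := two_ne_zero
  field_simp

/-- the equation of the first coordinates of the points killed by four -/
private theorem four_pt {F : Type*} [Field F] [CharZero F] {x y : F} (h : y ^ 2 = x ^ 3 - x)
    (h4 : (4 : ℤ) • pt x y h = 0) :
    x = 0 ∨ x = 1 ∨ x = -1 ∨ x ^ 2 + 1 = 0 ∨ x ^ 2 - 2 * x - 1 = 0 ∨ x ^ 2 + 2 * x - 1 = 0 := by
  have h4' : (pt x y h + pt x y h) + (pt x y h + pt x y h) = 0 := by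
    rw [← h4]
    have : (4 : ℤ) = 1 + 1 + (1 + 1) := by norm_num
    rw [this, add_smul, add_smul, one_smul]
  by_cases hy : y = 0
  · have h6 : x * ((x - 1) * (x + 1)) = 0 := by rw [hy] at h; linear_combination -h
    rcases mul_eq_zero.1 h6 with h7 | h7
    · exact Or.inl h7
    · rcases mul_eq_zero.1 h7 with h8 | h8
      · exact Or.inr (Or.inl (by linear_combination h8))
      · exact Or.inr (Or.inr (Or.inl (by linear_combination h8)))
  · obtain ⟨x', y', hn', e1, e2, e3, e4⟩ := double (cQ_nonsingular.2 h) hy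
    have e1' : pt x y h + pt x y h = pt x' y' (cQ_nonsingular.1 hn') := e1
    rw [e1'] at h4'
    have h2y : 2 * y ≠ 0 := mul_ne_zero two_ne_zero hy
    have hy' : y' = 0 := by
      by_contra hy'
      obtain ⟨x'', y'', hn'', e5, -, -, -⟩ := double hn' hy'
      have e5' : pt x' y' (cQ_nonsingular.1 hn') + pt x' y' (cQ_nonsingular.1 hn') =
        pt x'' y'' (cQ_nonsingular.1 hn'') := e5
      rw [e5'] at h4'
      exact pt_ne _ h4'
    have h' := cQ_nonsingular.1 hn'
    have h6 : x' * ((x' - 1) * (x' + 1)) = 0 := by rw [hy'] at h'; linear_combination -h'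
    rcases mul_eq_zero.1 h6 with h7 | h7
    · rw [e2] at h7
      have h8 := pow_eq_zero_iff (two_ne_zero) |>.1 h7
      rcases div_eq_zero_iff.1 h8 with h9 | h9
      · exact Or.inr (Or.inr (Or.inr (Or.inl h9)))
      · exact absurd h9 h2y
    · rcases mul_eq_zero.1 h7 with h8 | h8
      · rw [e3] at h8
        have h8 := pow_eq_zero_iff (two_ne_zero) |>.1 h8
        rcases div_eq_zero_iff.1 h8 with h9 | h9
        · exact Or.inr (Or.inr (Or.inr (Or.inr (Or.inl h9))))
        · exact absurd h9 h2y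
      · rw [e4] at h8
        have h8 := pow_eq_zero_iff (two_ne_zero) |>.1 h8
        rcases div_eq_zero_iff.1 h8 with h9 | h9
        · exact Or.inr (Or.inr (Or.inr (Or.inr (Or.inr h9))))
        · exact absurd h9 h2y

section val

variable {F : Type*} [Field F] {Γ : Type} [LinearOrderedCommGroupWithZero Γ] (V : Valuation F Γ)

private theorem vle {a b : F} (ha : V a ≤ 1) (hb : V b ≤ 1) : V (a + b) ≤ 1 :=
  (V.map_add a b).trans (max_le ha hb)

private theorem vlt {a b : F} (ha : V a < 1) (hb : V b < 1) : V (a + b) < 1 :=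
  lt_of_le_of_lt (V.map_add a b) (max_lt ha hb)

private theorem vltm {a b : F} (ha : V a ≤ 1) (hb : V b < 1) : V (a * b) < 1 := by
  rw [map_mul]
  calc V a * V b ≤ 1 * V b := by gcongr
    _ = V b := one_mul _
    _ < 1 := hb

private theorem vlem {a b : F} (ha : V a ≤ 1) (hb : V b ≤ 1) : V (a * b) ≤ 1 := by
  rw [map_mul]
  exact mul_le_one' ha hb

private theorem vsq {a : F} (ha : V (a ^ 2) < 1) : V a < 1 := by
  rw [map_pow] at ha
  by_contra h
  push Not at h
  exact absurd ha (not_lt.2 (one_le_pow₀ h))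

private theorem vquad {a n : F} (hn : V n ≤ 1) (h : a ^ 2 + n * a - 1 = 0) : V a ≤ 1 := by
  by_contra h1
  push Not at h1
  have h2 : a ^ 2 = 1 + -(n * a) := by linear_combination h
  have h3 : V a ^ 2 ≤ max 1 (V n * V a) := by
    rw [← map_pow, h2]
    refine (V.map_add _ _).trans ?_
    rw [Valuation.map_neg, map_one, map_mul]
  have h4 : V n * V a ≤ V a := by
    calc V n * V a ≤ 1 * V a := by gcongr
      _ = V a := one_mul _
  have h5 : V a ^ 2 ≤ V a := h3.trans (max_le h1.le h4)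
  have h6 : V a < V a ^ 2 := by
    rw [pow_two]
    have h7 : 0 < V a := lt_trans zero_lt_one h1
    calc V a = 1 * V a := (one_mul _).symm
      _ < V a * V a := by gcongr
  exact absurd h5 (not_le.2 h6)

end val

theorem red {F : Type*} [Field F] [NumberField F] {ι : F ≃ₐ[ℚ] F} {L : Ideal (𝓞 F)}
    (h : Inert ι L) (R : (cQ F).Point) (hT : (4 : ℤ) • (gal ι R - R) = 0) : gal ι R = R := by
  obtain ⟨Γ, _, V, hV1, hV2, hVi, hVt⟩ := inert_val h
  rcases pt_cases R with rfl | ⟨x, y, hxy, rfl⟩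
  · rw [map_zero]
  rcases pt_cases (gal ι (pt x y hxy) - pt x y hxy) with h0 | ⟨p, q, hpq, hTe⟩
  · exact sub_eq_zero.1 h0
  exfalso
  rw [hTe] at hT
  have hnat : ∀ n : ℕ, V (n : F) ≤ 1 := fun n => by
    have := hV1 (n : 𝓞 F)
    simpa using this
  have hp4 := four_pt hpq hT
  have hVp : V p ≤ 1 := by
    have h2 : V (-2 : F) ≤ 1 := by rw [Valuation.map_neg, hV2]
    rcases hp4 with h1 | h1 | h1 | h1 | h1 | h1
    · rw [h1, map_zero]; exact zero_le
    · rw [h1, map_one]
    · rw [h1, Valuation.map_neg, map_one]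
    · have h3 : V p ^ 2 = 1 := by
        rw [← map_pow, show p ^ 2 = -1 by linear_combination h1, Valuation.map_neg, map_one]
      by_contra h4
      push Not at h4
      have := one_lt_pow₀ h4 two_ne_zero
      rw [h3] at this
      exact lt_irrefl _ this
    · exact vquad V h2 (by linear_combination h1)
    · exact vquad V hV2.le (by linear_combination h1)
  have hVq : V q ≤ 1 := by
    by_contra h4
    push Not at h4
    have h5 := one_lt_pow₀ h4 two_ne_zero
    rw [← map_pow, hpq] at h5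
    refine absurd h5 (not_lt.2 ?_)
    rw [show p ^ 3 - p = p * (p ^ 2 + -1) by ring]
    refine vlem V hVp (vle V ?_ ?_)
    · rw [map_pow]; exact pow_le_one₀ zero_le hVp
    · rw [Valuation.map_neg, map_one]
  rw [gal_pt] at hTe
  have hι := gal_eq ι hxy
  have hadd : pt x y hxy + pt p q hpq = pt (ι x) (ι y) hι := by
    rw [← hTe]; abel
  by_cases hx1 : V x ≤ 1
  · -- `x`, `y` integral
    have hy1 : V y ≤ 1 := by
      by_contra h4
      push Not at h4
      have h5 := one_lt_pow₀ h4 two_ne_zero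
      rw [← map_pow, hxy] at h5
      refine absurd h5 (not_lt.2 ?_)
      rw [show x ^ 3 - x = x * (x ^ 2 + -1) by ring]
      refine vlem V hx1 (vle V ?_ ?_)
      · rw [map_pow]; exact pow_le_one₀ zero_le hx1
      · rw [Valuation.map_neg, map_one]
    have hix := hVt x hx1
    have hiy := hVt y hy1
    have hyn : (-y) ^ 2 = x ^ 3 - x := by rw [neg_sq]; exact hxy
    have hsub : pt (ι x) (ι y) hι + pt x (-y) hyn = pt p q hpq := by
      rw [← hTe, sub_eq_add_neg, neg_pt hxy hyn]
    have hιx1 : V (ι x) ≤ 1 := by rw [hVi]; exact hx1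
    have hιy1 : V (ι y) ≤ 1 := by rw [hVi]; exact hy1
    have hm1 : V (-1 : F) ≤ 1 := by rw [Valuation.map_neg, map_one]
    -- the key fact: `2 y` has valuation `< 1` leads to `V (3 x ^ 2 - 1) = 1`
    by_cases hxx : ι x = x
    · have h1 : (ι y - y) * (ι y + y) = 0 := by
        rw [hxx] at hι
        linear_combination hι - hxy
      rcases mul_eq_zero.1 h1 with h2 | h2
      · -- `gal ι R = R`
        have h3 : ι y = y := sub_eq_zero.1 h2
        have h4 : pt (ι x) (ι y) hι = pt x y hxy := by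
          rw [pt_inj]; exact ⟨hxx, h3⟩
        rw [h4] at hadd
        exact pt_ne hpq (left_eq_add.1 hadd.symm)
      · have h3 : ι y = -y := by linear_combination h2
        have hy0 : y ≠ 0 := by
          intro hy0
          have h3' : ι y = y := by rw [h3, hy0, neg_zero]
          have h4 : pt (ι x) (ι y) hι = pt x y hxy := by
            rw [pt_inj]; exact ⟨hxx, h3'⟩
          rw [h4] at hadd
          exact pt_ne hpq (left_eq_add.1 hadd.symm)
        have h4 : pt (ι x) (ι y) hι = pt x (-y) hyn := by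
          rw [pt_inj]; exact ⟨hxx, h3⟩
        rw [h4] at hsub
        have h5 := dbl_pt (neg_ne_zero.2 hy0) hsub
        have h6 : V (2 * y) < 1 := by
          rw [h3, show -y - y = -(2 * y) by ring, Valuation.map_neg] at hiy
          exact hiy
        have h7 : V y < 1 := by
          rw [map_mul, hV2, one_mul] at h6
          exact h6
        have h8 : V (x ^ 2 + 1) < 1 := by
          apply vsq V
          rw [← h5, show p * (2 * -y) ^ 2 = (p * (2 * y)) * (2 * y) by ring]
          exact vltm V (vlem V hVp h6.le) h6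
        have h9 : V (y ^ 2) < 1 := by rw [pow_two]; exact vltm V hy1 h7
        have h10 : V (2 * x) < 1 := by
          rw [show 2 * x = x * (x ^ 2 + 1) + (-1) * y ^ 2 by rw [hxy]; ring]
          exact vlt V (vltm V hx1 h8) (vltm V hm1 h9)
        have h11 : V x < 1 := by
          rw [map_mul, hV2, one_mul] at h10
          exact h10
        have h12 : V (1 : F) < 1 := by
          rw [show (1 : F) = (x ^ 2 + 1) + (-x) * x by ring]
          refine vlt V h8 (vltm V ?_ h11)
          rw [Valuation.map_neg]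
          exact hx1
        rw [map_one] at h12
        exact lt_irrefl _ h12
    · have h1 := add_pt hxx hsub
      have hsum : V (ι y + y) < 1 := by
        apply vsq V
        rw [show (ι y + y) ^ 2 = (p * (ι x - x)) * (ι x - x) + ((ι x + x) * (ι x - x)) * (ι x - x) by
          linear_combination -h1]
        exact vlt V (vltm V (vlem V hVp hix.le) hix)
          (vltm V (vlem V (vle V hιx1 hx1) hix.le) hix)
      have h2y : V (2 * y) < 1 := by
        rw [show 2 * y = (ι y + y) + (-1) * (ι y - y) by ring]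
        exact vlt V hsum (vltm V hm1 hiy)
      have hy : V y < 1 := by
        rw [map_mul, hV2, one_mul] at h2y
        exact h2y
      have hxy2 : V (y ^ 2) < 1 := by rw [pow_two]; exact vltm V hy1 hy
      have hV4 : V (4 : F) = 1 := by
        rw [show (4 : F) = 2 * 2 by norm_num, map_mul, hV2, one_mul]
      have h18 : V (18 : F) ≤ 1 := by simpa using hnat 18
      have h6 : V (6 : F) ≤ 1 := by simpa using hnat 6
      have hx2 : V (x ^ 2) ≤ 1 := by rw [map_pow]; exact pow_le_one₀ zero_le hx1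
      have hkey : ¬ V (ι x ^ 2 + ι x * x + x ^ 2 - 1) < 1 := by
        intro hlt
        have h3 : V (3 * x ^ 2 - 1) < 1 := by
          rw [show 3 * x ^ 2 - 1 = (ι x ^ 2 + ι x * x + x ^ 2 - 1) + (-(ι x + (x + x))) * (ι x - x) by
            ring]
          refine vlt V hlt (vltm V ?_ hix)
          rw [Valuation.map_neg]
          exact vle V hιx1 (vle V hx1 hx1)
        have h4 : V (4 : F) < 1 := by
          rw [show (4 : F) = (6 * x ^ 2 + -4) * (3 * x ^ 2 - 1) + (-(18 * x)) * y ^ 2 by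
            rw [hxy]; ring]
          refine vlt V (vltm V (vle V (vlem V h6 hx2) ?_) h3) (vltm V ?_ hxy2)
          · rw [Valuation.map_neg, hV4]
          · rw [Valuation.map_neg]
            exact vlem V h18 hx1
        rw [hV4] at h4
        exact lt_irrefl _ h4
      apply hkey
      apply vsq V
      have hne : ι x - x ≠ 0 := sub_ne_zero.2 hxx
      have h3 : (ι y + y) * (ι y - y) = (ι x - x) * (ι x ^ 2 + ι x * x + x ^ 2 - 1) := by
        linear_combination hι - hxy
      have h4 : (ι x ^ 2 + ι x * x + x ^ 2 - 1) ^ 2 =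
          (p * (ι y - y)) * (ι y - y) + ((ι x + x) * (ι y - y)) * (ι y - y) := by
        have h5 : (ι x - x) ^ 2 * (ι x ^ 2 + ι x * x + x ^ 2 - 1) ^ 2 =
          (ι x - x) ^ 2 * ((p * (ι y - y)) * (ι y - y) + ((ι x + x) * (ι y - y)) * (ι y - y)) := by
          rw [← mul_pow, ← h3]
          linear_combination (-(ι y - y) ^ 2) * h1
        exact mul_left_cancel₀ (pow_ne_zero 2 hne) h5
      rw [h4]
      exact vlt V (vltm V (vlem V hVp hiy.le) hiy)
        (vltm V (vlem V (vle V hιx1 hx1) hiy.le) hiy)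
  · -- `V x > 1`
    push Not at hx1
    have hx0 : 0 < V x := lt_trans zero_lt_one hx1
    have hxp : x ≠ p := by
      rintro rfl
      exact absurd hVp (not_le.2 hx1)
    have h1 := add_pt hxp hadd
    have h2 : V (x - p) = V x := by
      rw [Valuation.map_sub_eq_of_lt_left]
      exact lt_of_le_of_lt hVp hx1
    have h3 : ι x * (x - p) ^ 2 = p * x ^ 2 + ((p ^ 2 + -1) * x + (-p + (-2 * q) * y)) := by
      linear_combination h1 + hxy + hpq
    have hVy : V y ≤ V x ^ 2 := by
      by_contra h4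
      push Not at h4
      have h5 : (V x ^ 2) ^ 2 < V y ^ 2 := pow_lt_pow_left₀ h4 zero_le two_ne_zero
      rw [← map_pow V y, hxy] at h5
      refine absurd h5 (not_lt.2 ?_)
      rw [show x ^ 3 - x = x ^ 3 + -x by ring]
      refine (V.map_add _ _).trans (max_le ?_ ?_)
      · rw [map_pow, ← pow_mul]
        exact pow_le_pow_right₀ hx1.le (by norm_num)
      · rw [Valuation.map_neg, ← pow_mul]
        calc V x = V x ^ 1 := (pow_one _).symm
          _ ≤ _ := pow_le_pow_right₀ hx1.le (by norm_num)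
    have hx2 : 1 ≤ V x ^ 2 := one_le_pow₀ hx1.le
    have hxx2 : V x ≤ V x ^ 2 := by
      calc V x = V x ^ 1 := (pow_one _).symm
        _ ≤ _ := pow_le_pow_right₀ hx1.le (by norm_num)
    have h4 : V (ι x * (x - p) ^ 2) ≤ V x ^ 2 := by
      rw [h3]
      have aux : ∀ a b : F, V a ≤ 1 → V b ≤ V x ^ 2 → V (a * b) ≤ V x ^ 2 := by
        intro a b ha hb
        rw [map_mul]
        calc V a * V b ≤ 1 * V b := by gcongr
          _ = V b := one_mul _
          _ ≤ _ := hb
      refine (V.map_add _ _).trans (max_le ?_ ((V.map_add _ _).trans (max_le ?_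
        ((V.map_add _ _).trans (max_le ?_ ?_)))))
      · exact aux _ _ hVp (by rw [map_pow])
      · refine aux _ _ (vle V ?_ ?_) hxx2
        · rw [map_pow]; exact pow_le_one₀ zero_le hVp
        · rw [Valuation.map_neg, map_one]
      · rw [Valuation.map_neg]
        exact hVp.trans hx2
      · refine aux _ _ ?_ hVy
        rw [show (-2 : F) * q = -(2 * q) by ring, Valuation.map_neg]
        exact vlem V hV2.le hVq
    rw [map_mul, map_pow, h2, hVi] at h4
    have h5 : 1 * V x ^ 2 < V x * V x ^ 2 := by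
      have : 0 < V x ^ 2 := pow_pos hx0 2
      gcongr
    rw [one_mul] at h5
    exact absurd h4 (not_le.2 h5)

end Pool.Agent.Work.MP_8efaaa_nt.N5
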