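import Mathlib
import Pool.Agent.Work.MP_8efaaa_nt.N5.EKl
import Pool.Agent.Work.MP_8efaaa_nt.N5.NMi

/-!
# N5/EFr (S-M): the Fricke involution on the points

PROOF. `gpi_three` for `c` and for `mI S a * c`: with `V, U` for `c` and `V', U'` for `mI * c`, `i = ζ^2`: `φ^3 P(c) = (i/2 (1 - V^4)/V^2, (1-i)/4 U (1+V^4)/V^3)`. From `fr1`:
`V'^2 = -(1-V^2)/(1+V^2)` (`1 + V^2 ≠ 0`, else `fr1` gives `V^2 = 1` and `-1`), so `(1 - V'^4)/V'^2 = -4 V^2/(1 - V^4)`; from `fr2`: `U' = 2 i V V'/U` (`U ≠ 0`, since `V, V' ≠ 0`), `U^2 = 1 - V^4`. So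
`φ^3 P(mI c) = (-2 i V^2/(1 - V^4), -(1-i) i V (1+V^4)/(U (1-V^4)))`, which is `I (φ^3 P(c)) + (0,0)`: `I (x, y) = (-x, i y)` and `(x, y) + (0,0) = (-1/x, y/x^2)`. Hence `φ^3 (P(mI c) - I P(c)) = (0,0)` and
`φ^4 = 0` on the difference (`hI.gmod.gpi_T`); `gpi I` commutes with `I` (`gpi_I`).
`trans_n`: `tr1` with `y = 0`: `PP (span {n} * c)` is `PP c` or `PP c + (0,0)`, for every odd ideal `c`.
-/

set_option autoImplicit false

namespace Pool.Agent.Work.MP_8efaaa_nt.N5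

open NumberField Pool.Agent.Work.MP_8efaaa_nt.R
open scoped Classical

private theorem pt_add_T {F : Type*} [Field F] [CharZero F] {x y : F} (h : y ^ 2 = x ^ 3 - x)
    (hx : x ≠ 0) (h0 : (0 : F) ^ 2 = 0 ^ 3 - 0) :
    ∃ h', pt x y h + pt 0 0 h0 = pt (-1 / x) (y / x ^ 2) h' := by
  have hs : (cQ F).slope x 0 y 0 = y / x := by
    rw [WeierstrassCurve.Affine.slope_of_X_ne hx]
    simp
  have hX : (cQ F).addX x 0 (y / x) = -1 / x := by
    simp only [WeierstrassCurve.Affine.addX, cQ]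
    field_simp
    linear_combination h
  have hY : (cQ F).addY x 0 y (y / x) = y / x ^ 2 := by
    simp only [WeierstrassCurve.Affine.addY, WeierstrassCurve.Affine.negY,
      WeierstrassCurve.Affine.negAddY, hX]
    simp only [cQ]
    field_simp
    ring
  have hadd : pt x y h + pt 0 0 h0 = WeierstrassCurve.Affine.Point.some
      ((cQ F).addX x 0 (y / x)) ((cQ F).addY x 0 y (y / x)) (by
        rw [← hs]
        exact WeierstrassCurve.Affine.nonsingular_add (cQ_nonsingular.2 h) (cQ_nonsingular.2 h0)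
          (fun hc => hx hc.1)) := by
    unfold pt
    rw [WeierstrassCurve.Affine.Point.add_of_X_ne hx, WeierstrassCurve.Affine.Point.some.injEq, hs]
    exact ⟨rfl, rfl⟩
  refine ⟨?_, ?_⟩
  · rw [← hX, ← hY, ← cQ_nonsingular, ← hs]
    exact WeierstrassCurve.Affine.nonsingular_add (cQ_nonsingular.2 h) (cQ_nonsingular.2 h0)
          (fun hc => hx hc.1)
  · rw [hadd]
    unfold pt
    rw [WeierstrassCurve.Affine.Point.some.injEq]
    exact ⟨hX, hY⟩

private theorem iter_I {W : Type*} [AddCommGroup W] (I : W →+ W) (n : ℕ) (P : W) :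
    (gpi I)^[n] (I P) = I ((gpi I)^[n] P) := by
  induction n generalizing P with
  | zero => rfl
  | succ n ih => rw [Function.iterate_succ_apply, gpi_I, ih, ← Function.iterate_succ_apply]

theorem fricke_pt {K : Type*} {F : Type*} [Field K] [NumberField K] [Field F] [NumberField F]
    [Algebra K F] {a d : ℕ} {s : K} (hb : Base5 K a s) {S : 𝓞 K}
    (hS : algebraMap (𝓞 K) K S = s) {τ : 𝓞 K ≃+* 𝓞 K} {ζ w : F}
    {X Y V U : Ideal (𝓞 K) → F} {κ : F ≃ₐ[ℚ] F} (h : IDat K F a d s S τ ζ w X Y V U κ)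
    {I : (cQ F).Point →+ (cQ F).Point} (hI : CMI (ζ ^ 2) I) {c : Ideal (𝓞 K)}
    (hc : Ideal.absNorm c % 4 = 1) :
    (gpi I)^[4] (PP h.gd (mI S a * c) - I (PP h.gd c)) = 0 := by
  have hc1 := oddI_of_one hc
  have hm : OddI (mI S a) := by
    unfold OddI
    rw [norm_mI hb hS]
    have := hb.mod
    exact Nat.odd_iff.2 (by omega)
  have hc2 : OddI (mI S a * c) := oddI_mul'.2 ⟨hm, hc1⟩
  obtain ⟨a1, a2, a3, a4, a5⟩ := h.uv c hc1
  obtain ⟨b1, b2, b3, b4, b5⟩ := h.uv _ hc2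
  have f1 := h.fr1 c hc
  have f2 := h.fr2 c hc
  have hi := hI.i2
  have hi0 : ζ ^ 2 ≠ 0 := by
    intro h0
    rw [h0] at hi
    norm_num at hi
  rw [PP_eq h.gd hc1, PP_eq h.gd hc2]
  obtain ⟨e1, g1⟩ := gpi_three hI (h.gd.eqn c hc1) (h.gd.ne c hc1) a1 a2 a3 a4 a5
  obtain ⟨e2, g2⟩ := gpi_three hI (h.gd.eqn _ hc2) (h.gd.ne _ hc2) b1 b2 b3 b4 b5
  generalize V c = v at *
  generalize U c = u at *
  generalize V (mI S a * c) = v' at *
  generalize U (mI S a * c) = u' at *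
  generalize ζ ^ 2 = i at *
  have hu : u ≠ 0 := by
    rintro rfl
    rw [mul_zero] at f2
    exact mul_ne_zero (mul_ne_zero (mul_ne_zero two_ne_zero hi0) a1) b1 f2.symm
  have hu2 : u ^ 2 = (1 - v ^ 2) * (1 + v ^ 2) := by linear_combination a2
  have h1 : 1 - v ^ 2 ≠ 0 := by
    intro h0
    rw [h0, zero_mul] at hu2
    exact hu (pow_eq_zero_iff two_ne_zero |>.1 hu2)
  have h2 : 1 + v ^ 2 ≠ 0 := by
    intro h0
    rw [h0, mul_zero] at hu2
    exact hu (pow_eq_zero_iff two_ne_zero |>.1 hu2)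
  have h4 : 1 - v ^ 4 ≠ 0 := by
    have : 1 - v ^ 4 = (1 - v ^ 2) * (1 + v ^ 2) := by ring
    rw [this]
    exact mul_ne_zero h1 h2
  have hv' : v' ^ 2 = -(1 - v ^ 2) / (1 + v ^ 2) := by
    rw [eq_div_iff h2]
    exact f1
  have hx0 : -(i / 2 * ((1 - v ^ 4) / v ^ 2)) ≠ 0 :=
    neg_ne_zero.2 (mul_ne_zero (div_ne_zero hi0 two_ne_zero)
      (div_ne_zero h4 (pow_ne_zero 2 a1)))
  have hIpt := hI.pt e1
  obtain ⟨e3, g3⟩ := pt_add_T (hI.i_eq e1) hx0 (by ring)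
  have key : (gpi I)^[3] (pt (X (mI S a * c)) (Y (mI S a * c)) (h.gd.eqn _ hc2)) =
      I ((gpi I)^[3] (pt (X c) (Y c) (h.gd.eqn c hc1))) + pt 0 0 (by ring) := by
    rw [g1, g2, hIpt, g3, pt_inj]
    constructor
    · have h5 : (1 - v' ^ 4) / v' ^ 2 = -(4 * v ^ 2) / (1 - v ^ 4) := by
        have h6 : v' ^ 4 = (v' ^ 2) ^ 2 := by ring
        rw [h6, hv']
        have h7 : 1 - v ^ 4 = (1 - v ^ 2) * (1 + v ^ 2) := by ring
        rw [h7]
        have h8 : -(1 - v ^ 2) ≠ 0 := neg_ne_zero.2 h1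
        field_simp
        ring
      rw [h5]
      field_simp
      linear_combination (-4 : F) * hi
    · have h9 : u' / v' = 2 * i * v / u := by
        rw [div_eq_div_iff b1 hu]
        linear_combination f2
      have h10 : u' * (1 + v' ^ 4) / v' ^ 3 = (u' / v') * ((1 + (v' ^ 2) ^ 2) / v' ^ 2) := by
        field_simp
      have h11 : (1 + (v' ^ 2) ^ 2) / v' ^ 2 = -(2 * (1 + v ^ 4)) / (1 - v ^ 4) := by
        rw [hv']
        have h7 : 1 - v ^ 4 = (1 - v ^ 2) * (1 + v ^ 2) := by ring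
        rw [h7]
        have h8 : -(1 - v ^ 2) ≠ 0 := neg_ne_zero.2 h1
        field_simp
        ring
      rw [h10, h9, h11]
      have h12 : u ^ 2 = 1 - v ^ 4 := by linear_combination a2
      have h13 : (i / 2 * ((1 - v ^ 4) / v ^ 2)) ^ 2 = -(1 - v ^ 4) ^ 2 / (4 * v ^ 4) := by
        field_simp
        linear_combination (4 : F) * hi
      rw [neg_sq, h13]
      field_simp
      linear_combination (4 * (1 - i) * (1 + v ^ 4)) * h12
  have h14 : (gpi I)^[3] (pt (X (mI S a * c)) (Y (mI S a * c)) (h.gd.eqn _ hc2) -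
      I (pt (X c) (Y c) (h.gd.eqn c hc1))) = pt 0 0 (by ring) := by
    rw [iter_sub, iter_I, key]
    abel
  rw [Function.iterate_succ_apply', h14]
  exact hI.gmod.gpi_T

theorem trans_n {K : Type*} {F : Type*} [Field K] [NumberField K] [Field F] [CharZero F]
    [Algebra K F] {s : K} {ζ : F} {X Y : Ideal (𝓞 K) → F} (hG : GDat K F s ζ X Y)
    {I : (cQ F).Point →+ (cQ F).Point} (hI : CMI (ζ ^ 2) I) {n : ℕ} (hn : Odd n)
    {c : Ideal (𝓞 K)} (hc : OddI c) :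
    gpi I (PP hG (Ideal.span {(n : 𝓞 K)} * c) - PP hG c) = 0 := by
  have hN : OddI (Ideal.span {(n : 𝓞 K)}) := by
    unfold OddI
    rw [Ideal.absNorm_span_natCast]
    exact hn.pow
  have hc2 : OddI (Ideal.span {(n : 𝓞 K)} * c) := oddI_mul'.2 ⟨hN, hc⟩
  obtain ⟨t1, t2⟩ := hG.tr1 n 0 (n : 𝓞 K) (by exact_mod_cast hn) (by simp) c hc
  rw [PP_eq hG hc, PP_eq hG hc2]
  by_cases he : e8 ((n : ℤ) + 4 * 0) = 1
  · obtain ⟨u1, u2⟩ := t1 he
    have : pt (X (Ideal.span {(n : 𝓞 K)} * c)) (Y (Ideal.span {(n : 𝓞 K)} * c))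
        (hG.eqn _ hc2) = pt (X c) (Y c) (hG.eqn c hc) := pt_inj.2 ⟨u1, u2⟩
    rw [this, sub_self, map_zero]
  · have he' : e8 ((n : ℤ) + 4 * 0) = -1 := by
      unfold e8 at he ⊢
      split_ifs at he ⊢ with h
      · exact absurd rfl he
      · rfl
    obtain ⟨u1, u2⟩ := t2 he'
    obtain ⟨h', g⟩ := pt_add_T (hG.eqn c hc) (hG.ne c hc) (by ring)
    have : pt (X (Ideal.span {(n : 𝓞 K)} * c)) (Y (Ideal.span {(n : 𝓞 K)} * c))
        (hG.eqn _ hc2) = pt (X c) (Y c) (hG.eqn c hc) + pt 0 0 (by ring) := by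
      rw [g]
      exact pt_inj.2 ⟨u1, u2⟩
    rw [this, add_sub_cancel_left]
    exact hI.gmod.gpi_T

end Pool.Agent.Work.MP_8efaaa_nt.N5
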