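import Mathlib
import Pool.Agent.Work.MP_8efaaa_nt.R.FMain
import Pool.Agent.Work.MP_8efaaa_nt.N5.EKl

/-!
# N5/ETor (S-M): the sum over `S0` is a torsion point

PROOF. The proof of `exists_sum` (R/FSum.lean) works for every subgroup `S0` and every choice `r` of representatives as below and gives the two properties
used in `main_F` (R/FMain.lean) to prove `f5 : (gpi I)^[4] R = 0`. Copy both proofs (`four_R` is private in FMain: copy it, or make it a theorem here).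
-/

set_option autoImplicit false

namespace Pool.Agent.Work.MP_8efaaa_nt.N5

open NumberField Pool.Agent.Work.MP_8efaaa_nt.R
open scoped Classical nonZeroDivisors

universe u v

private theorem four_R {K : Type u} {F : Type v} [Field K] [NumberField K] [Field F] [Algebra K F]
    [CharZero F] {a : ℕ} {s : K} {ζ : F} {X Y : Ideal (𝓞 K) → F} (hb : Base5 K a s)
    [FiniteDimensional K F] [IsGalois K F]
    (hG : GDat K F s ζ X Y) (hnc : ¬ IsCongruent a) {I : (cQ F).Point →+ (cQ F).Point}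
    (hI : CMI (ζ ^ 2) I) {g : F ≃ₐ[K] F} (hg : g (ζ ^ 2) = -ζ ^ 2) {P : (cQ F).Point}
    (hP : ∀ σ : F ≃ₐ[K] F, σ (ζ ^ 2) = ζ ^ 2 → gal σ P = P) : (4 : ℤ) • P = 0 := by
  have hi : ∀ σ : F ≃ₐ[K] F, σ (ζ ^ 2) = ζ ^ 2 ∨ σ (ζ ^ 2) = -ζ ^ 2 := by
    intro σ
    apply sq_eq_sq_iff_eq_or_eq_neg.1
    rw [← map_pow, i_sq hG.z8, map_neg, map_one]
  have kpt : ∀ Q : (cQ F).Point, (∀ σ : F ≃ₐ[K] F, gal σ Q = Q) → (2 : ℤ) • Q = 0 := by
    intro Q hQ
    rcases fixed_pt hQ with rfl | ⟨x, y, h, rfl⟩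
    · exact smul_zero _
    · have h1 : y ^ 2 = x ^ 3 - x := by
        apply (algebraMap K F).injective
        rw [map_pow, h, map_sub, map_pow]
      have h2 : algebraMap K F y = 0 := by
        rw [tor_K5 hb hnc h1, map_zero]
      rw [two_zsmul]
      exact double_zero _ h2
  have h1 : ∀ σ : F ≃ₐ[K] F, σ (ζ ^ 2) = -ζ ^ 2 → gal σ P = gal g P := by
    intro σ hσ
    have h2 : σ = g * (g⁻¹ * σ) := by rw [mul_inv_cancel_left]
    rw [h2, gal_mul, hP]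
    show g.symm (σ (ζ ^ 2)) = ζ ^ 2
    rw [hσ, ← hg, AlgEquiv.symm_apply_apply]
  have h2 : ∀ σ : F ≃ₐ[K] F, σ (ζ ^ 2) = ζ ^ 2 → gal σ (gal g P) = gal g P := by
    intro σ hσ
    rw [← gal_mul]
    apply h1
    show σ (g (ζ ^ 2)) = _
    rw [hg, map_neg, hσ]
  have h3 : ∀ σ : F ≃ₐ[K] F, σ (ζ ^ 2) = -ζ ^ 2 → gal σ (gal g P) = P := by
    intro σ hσ
    rw [← gal_mul]
    apply hP
    show σ (g (ζ ^ 2)) = _
    rw [hg, map_neg, hσ, neg_neg]
  have k1 := kpt (P + gal g P) (by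
    intro σ
    rw [map_add]
    rcases hi σ with hσ | hσ
    · rw [hP σ hσ, h2 σ hσ]
    · rw [h1 σ hσ, h3 σ hσ, add_comm])
  have k2 := kpt (I (P - gal g P)) (by
    intro σ
    rcases hi σ with hσ | hσ
    · rw [hI.gal_comm hσ, map_sub, hP σ hσ, h2 σ hσ]
    · rw [hI.gal_anti hσ, map_sub, h1 σ hσ, h3 σ hσ, ← map_neg, neg_sub])
  have k3 : (2 : ℤ) • (P - gal g P) = 0 := by
    have h4 := congrArg I k2
    rw [map_zsmul, hI.sq, map_zero, smul_neg, neg_eq_zero] at h4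
    exact h4
  have h5 : (4 : ℤ) • P = (2 : ℤ) • (P + gal g P) + (2 : ℤ) • (P - gal g P) := by
    simp only [smul_add, smul_sub]
    have : (4 : ℤ) • P = (2 : ℤ) • P + (2 : ℤ) • P := by
      rw [← add_smul]
      norm_num
    rw [this]
    abel
  rw [h5, k1, k3, add_zero]

private theorem sum_props {K : Type u} {F : Type v} [Field K] [NumberField K] [Field F]
    [Algebra K F] [CharZero F] {a : ℕ} {s : K} (hb : Base5 K a s)
    {ζ : F} {X Y : Ideal (𝓞 K) → F} (hG : GDat K F s ζ X Y)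
    (S0 : Subgroup (ClassGroup (𝓞 K))) (hS0 : 2 * Nat.card S0 = Fintype.card (ClassGroup (𝓞 K)))
    (hS1 : ∀ b : Ideal (𝓞 K), Ideal.absNorm b % 4 = 1 → kl b ∈ S0)
    (r : S0 → Ideal (𝓞 K)) (hr1 : ∀ C, Ideal.absNorm (r C) % 4 = 1)
    (hr2 : ∀ C : S0, kl (r C) = C) :
    (∀ (σ : F ≃ₐ[K] F) (d : Ideal (𝓞 K)) (α : 𝓞 K), Ideal.absNorm d % 4 = 1 → ActsBy X Y σ d →
      d ^ hn K = Ideal.span {α} →
      gal σ (∑ C, PP hG (r C)) = (∑ C, PP hG (r C)) + tt hG (Ideal.span {α})) ∧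
    ∀ (σ τ : F ≃ₐ[K] F) (d e : Ideal (𝓞 K)), OddI d → OddI e → ActsBy X Y σ d → ActsBy X Y τ e →
      gal σ (gal τ (∑ C, PP hG (r C))) = gal τ (gal σ (∑ C, PP hG (r C))) := by
  have hodd : ∀ C : S0, OddI (r C) := fun C => oddI_of_one (hr1 C)
  have hr0 : ∀ C : S0, r C ∈ (Ideal (𝓞 K))⁰ := fun C => ne_bot_of_odd (hodd C)
  have hcard : Fintype.card S0 = hn K := by
    rw [← Nat.card_eq_fintype_card]
    unfold hn
    omega
  refine ⟨?_, ?_⟩
  · intro σ d α hd hσ hα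
    have hd' := oddI_of_one hd
    have hd0 := ne_bot_of_odd hd'
    obtain ⟨D, hD⟩ : ∃ D : S0, (D : ClassGroup (𝓞 K)) = kl d := ⟨⟨kl d, hS1 d hd⟩, rfl⟩
    have key : ∀ C : S0, ∃ p q : 𝓞 K, OddI (Ideal.span {p}) ∧ OddI (Ideal.span {q}) ∧
        Ideal.span {p} * (d * r C) = Ideal.span {q} * r (D * C) := by
      intro C
      have h1 := equiv_odd hb (b := ⟨d, hd0⟩ * ⟨r C, hr0 C⟩) (b' := ⟨r (D * C), hr0 (D * C)⟩)
        (oddI_mul'.2 ⟨hd', hodd C⟩) (hodd (D * C)) (by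
          rw [map_mul, ← kl_mk0 hd0, ← kl_mk0 (hr0 C), ← kl_mk0 (hr0 (D * C)), hr2, hr2, ← hD]
          rfl)
      exact h1
    choose p q hp hq hpq using key
    have h1 : ∀ C : S0, gal σ (PP hG (r C)) = PP hG (r (D * C)) +
        tt hG (Ideal.span {q C}) - tt hG (Ideal.span {p C}) := by
      intro C
      have e1 := shift hG (b := d * r C) (by
        rw [map_mul, Nat.mul_mod, hd, hr1 C]) (hp C)
      have e2 := shift hG (hr1 (D * C)) (hq C)
      rw [hpq, e2] at e1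
      rw [gal_PP hG hσ hd' (hodd C), e1, add_sub_cancel_right]
    rw [map_sum, Finset.sum_congr rfl (fun C _ => h1 C), Finset.sum_sub_distrib,
      Finset.sum_add_distrib]
    have h2 : ∑ C : S0, PP hG (r (D * C)) = ∑ C : S0, PP hG (r C) :=
      Equiv.sum_comp (Equiv.mulLeft D) (fun C : S0 => PP hG (r C))
    obtain ⟨h3, h4⟩ := tt_prod hb hG Finset.univ p hp
    obtain ⟨h5, h6⟩ := tt_prod hb hG Finset.univ q hq
    have h7 : Ideal.span {∏ C : S0, p C} * Ideal.span {α} = Ideal.span {∏ C : S0, q C} := by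
      have h8 : ∏ C : S0, (Ideal.span {p C} * (d * r C)) =
          ∏ C : S0, (Ideal.span {q C} * r (D * C)) :=
        Finset.prod_congr rfl (fun C _ => hpq C)
      have h9 : ∏ C : S0, r (D * C) = ∏ C : S0, r C :=
        Equiv.prod_comp (Equiv.mulLeft D) (fun C : S0 => r C)
      rw [Finset.prod_mul_distrib, Finset.prod_mul_distrib, Finset.prod_mul_distrib, h9,
        Finset.prod_const, Finset.card_univ, hcard, hα, Ideal.prod_span_singleton,
        Ideal.prod_span_singleton, ← mul_assoc] at h8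
      refine mul_right_cancel₀ ?_ h8
      rw [Finset.prod_ne_zero_iff]
      exact fun C _ => nonZeroDivisors.ne_zero (hr0 C)
    have h10 : OddI (Ideal.span {α}) := (oddI_mul'.1 (h7 ▸ h5)).2
    have h11 := tt_mul hb hG h3 h10
    rw [h7, h6, h4] at h11
    rw [h2, h11]
    abel
  · intro σ τ d e hd he hσ hτ
    rw [map_sum, map_sum, map_sum, map_sum]
    refine Finset.sum_congr rfl (fun C _ => ?_)
    rw [gal_PP hG hτ he (hodd C), gal_PP hG hσ hd (oddI_mul'.2 ⟨he, hodd C⟩),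
      gal_PP hG hσ hd (hodd C), gal_PP hG hτ he (oddI_mul'.2 ⟨hd, hodd C⟩), mul_left_comm]

theorem half_tor {K : Type u} {F : Type v} [Field K] [NumberField K] [Field F] [Algebra K F]
    [CharZero F] [FiniteDimensional K F] [IsGalois K F] {a : ℕ} {s : K} (hb : Base5 K a s)
    {ζ : F} {X Y : Ideal (𝓞 K) → F} (hG : GDat K F s ζ X Y) (hnc : ¬ IsCongruent a)
    {I : (cQ F).Point →+ (cQ F).Point} (hI : CMI (ζ ^ 2) I)
    (S0 : Subgroup (ClassGroup (𝓞 K))) (hS0 : 2 * Nat.card S0 = Fintype.card (ClassGroup (𝓞 K)))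
    (hS1 : ∀ b : Ideal (𝓞 K), Ideal.absNorm b % 4 = 1 → kl b ∈ S0)
    (r : S0 → Ideal (𝓞 K)) (hr1 : ∀ C, Ideal.absNorm (r C) % 4 = 1)
    (hr2 : ∀ C : S0, kl (r C) = C) : (gpi I)^[4] (∑ C, PP hG (r C)) = 0 := by
  obtain ⟨hR1, hR2⟩ := sum_props hb hG S0 hS0 hS1 r hr1 hr2
  revert hR1 hR2
  generalize ∑ C, PP hG (r C) = R
  intro hR1 hR2
  -- the image under `(1 + i) ^ 3`
  have f1 : ∀ σ : F ≃ₐ[K] F, σ (ζ ^ 2) = ζ ^ 2 → gal σ ((gpi I)^[3] R) = (gpi I)^[3] R := by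
    intro σ hσ
    obtain ⟨d, hd, hact⟩ := hG.act1 σ hσ
    obtain ⟨α, hα⟩ := pow_hn hb hd
    have hα' : OddI (Ideal.span {α}) := by
      rw [← hα]
      unfold OddI
      rw [map_pow]
      exact (oddI_of_one hd).pow
    rw [iter_comm (hI.gal_comm hσ), hR1 σ d α hd hact hα, iter_add, three_tt hG hI hα', add_zero]
  obtain ⟨d3, hd3⟩ := exists_three hb
  have hd3' : OddI d3 := Nat.odd_iff.2 (by omega)
  obtain ⟨g, hg1, hg2⟩ := hG.act2 d3 hd3'
  have hgi := map_i_three hG.z8 hg1 hd3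
  obtain ⟨d5, hd5⟩ := exists_five hb
  have hd5' : OddI d5 := Nat.odd_iff.2 (by omega)
  obtain ⟨τ, hτ1, hτ2⟩ := hG.act2 d5 hd5'
  have hτi := map_i_one hG.z8 hτ1 (by omega)
  have hτr := map_rt_five hG.z8 hτ1 hd5
  have f2 : (gpi I)^[4] ((gpi I)^[3] R) = 0 := by
    rw [hI.gmod.gpi_four, four_R hb hG hnc hI hgi f1, neg_zero]
  have f3 : (gpi I)^[3] ((gpi I)^[3] R) = 0 :=
    hI.four_three (rt_sq hG.z8) hτi hτr f2 (f1 τ hτi)
  have f4 : (8 : ℤ) • R = 0 := by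
    have h6 := hI.gmod.gpi_six R
    have h7 : (gpi I)^[6] R = 0 := by
      rw [show (6 : ℕ) = 3 + 3 from rfl, Function.iterate_add_apply]
      exact f3
    rw [h7] at h6
    have h8 := congrArg I h6
    rw [map_zero, map_neg, map_zsmul, hI.sq, smul_neg, neg_neg] at h8
    exact h8.symm
  exact four_torsion hI.gmod (hI.gal_comm hτi) (hI.gal_anti hgi) (fun P hP => gal_inj g hP)
      (gpi_A hI.i2 hI.sq hI.some) (hI.gal_A hτi) (gpi_B (rt_sq hG.z8) hI.sq hI.some)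
      (CMI.gal_B' (rt_sq hG.z8) hτr) f4 (hR2 g τ d3 d5 hd3' hd5' hg2 hτ2)

end Pool.Agent.Work.MP_8efaaa_nt.N5
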