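import Mathlib
import Pool.Agent.Work.MP_8efaaa_nt.N5.EQt
import Pool.Agent.Work.MP_8efaaa_nt.N5.ETor
import Pool.Agent.Work.MP_8efaaa_nt.N5.EIo
import Pool.Agent.Work.MP_8efaaa_nt.N5.EFr
import Pool.Agent.Work.MP_8efaaa_nt.N5.DRed

/-!
# N5/EIR (M): the inertia element fixes the sum over `S`

`φ = gpi I`. PROOF. `m := mI S a`, `n := (1 + a)/2 = N m = 3 (mod 4)`. For `C ∈ S`, `c = r C`: `gal ι (PP c) = I (PP (b cj c))`. Let `y = cj m * b * cj c`, `N y = N m N b N c = 3 * 3 * 1 = 1 (mod 4)`; `m * y = (n) * (b * cj c)`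
(`norm_cj`: `m * cj m = (n)`). `fricke_pt` for `y`: `PP (m y) = I (PP y) + t`, `φ^4 t = 0`; `trans_n`: `PP (m y) = PP (b cj c) + t'`, `φ t' = 0`. So `gal ι (PP c) = I (I (PP y) + ..) = -PP y + t''`, `φ^4 t'' = 0` (`φ` commutes with `I`).
Sum: `gal ι R + ∑ PP (y_C) ∈ ker φ^4`. `kl (y_C) = g C⁻¹` with `g = kl (cj m * b) ∈ S0`, `g ∉ S`, since `jacobiSym d (N (cj m * b)) = jacobiSym d n * jacobiSym d (N b) = -1` (`jac_mi`; `N m = n` is prime to `a`:
`2 n = 1 + a`). `sum_compare` with `r (g C⁻¹)`: `∑ PP (y_C) - ∑ PP (r (g C⁻¹)) ∈ ker φ^3` (`three_tt`), and `∑_{C ∈ S} PP (r (g C⁻¹)) = ∑_{C ∈ S} PP (r (g C))` (`C ↦ C⁻¹`). `S0` is the disjoint union of `S` and `g S`: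
`R + ∑_{C ∈ S} PP (r (g C)) = ∑_{S0} PP (r C) ∈ ker φ^4` (`half_tor`). So `gal ι R - R ∈ ker φ^4`, `φ^4 = -4` (`gpi_four`), and `red`.
-/

set_option autoImplicit false

namespace Pool.Agent.Work.MP_8efaaa_nt.N5

open NumberField Pool.Agent.Work.MP_8efaaa_nt.R
open scoped Classical nonZeroDivisors

private theorem iter_sub' {V : Type*} [AddCommGroup V] (f : V →+ V) (n : ℕ) (P Q : V) :
    f^[n] (P - Q) = f^[n] P - f^[n] Q := by
  have := iter_add f n (P - Q) Q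
  rw [sub_add_cancel] at this
  rw [this, add_sub_cancel_right]

private theorem iter_I' {W : Type*} [AddCommGroup W] (I : W →+ W) (n : ℕ) (P : W) :
    (gpi I)^[n] (I P) = I ((gpi I)^[n] P) := by
  induction n generalizing P with
  | zero => rfl
  | succ n ih => rw [Function.iterate_succ_apply, gpi_I, ih, ← Function.iterate_succ_apply]

private theorem iter_sum' {V : Type*} [AddCommGroup V] (f : V →+ V) (n : ℕ) {J : Type*}
    (T : Finset J) (P : J → V) (h : ∀ j ∈ T, f^[n] (P j) = 0) : f^[n] (∑ j ∈ T, P j) = 0 := by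
  induction T using Finset.induction_on with
  | empty => rw [Finset.sum_empty, iter_zero]
  | insert j T hj ih =>
    rw [Finset.sum_insert hj, iter_add, h j (Finset.mem_insert_self _ _),
      ih fun k hk => h k (Finset.mem_insert_of_mem hk), add_zero]

/-- sum over a subgroup of index two -/
private theorem sum_two {G : Type*} [CommGroup G] [Fintype G] {V : Type*} [AddCommGroup V]
    (S0 S1 : Subgroup G) (hle : S1 ≤ S0) (g : G) (hg0 : g ∈ S0) (hg1 : g ∉ S1)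
    (h3 : ∀ C : G, C ∈ S0 → C ∉ S1 → g⁻¹ * C ∈ S1) (f : G → V) :
    ∑ C : S0, f C = ∑ C : S1, f C + ∑ C : S1, f (g * C) := by
  have e3 : ∑ C ∈ Finset.univ.filter (fun x => x ∈ S1), f (g * C) =
      ∑ C ∈ (Finset.univ.filter fun x => x ∈ S1).image (fun C => g * C), f C := by
    rw [Finset.sum_image]
    intro x _ y _ hxy
    exact mul_left_cancel hxy
  have e4 : (Finset.univ.filter fun x => x ∈ S0) = (Finset.univ.filter fun x => x ∈ S1) ∪
      (Finset.univ.filter fun x => x ∈ S1).image (fun C => g * C) := by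
    ext C
    simp only [Finset.mem_filter, Finset.mem_univ, true_and, Finset.mem_union, Finset.mem_image]
    constructor
    · intro hC
      by_cases hC1 : C ∈ S1
      · exact Or.inl hC1
      · exact Or.inr ⟨g⁻¹ * C, h3 C hC hC1, by rw [mul_inv_cancel_left]⟩
    · rintro (hC | ⟨D, hD, rfl⟩)
      · exact hle hC
      · exact S0.mul_mem hg0 (hle hD)
  have e5 : Disjoint (Finset.univ.filter fun x => x ∈ S1)
      ((Finset.univ.filter fun x => x ∈ S1).image (fun C => g * C)) := by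
    rw [Finset.disjoint_left]
    intro C hC hC'
    simp only [Finset.mem_filter, Finset.mem_univ, true_and, Finset.mem_image] at hC hC'
    obtain ⟨D, hD, rfl⟩ := hC'
    have := S1.mul_mem hC (S1.inv_mem hD)
    rw [mul_inv_cancel_right] at this
    exact hg1 this
  have e6 : ∑ C ∈ Finset.univ.filter (fun x => x ∈ S0), f C = ∑ C : S0, f C :=
    Finset.sum_subtype (p := fun x => x ∈ S0) _ (fun x => by simp) f
  have e7 : ∑ C ∈ Finset.univ.filter (fun x => x ∈ S1), f C = ∑ C : S1, f C :=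
    Finset.sum_subtype (p := fun x => x ∈ S1) _ (fun x => by simp) f
  have e8 : ∑ C ∈ Finset.univ.filter (fun x => x ∈ S1), f (g * C) = ∑ C : S1, f (g * C) :=
    Finset.sum_subtype (p := fun x => x ∈ S1) _ (fun x => by simp) (fun C => f (g * C))
  rw [← e6, ← e7, ← e8, e3, e4, Finset.sum_union e5]

theorem iota_R {K : Type*} {F : Type*} [Field K] [NumberField K] [Field F] [NumberField F]
    [Algebra K F] [FiniteDimensional K F] [IsGalois K F] {a d : ℕ} {s : K} (hb : Base5 K a s)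
    (hnc : ¬ IsCongruent a) {S : 𝓞 K}
    (hS : algebraMap (𝓞 K) K S = s) {τ : 𝓞 K ≃+* 𝓞 K} (hτ : τ S = -S) {ζ w : F}
    {X Y V U : Ideal (𝓞 K) → F} {κ : F ≃ₐ[ℚ] F} (h : IDat K F a d s S τ ζ w X Y V U κ)
    (hda : d ∣ a) (hd8 : d % 8 = 1 ∨ d % 8 = 3)
    {I : (cQ F).Point →+ (cQ F).Point} (hI : CMI (ζ ^ 2) I) {ι : F ≃ₐ[ℚ] F} {L : Ideal (𝓞 F)}
    (hin : Inert ι L) {b : Ideal (𝓞 K)} (hb7 : Ideal.absNorm b % 8 = 7)
    (hba : Nat.Coprime (Ideal.absNorm b) a) (hbj : jacobiSym d (Ideal.absNorm b) = -1)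
    (hi1 : ∀ c, Ideal.absNorm c % 4 = 1 → gal ι (PP h.gd c) = I (PP h.gd (b * cj τ c)))
    (S0 S1 : Subgroup (ClassGroup (𝓞 K))) (hle : S1 ≤ S0)
    (h0 : 2 * Nat.card S0 = Fintype.card (ClassGroup (𝓞 K)))
    (h1 : ∀ b : Ideal (𝓞 K), Ideal.absNorm b % 4 = 1 → kl b ∈ S0)
    (h2 : ∀ b : Ideal (𝓞 K), Ideal.absNorm b % 4 = 1 → Nat.Coprime (Ideal.absNorm b) a →
        (kl b ∈ S1 ↔ jacobiSym d (Ideal.absNorm b) = 1))
    (h3 : ∀ C g : ClassGroup (𝓞 K), C ∈ S0 → g ∈ S0 → g ∉ S1 → C ∉ S1 → g⁻¹ * C ∈ S1)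
    (r : ClassGroup (𝓞 K) → Ideal (𝓞 K)) (hr1 : ∀ C ∈ S0, Ideal.absNorm (r C) % 4 = 1)
    (hr2 : ∀ C ∈ S0, kl (r C) = C) :
    gal ι (∑ C : S1, PP h.gd (r C)) = ∑ C : S1, PP h.gd (r C) := by
  have ha5 := hb.mod
  have hnm := norm_mI hb hS
  obtain ⟨n, hn⟩ : ∃ n : ℕ, (1 + a) / 2 = n := ⟨_, rfl⟩
  have hn2 : 2 * n = 1 + a := by omega
  have hn4 : n % 4 = 3 := by omega
  rw [hn] at hnm
  obtain ⟨m1, m2, -⟩ := norm_cj hb hS hτ (mI S a)
  rw [hnm] at m1 m2
  have hnc' : Nat.Coprime n a := by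
    have e1 : Nat.Coprime (1 + a) a := by simp
    exact Nat.Coprime.coprime_dvd_left ⟨2, by omega⟩ e1
  -- the ideal `cj m * b`
  have hgN : Ideal.absNorm (cj τ (mI S a) * b) = n * Ideal.absNorm b := by
    rw [map_mul, m1]
  have hg4 : Ideal.absNorm (cj τ (mI S a) * b) % 4 = 1 := by
    rw [hgN, Nat.mul_mod, hn4]
    have : Ideal.absNorm b % 4 = 3 := by omega
    rw [this]
  have hgo := oddI_of_one hg4
  set g := kl (cj τ (mI S a) * b) with hg
  have hg0 : g ∈ S0 := h1 _ hg4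
  have hg1 : g ∉ S1 := by
    rw [hg, h2 _ hg4 (by rw [hgN]; exact Nat.Coprime.mul_left hnc' hba), hgN,
      jacobiSym.mul_right' _ (by omega) (by omega), hbj]
    have hj := jac_mi ha5 hda hd8
    rw [hn] at hj
    rw [hj]
    norm_num
  -- the ideals `y`
  have key : ∀ c : Ideal (𝓞 K), Ideal.absNorm c % 4 = 1 →
      Ideal.absNorm (cj τ (mI S a) * b * cj τ c) % 4 = 1 ∧
      kl (cj τ (mI S a) * b * cj τ c) = g * (kl c)⁻¹ ∧
      (gpi I)^[4] (gal ι (PP h.gd c) + PP h.gd (cj τ (mI S a) * b * cj τ c)) = 0 := by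
    intro c hc
    obtain ⟨c1, c2, -⟩ := norm_cj hb hS hτ c
    have hco := oddI_of_one hc
    have hco' : OddI (cj τ c) := oddI_of_one (by rw [c1]; exact hc)
    have hy4 : Ideal.absNorm (cj τ (mI S a) * b * cj τ c) % 4 = 1 := by
      rw [map_mul, c1, Nat.mul_mod, hg4, hc]
    refine ⟨hy4, ?_, ?_⟩
    · rw [kl_mul hgo hco', kl_inv hco hco' c2]
    · have hbo : OddI b := Nat.odd_iff.2 (by omega)
      have f1 := fricke_pt hb hS h hI hy4
      have hno : Odd n := Nat.odd_iff.2 (by omega)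
      have f2 := trans_n h.gd hI hno (oddI_mul'.2 ⟨hbo, hco'⟩)
      have e1 : mI S a * (cj τ (mI S a) * b * cj τ c) =
          Ideal.span {(n : 𝓞 K)} * (b * cj τ c) := by
        rw [← m2, mul_assoc, mul_assoc]
      rw [e1] at f1
      have f3 : (gpi I)^[4] (PP h.gd (Ideal.span {(n : 𝓞 K)} * (b * cj τ c)) -
          PP h.gd (b * cj τ c)) = 0 := by
        rw [show 4 = 3 + 1 from rfl, Function.iterate_succ_apply, f2, iter_zero]
      have f4 : (gpi I)^[4] (PP h.gd (b * cj τ c) -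
          I (PP h.gd (cj τ (mI S a) * b * cj τ c))) = 0 := by
        have e2 : PP h.gd (b * cj τ c) - I (PP h.gd (cj τ (mI S a) * b * cj τ c)) =
          (PP h.gd (Ideal.span {(n : 𝓞 K)} * (b * cj τ c)) -
            I (PP h.gd (cj τ (mI S a) * b * cj τ c))) -
          (PP h.gd (Ideal.span {(n : 𝓞 K)} * (b * cj τ c)) - PP h.gd (b * cj τ c)) := by abel
        rw [e2, iter_sub', f1, f3, sub_zero]
      have f5 := congrArg I f4
      rw [← iter_I', map_zero, map_sub, hI.sq, sub_neg_eq_add] at f5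
      rw [hi1 c hc]
      exact f5
  -- sums
  have hS1 : ∀ C : S1, (C : ClassGroup (𝓞 K)) ∈ S0 := fun C => hle C.2
  have hinv : ∀ C : S1, g * (C : ClassGroup (𝓞 K))⁻¹ ∈ S0 := fun C =>
    S0.mul_mem hg0 (S0.inv_mem (hS1 C))
  have s1 : (gpi I)^[4] (gal ι (∑ C : S1, PP h.gd (r C)) +
      ∑ C : S1, PP h.gd (cj τ (mI S a) * b * cj τ (r C))) = 0 := by
    rw [map_sum, ← Finset.sum_add_distrib]
    exact iter_sum' _ _ _ _ fun C _ => (key (r C) (hr1 C (hS1 C))).2.2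
  obtain ⟨p, q, hp, hq, -, s2⟩ := sum_compare hb h.gd
    (fun C : S1 => cj τ (mI S a) * b * cj τ (r C))
    (fun C : S1 => r (g * (C : ClassGroup (𝓞 K))⁻¹))
    (fun C => (key (r C) (hr1 C (hS1 C))).1) (fun C => hr1 _ (hinv C)) (fun C => by
      rw [(key (r C) (hr1 C (hS1 C))).2.1, hr2 _ (hinv C), hr2 C (hS1 C)])
  have s3 : (gpi I)^[4] (∑ C : S1, PP h.gd (cj τ (mI S a) * b * cj τ (r C)) -
      ∑ C : S1, PP h.gd (r (g * (C : ClassGroup (𝓞 K))⁻¹))) = 0 := by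
    have e1 : ∑ C : S1, PP h.gd (cj τ (mI S a) * b * cj τ (r C)) -
      ∑ C : S1, PP h.gd (r (g * (C : ClassGroup (𝓞 K))⁻¹)) =
        tt h.gd (Ideal.span {q}) - tt h.gd (Ideal.span {p}) := by
      rw [s2]
      abel
    rw [e1, Function.iterate_succ_apply', iter_sub', three_tt h.gd hI hp, three_tt h.gd hI hq,
      sub_zero, map_zero]
  have s4 : ∑ C : S1, PP h.gd (r (g * (C : ClassGroup (𝓞 K))⁻¹)) =
      ∑ C : S1, PP h.gd (r (g * (C : ClassGroup (𝓞 K)))) := by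
    refine Fintype.sum_equiv (Equiv.inv S1) _ _ fun C => ?_
    rfl
  have s5 := sum_two S0 S1 hle g hg0 hg1 (fun C hC hC' => h3 C g hC hg0 hg1 hC')
    (fun C => PP h.gd (r C))
  have s6 := half_tor hb h.gd hnc hI S0 h0 h1 (fun C => r C) (fun C => hr1 C C.2)
    (fun C => hr2 C C.2)
  rw [s5] at s6
  have s7 : (gpi I)^[4] (gal ι (∑ C : S1, PP h.gd (r C)) - ∑ C : S1, PP h.gd (r C)) = 0 := by
    have e1 : gal ι (∑ C : S1, PP h.gd (r C)) - ∑ C : S1, PP h.gd (r C) =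
      (gal ι (∑ C : S1, PP h.gd (r C)) +
        ∑ C : S1, PP h.gd (cj τ (mI S a) * b * cj τ (r C))) -
      (∑ C : S1, PP h.gd (cj τ (mI S a) * b * cj τ (r C)) -
        ∑ C : S1, PP h.gd (r (g * (C : ClassGroup (𝓞 K))⁻¹))) -
      (∑ C : S1, PP h.gd (r C) + ∑ C : S1, PP h.gd (r (g * (C : ClassGroup (𝓞 K))))) := by
      rw [s4]
      abel
    rw [e1, iter_sub', iter_sub', s1, s3, s6, sub_zero, sub_zero]
  rw [hI.gmod.gpi_four, neg_eq_zero] at s7
  exact red hin _ s7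

end Pool.Agent.Work.MP_8efaaa_nt.N5
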