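import Mathlib

/-!
# N5/NFac (S-M): factorization

PROOF. If a prime `l ∣ a` is `1` or `3` modulo `8`, take `d = l`. Otherwise all primes of `a` are `5` or `7` modulo `8`; `a` is not a prime and `a > 1`
(`a % 8 = 5`), so it has at least two primes; a product of two distinct primes `5 * 7 = 3`, `5 * 5 = 1`, `7 * 7 = 1` modulo `8`: take `d = l * l'` for two
distinct primes. `l` is a prime factor of `d`.
-/

set_option autoImplicit false

namespace Pool.Agent.Work.MP_8efaaa_nt.N5

theorem exists_factor {a : ℕ} (hsf : Squarefree a) (ha : a % 8 = 5) (hp : ¬ a.Prime) :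
    ∃ d l : ℕ, d ∣ a ∧ (d % 8 = 1 ∨ d % 8 = 3) ∧ l.Prime ∧ l ∣ d := by
  by_cases h : ∃ l : ℕ, l.Prime ∧ l ∣ a ∧ (l % 8 = 1 ∨ l % 8 = 3)
  · obtain ⟨l, hl, hla, h8⟩ := h
    exact ⟨l, l, hla, h8, hl, dvd_refl l⟩
  · push Not at h
    have ha1 : a ≠ 1 := by
      intro h1
      rw [h1] at ha
      omega
    have hl : a.minFac.Prime := Nat.minFac_prime ha1
    obtain ⟨b, hb⟩ := Nat.minFac_dvd a
    have hb1 : b ≠ 1 := by
      intro h1
      rw [h1, mul_one] at hb
      apply hp
      rw [hb]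
      exact hl
    have hl' : b.minFac.Prime := Nat.minFac_prime hb1
    have hdvd : a.minFac * b.minFac ∣ a := by
      conv_rhs => rw [hb]
      exact Nat.mul_dvd_mul_left _ (Nat.minFac_dvd b)
    have hres : ∀ l : ℕ, l.Prime → l ∣ a → l % 8 = 5 ∨ l % 8 = 7 := by
      intro l hlp hla
      have h13 := h l hlp hla
      have hodd : l % 2 = 1 := by
        rcases Nat.mod_two_eq_zero_or_one l with h0 | h1
        · exfalso
          have h2 : 2 ∣ a := (Nat.dvd_of_mod_eq_zero h0).trans hla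
          omega
        · exact h1
      omega
    have r1 := hres _ hl (Nat.minFac_dvd a)
    have r2 := hres _ hl' ((Dvd.intro_left _ rfl).trans hdvd)
    refine ⟨a.minFac * b.minFac, a.minFac, hdvd, ?_, hl, Dvd.intro _ rfl⟩
    rcases r1 with r1 | r1 <;> rcases r2 with r2 | r2 <;> rw [Nat.mul_mod, r1, r2] <;> omega

end Pool.Agent.Work.MP_8efaaa_nt.N5
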