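import Mathlib
import Pool.Agent.Work.MP_8efaaa_nt.Rf.Hil
import Pool.Agent.Work.MP_8efaaa_nt.Rf.Ram

/-!
# N5/NPr (M): for a prime `a` the class number is not divisible by `8`

PROOF. `Cl = ClassGroup (𝓞 K)`. (1) a class of order dividing two contains an odd ideal `c` (`exists_odd_rep`) with `c^2` principal; `hil` gives
`(m) c = (ρ) rI S r P2^ε`, `r ∣ a` prime, so `r = 1` or `r = a`, `rI S 1 = ⊤`, `rI S a = (S)`: the class is `1` or `[P2]`: at most two classes of
order dividing two. (2) If `4 ∣ #Cl` then (the 2-part is cyclic, or: `x -> x^2` has kernel of order `≤ 2`, an element of order four exists because a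
group of order divisible by four with at most one involution has an element of order four) there is a class `C` with `C^2 = [P2]`, `C^2 ≠ 1`. Take an odd ideal `c`
in `C` prime to `a` or any odd ideal: `c^2 = (γ') P2` up to principal ideals: `(α) c^2 = (β) P2`; norms: `N(α) N(c)^2 = 2 N(β)`, where `N(x + y S) = x^2 + a y^2`;
so `2` is a norm from `K` times a square: `2 u^2 = x^2 + a y^2` with integers not all zero; take them coprime: if `a ∣ x` and `a ∣ u` then `a ∣ y`; so
`2` is a square modulo `a` (if `a ∣ u` then `a ∣ x`, `a^2 ∣ a y^2`, `a ∣ y`; otherwise divide by `u`), but `a = 5 (mod 8)`. So `4` does not divide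
`#Cl`, in particular `8` does not.
-/

set_option autoImplicit false

namespace Pool.Agent.Work.MP_8efaaa_nt.N5

open NumberField Pool.Agent.Work.MP_8efaaa_nt.R

variable {K : Type*} [Field K] [NumberField K] {a : ℕ} {s : K}

private theorem np_descent {a : ℕ} (hp : a.Prime) (ha : a % 8 = 5) :
    ∀ (n : ℕ) (U Z0 Z1 : ℤ), U.natAbs = n → 2 * (Z0 ^ 2 + a * Z1 ^ 2) = U ^ 2 → U = 0 := by
  intro n
  induction n using Nat.strong_induction_on with
  | _ n ih =>
    intro U Z0 Z1 hn h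
    by_contra hU
    have hpZ : Prime (a : ℤ) := Nat.prime_iff_prime_int.mp hp
    have ha2 : a ≠ 2 := by
      rintro rfl
      omega
    by_cases hZ : (a : ℤ) ∣ Z0
    · obtain ⟨z0, rfl⟩ := hZ
      have h1 : (a : ℤ) ∣ U := by
        apply hpZ.dvd_of_dvd_pow (n := 2)
        rw [← h]
        exact ⟨2 * (a * z0 ^ 2 + Z1 ^ 2), by ring⟩
      obtain ⟨u, rfl⟩ := h1
      have ha0 : (a : ℤ) ≠ 0 := by exact_mod_cast hp.ne_zero
      have h2 : 2 * Z1 ^ 2 = a * (u ^ 2 - 2 * z0 ^ 2) := by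
        apply mul_left_cancel₀ ha0
        linear_combination h
      have h3 : (a : ℤ) ∣ Z1 := by
        have h4 : (a : ℤ) ∣ 2 * Z1 ^ 2 := ⟨_, h2⟩
        rcases hpZ.dvd_or_dvd h4 with h5 | h5
        · exfalso
          have h6 : a ∣ 2 := by exact_mod_cast h5
          have h7 := Nat.le_of_dvd (by norm_num) h6
          omega
        · exact hpZ.dvd_of_dvd_pow h5
      obtain ⟨z1, rfl⟩ := h3
      have h4 : 2 * (z0 ^ 2 + a * z1 ^ 2) = u ^ 2 := by
        apply mul_left_cancel₀ ha0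
        linear_combination h2
      have hu0 : u ≠ 0 := by
        rintro rfl
        exact hU (by simp)
      have h5 : u.natAbs < n := by
        rw [← hn, Int.natAbs_mul, Int.natAbs_natCast]
        have h6 : 0 < u.natAbs := Int.natAbs_pos.mpr hu0
        have h7 := hp.two_le
        nlinarith
      exact hu0 (ih _ h5 u z0 z1 rfl h4)
    · have : Fact a.Prime := ⟨hp⟩
      have hz : ((Z0 : ℤ) : ZMod a) ≠ 0 := by
        rw [Ne, ZMod.intCast_zmod_eq_zero_iff_dvd]
        exact hZ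
      have h1 : (2 : ZMod a) * (Z0 : ZMod a) ^ 2 = (U : ZMod a) ^ 2 := by
        have h2 := congrArg (fun t : ℤ => (t : ZMod a)) h
        push_cast at h2
        rw [ZMod.natCast_self] at h2
        linear_combination h2
      have h2 : IsSquare (2 : ZMod a) := by
        refine ⟨(U : ZMod a) / (Z0 : ZMod a), ?_⟩
        field_simp
        linear_combination h1
      rw [ZMod.exists_sq_eq_two_iff ha2] at h2
      omega

private theorem np_group {G : Type*} [CommGroup G] [Fintype G] {z : G}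
    (h1 : ∀ x : G, x ^ 2 = 1 → x = 1 ∨ x = z) (h2 : ∀ x : G, x ^ 2 ≠ z) :
    ¬ 8 ∣ Fintype.card G := by
  intro h8
  have : Fact (Nat.Prime 2) := ⟨Nat.prime_two⟩
  have h4 : 2 ^ 2 ∣ Nat.card G := by
    rw [Nat.card_eq_fintype_card]
    exact (by norm_num : 2 ^ 2 ∣ 8).trans h8
  obtain ⟨H, hH⟩ := Sylow.exists_subgroup_card_pow_prime 2 h4
  have hall : ∀ x ∈ H, x = 1 ∨ x = z := by
    intro x hx
    have h5 : x ^ 4 = 1 := by
      have h6 := pow_card_eq_one' (x := (⟨x, hx⟩ : H))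
      rw [hH] at h6
      have h7 := congrArg (Subtype.val) h6
      simpa using h7
    have h6 : (x ^ 2) ^ 2 = 1 := by
      rw [← pow_mul]
      exact h5
    rcases h1 _ h6 with h7 | h7
    · exact h1 x h7
    · exact absurd h7 (h2 x)
  have hsub : (H : Set G) ⊆ {1, z} := by
    intro x hx
    rcases hall x hx with h | h
    · left; exact h
    · right; exact h
  have hfin : ({1, z} : Set G).Finite := Set.toFinite _
  have hc := Set.ncard_le_ncard hsub hfin
  have hc2 := Set.ncard_insert_le (1 : G) {z}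
  rw [Set.ncard_singleton] at hc2
  have hc3 : (H : Set G).ncard = Nat.card H := rfl
  rw [hc3, hH] at hc
  omega

theorem prime_class (hb : Base5 K a s) (hp : a.Prime) :
    ¬ 8 ∣ Fintype.card (ClassGroup (𝓞 K)) := by
  obtain ⟨S, hS, hQ⟩ := exists_Q5 hb
  have hP0 : Q5.P2 S ≠ ⊥ := hQ.p2_ne_bot
  set P : nonZeroDivisors (Ideal (𝓞 K)) := ⟨Q5.P2 S, mem_nonZeroDivisors_iff_ne_zero.2 hP0⟩ with hP
  have hS0 : S ≠ 0 := by
    rintro rfl
    have h1 := hQ.sq
    rw [mul_zero] at h1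
    have h2 : ((a : ℕ) : 𝓞 K) = 0 := by linear_combination h1
    exact hp.ne_zero (Nat.cast_eq_zero.mp h2)
  apply np_group (z := ClassGroup.mk0 P)
  · -- classes of order two
    intro C hC
    obtain ⟨b, hbo, rfl⟩ := exists_odd_rep hb C
    have h1 : ((b * b : nonZeroDivisors (Ideal (𝓞 K))) : Ideal (𝓞 K)).IsPrincipal := by
      rw [← ClassGroup.mk0_eq_one_iff (b * b).2]
      rw [← pow_two, ← hC]
      rw [← map_pow, pow_two]
    obtain ⟨β, hβ⟩ := h1.principal
    have h2 : Ideal.span {(1 : 𝓞 K)} * (b : Ideal (𝓞 K)) ^ 2 = Ideal.span {β} := by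
      rw [Ideal.span_singleton_one, ← Ideal.one_eq_top, one_mul, pow_two]
      exact hβ
    obtain ⟨m, r, ε, ρ, hm, hρ, hr, hε, he⟩ := Rf.hil hb hS hbo one_ne_zero h2
    have hm' : (m : 𝓞 K) ≠ 0 := Nat.cast_ne_zero.2 hm
    have hrr : ∃ ρ' : 𝓞 K, ρ' ≠ 0 ∧ Ideal.span {(m : 𝓞 K)} * (b : Ideal (𝓞 K)) =
        Ideal.span {ρ'} * Q5.P2 S ^ ε := by
      rcases (Nat.dvd_prime hp).mp hr with h3 | h3
      · refine ⟨ρ, hρ, ?_⟩
        rw [he, h3, Rf.rI_one, ← Ideal.one_eq_top, mul_one]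
      · refine ⟨ρ * S, mul_ne_zero hρ hS0, ?_⟩
        rw [he, h3, Rf.rI_self hb hS, Ideal.span_singleton_mul_span_singleton]
    obtain ⟨ρ', hρ', he'⟩ := hrr
    have hε' : ε = 0 ∨ ε = 1 := by omega
    rcases hε' with h3 | h3
    · left
      rw [h3, pow_zero, mul_one] at he'
      rw [← map_one ClassGroup.mk0, ClassGroup.mk0_eq_mk0_iff]
      refine ⟨m, ρ', hm', hρ', ?_⟩
      rw [he', OneMemClass.coe_one, mul_one]
    · right
      rw [h3, pow_one] at he'
      rw [ClassGroup.mk0_eq_mk0_iff]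
      exact ⟨m, ρ', hm', hρ', he'⟩
  · intro C hC
    obtain ⟨b, hbo, rfl⟩ := exists_odd_rep hb C
    rw [← map_pow, ClassGroup.mk0_eq_mk0_iff] at hC
    obtain ⟨x, y, hx, hy, he⟩ := hC
    have h1 := congrArg Ideal.absNorm he
    rw [map_mul, map_mul, SubmonoidClass.coe_pow, map_pow] at h1
    have h2 : Ideal.absNorm ((P : nonZeroDivisors (Ideal (𝓞 K))) : Ideal (𝓞 K)) = 2 := hQ.norm_p2
    rw [h2] at h1
    obtain ⟨x0, x1, rfl⟩ := hQ.coords x
    obtain ⟨y0, y1, rfl⟩ := hQ.coords y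
    have h3 := hQ.norm_gen x0 x1
    have h4 := hQ.norm_gen y0 y1
    set n : ℕ := Ideal.absNorm (b : Ideal (𝓞 K)) with hn
    have h5 : (x0 ^ 2 + a * x1 ^ 2) * (n : ℤ) ^ 2 = (y0 ^ 2 + a * y1 ^ 2) * 2 := by
      rw [← h3, ← h4]
      exact_mod_cast h1
    have hn0 : (n : ℤ) ≠ 0 := by
      have h6 : n ≠ 0 := by
        intro h7
        have h8 : Odd n := hbo
        rw [h7] at h8
        simp at h8
      exact_mod_cast h6
    have hX0 : x0 ^ 2 + (a : ℤ) * x1 ^ 2 ≠ 0 := by
      have h6 := hQ.norm_ne_zero hx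
      rw [hQ.norm_int] at h6
      exact h6
    have h6 := np_descent hp hb.mod _ ((n : ℤ) * (x0 ^ 2 + a * x1 ^ 2)) (x0 * y0 + a * x1 * y1)
      (x0 * y1 - x1 * y0) rfl (by linear_combination (-(x0 ^ 2 + (a : ℤ) * x1 ^ 2)) * h5)
    rcases mul_eq_zero.mp h6 with h7 | h7
    · exact hn0 h7
    · exact hX0 h7

end Pool.Agent.Work.MP_8efaaa_nt.N5
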