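import Mathlib
import Pool.Agent.Work.MP_8efaaa_nt.R.Main
import Pool.Agent.Work.MP_8efaaa_nt.N5.EIR
import Pool.Agent.Work.MP_8efaaa_nt.N5.DIn
import Pool.Agent.Work.MP_8efaaa_nt.N5.NFac
import Pool.Agent.Work.MP_8efaaa_nt.N5.NPr

/-!
# N5/EMain (M-L): the theorem

`φ = gpi I`, `h` = class number. PROOF. If `8` does not divide `h`: `main8`. Otherwise `a` is not a prime (`prime_class`), `exists_factor`: `d`, `l`. Suppose `a` is not congruent. `τ` from `Rf.exists_cj`, `S` from `exists_S5`, `exists_idat`, `I` from `exists_cmi (i_sq ..)`,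
`exists_inert` for `l` (`ι`, `L`), `inert_zeta`, `inert_w`, `iota_pt` (`b0`); `exists_quarter` with `e0 := cj m * b0` (norm `n N(b0) = 1 (mod 4)`, prime to `a`, Jacobi symbol `-1`); choose `r`; `iota_R`: `gal ι R = R`,
`R = ∑_{C ∈ S} PP (r C)`.
Let `b` be the given ideal, `σ`, `σ'` from `act2` for `b` and `cj b`, `R' := gal σ R = ∑ PP (b r C)`. Claim: `gal ι R' = gal σ' R`. Indeed `R = gal ι R = ∑ I (PP (b0 cj (r C)))`, so `gal σ' R = ± I ∑ PP (cj b b0 cj (r C))` with `+` for `N b = 1 (mod 4)` and `-`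
for `3` (`gal_comm`, `gal_anti`: `σ' ζ = ζ^(N b)`), and `gal ι (PP (b r C)) = ± I (PP (b0 cj b cj (r C)))` with the same sign (`iota_pt`, both cases; `cj` is multiplicative).
Let `D := gal σ' R - R'`. `gal σ D = ∑ PP (b cj b r C) - ∑ PP (b^2 r C)`: all norms are `1 (mod 4)`. `π C := (kl b)^(-2) C` maps `S` to `S` (squares are in `S`), `kl (b cj b r C) = C = kl (b^2 r (π C))`. `sum_compare`: `p`, `q` with
`(p) ∏ (b cj b r C) = (q) ∏ (b^2 r (π C))`, `gal σ D = tt q - tt p`. So `4 D = 0` (`three_tt`, `gpi_four`, injectivity of `gal σ`), `4 (gal ι R' - R') = 0`, `red`: `gal ι R' = R'`, `D = 0`, `tt q = tt p`. Cancel the product of the `r C` and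
`b^n`, `n = h/4`: `(p) (cj b)^n = (q) b^n`, times `b^n`: `(p) (N b)^n = (q) b^(2n)`, `2 n = h/2`. So `kl (b^(h/2)) = 1`, `b^(h/2) = (δ)`, and `tt p + tt ((N b)^n) = tt q + tt δ` (`tt_mul`), `tt ((N b)^n) = n tt (N b) = 0`, since `n` is even (`8 ∣ h`) and `2 tt (N b) = 0`
(`trans_n` for `c = 1`). So `tt δ = 0`. `N δ = (N b)^(h/2) = 1 (mod 8)` (`h/2` even, `N b` odd). `norm_one_cases` (R/FCls.lean): either `δ = x + 4 y s`: then by the hypothesis `e8 (x + 4 y) = -1` and `tt δ ≠ 0` (`tt_ne`, private in R/FMain.lean, copy it); or `δ^2 = x + 4 y s` with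
`e8 (x + 4 y) = -1`: `tt (δ^2) = 2 tt δ = 0`, but `≠ 0`. Contradiction.
-/

set_option autoImplicit false

namespace Pool.Agent.Work.MP_8efaaa_nt.N5

open NumberField Pool.Agent.Work.MP_8efaaa_nt.R
open scoped Classical nonZeroDivisors

universe u

private theorem em_ne {K : Type u} {F : Type*} [Field K] [NumberField K] [Field F] [Algebra K F]
    [CharZero F] {s : K} {ζ : F} {X Y : Ideal (𝓞 K) → F}
    (hG : GDat K F s ζ X Y) {x y : ℤ} {δ : 𝓞 K} (hx : Odd x)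
    (hδ : algebraMap (𝓞 K) K δ = x + 4 * y * s) (he : e8 (x + 4 * y) = -1)
    (hodd : OddI (Ideal.span {δ})) : tt hG (Ideal.span {δ}) ≠ 0 := by
  intro h0
  unfold tt at h0
  rw [sub_eq_zero, PP_eq hG hodd, PP_eq hG oddI_one, pt_inj] at h0
  obtain ⟨h1, h2⟩ := (hG.tr1 x y δ hx hδ 1 oddI_one).2 he
  rw [mul_one] at h1 h2
  have hX := hG.ne 1 oddI_one
  have hE := hG.eqn 1 oddI_one
  rw [h1] at h0
  rw [h2] at h0
  obtain ⟨h3, h4⟩ := h0
  have h5 : X 1 ^ 2 = -1 := by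
    rw [div_eq_iff hX] at h3
    linear_combination -h3
  rw [h5] at h4
  have h6 : Y 1 = 0 := by
    have : (2 : F) * Y 1 = 0 := by linear_combination -h4
    exact (mul_eq_zero.1 this).resolve_left two_ne_zero
  rw [h6] at hE
  have h7 : (2 : F) * X 1 = 0 := by linear_combination hE + X 1 * h5
  exact mul_ne_zero two_ne_zero hX h7

private theorem em_cj {K : Type u} [Field K] [NumberField K] (τ : 𝓞 K ≃+* 𝓞 K)
    (b c : Ideal (𝓞 K)) : cj τ (b * c) = cj τ b * cj τ c := Ideal.map_mul _ _ _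

private theorem em_claim {K : Type u} {F : Type*} [Field K] [NumberField K] [Field F]
    [NumberField F] [Algebra K F] {s : K} {τ : 𝓞 K ≃+* 𝓞 K} {ζ : F} {X Y : Ideal (𝓞 K) → F}
    (hG : GDat K F s ζ X Y) {I : (cQ F).Point →+ (cQ F).Point} (hI : CMI (ζ ^ 2) I)
    {ι : F ≃ₐ[ℚ] F} {b0 b : Ideal (𝓞 K)} (hb0 : OddI b0) (hb : OddI b)
    (hcn : ∀ c : Ideal (𝓞 K), Ideal.absNorm (cj τ c) = Ideal.absNorm c)
    (hi1 : ∀ c, Ideal.absNorm c % 4 = 1 → gal ι (PP hG c) = I (PP hG (b0 * cj τ c)))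
    (hi3 : ∀ c, Ideal.absNorm c % 4 = 3 → gal ι (PP hG c) = -I (PP hG (b0 * cj τ c)))
    {σ σ' : F ≃ₐ[K] F} (hσ : ActsBy X Y σ b) (hσ' : ActsBy X Y σ' (cj τ b))
    (hz : σ' ζ = ζ ^ Ideal.absNorm b) {J : Type*} [Fintype J] (r : J → Ideal (𝓞 K))
    (hr : ∀ j, Ideal.absNorm (r j) % 4 = 1)
    (hR : gal ι (∑ j, PP hG (r j)) = ∑ j, PP hG (r j)) :
    gal ι (gal σ (∑ j, PP hG (r j))) = gal σ' (∑ j, PP hG (r j)) := by
  have hodd : ∀ j, OddI (r j) := fun j => oddI_of_one (hr j)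
  have hcodd : ∀ c : Ideal (𝓞 K), OddI c → OddI (cj τ c) := by
    intro c hc
    unfold OddI
    rw [hcn]
    exact hc
  have e1 : gal σ' (∑ j, PP hG (r j)) = ∑ j, gal σ' (gal ι (PP hG (r j))) := by
    rw [← hR, map_sum, map_sum]
  rw [e1, map_sum, map_sum]
  refine Finset.sum_congr rfl (fun j _ => ?_)
  rw [gal_PP hG hσ hb (hodd j)]
  have e2 : b0 * cj τ (b * r j) = cj τ b * (b0 * cj τ (r j)) := by
    rw [em_cj]
    ring
  have hb2 : Ideal.absNorm b % 2 = 1 := Nat.odd_iff.1 hb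
  have hcase : Ideal.absNorm b % 4 = 1 ∨ Ideal.absNorm b % 4 = 3 := by omega
  rcases hcase with h1 | h1
  · rw [hi1 (b * r j) (by rw [map_mul, Nat.mul_mod, h1, hr j]), hi1 (r j) (hr j),
      hI.gal_comm (map_i_one hG.z8 hz h1),
      gal_PP hG hσ' (hcodd b hb) (oddI_mul'.2 ⟨hb0, hcodd _ (hodd j)⟩), e2]
  · rw [hi3 (b * r j) (by rw [map_mul, Nat.mul_mod, h1, hr j]), hi1 (r j) (hr j),
      hI.gal_anti (map_i_three hG.z8 hz h1),
      gal_PP hG hσ' (hcodd b hb) (oddI_mul'.2 ⟨hb0, hcodd _ (hodd j)⟩), e2]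

private theorem em_sq {n : ℕ} (hn : n % 2 = 1) : n * n % 8 = 1 := by
  have h : n % 8 = 1 ∨ n % 8 = 3 ∨ n % 8 = 5 ∨ n % 8 = 7 := by omega
  rw [Nat.mul_mod]
  rcases h with h | h | h | h <;> rw [h]

private theorem em_pow {n k : ℕ} (hn : n % 2 = 1) : n ^ (2 * k) % 8 = 1 := by
  rw [pow_mul, Nat.pow_mod, pow_two, em_sq hn, one_pow]
  rfl

/-- the translation by an even power of an odd integer -/
private theorem em_int {K : Type u} {F : Type*} [Field K] [NumberField K] [Field F] [Algebra K F]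
    [CharZero F] {a : ℕ} {s : K} (hb : Base5 K a s) {ζ : F} {X Y : Ideal (𝓞 K) → F}
    (hG : GDat K F s ζ X Y) {I : (cQ F).Point →+ (cQ F).Point} (hI : CMI (ζ ^ 2) I) {n : ℕ}
    (hn : Odd n) (ho : OddI (Ideal.span {(n : 𝓞 K)})) (k : ℕ) :
    OddI (Ideal.span {(n : 𝓞 K) ^ (2 * k)}) ∧
      tt hG (Ideal.span {(n : 𝓞 K) ^ (2 * k)}) = 0 := by
  have h1 := trans_n hG hI hn (c := 1) oddI_one
  rw [mul_one] at h1
  have h2 : (2 : ℤ) • tt hG (Ideal.span {(n : 𝓞 K)}) = 0 := by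
    rcases hI.gmod.gpi_eq_zero.1 h1 with h3 | h3
    · show (2 : ℤ) • (PP hG (Ideal.span {(n : 𝓞 K)}) - PP hG 1) = 0
      rw [h3, smul_zero]
    · show (2 : ℤ) • (PP hG (Ideal.span {(n : 𝓞 K)}) - PP hG 1) = 0
      rw [h3]
      exact hI.gmod.two_T
  obtain ⟨h3, h4⟩ := tt_prod hb hG (Finset.range (2 * k)) (fun _ => (n : 𝓞 K)) (fun _ => ho)
  rw [Finset.prod_const, Finset.card_range] at h3 h4
  refine ⟨h3, ?_⟩
  rw [h4, Finset.sum_const, Finset.card_range, mul_comm 2 k, mul_smul]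
  have h5 : (2 : ℕ) • tt hG (Ideal.span {(n : 𝓞 K)}) = 0 := by
    rw [← h2]
    rw [two_zsmul, two_nsmul]
  rw [h5, smul_zero]

private theorem em_ideal {K : Type u} [Field K] [NumberField K] {q z : 𝓞 K}
    {B : Ideal (𝓞 K)} (hq : q ≠ 0) (h : Ideal.span {z} = Ideal.span {q} * B) :
    ∃ δ : 𝓞 K, z = q * δ ∧ B = Ideal.span {δ} := by
  have hq0' : Ideal.span {q} ≠ 0 := by
    rw [Ideal.zero_eq_bot, Ne, Ideal.span_singleton_eq_bot]
    exact hq
  have hle : Ideal.span {q} * B ≤ Ideal.span {q} := Ideal.mul_le_left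
  have e2 : z ∈ Ideal.span {q} * B := by
    rw [← h]
    exact Ideal.mem_span_singleton_self _
  have e1 : z ∈ Ideal.span {q} := hle e2
  obtain ⟨δ, hδ⟩ := Ideal.mem_span_singleton.1 e1
  refine ⟨δ, hδ, ?_⟩
  apply mul_left_cancel₀ hq0'
  rw [← h, hδ, Ideal.span_singleton_mul_span_singleton]

private theorem em_fin {K : Type u} {F : Type*} [Field K] [NumberField K] [Field F] [Algebra K F]
    [CharZero F] {a : ℕ} {s : K} (hb : Base5 K a s) {ζ : F} {X Y : Ideal (𝓞 K) → F}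
    (hG : GDat K F s ζ X Y) {I : (cQ F).Point →+ (cQ F).Point} (hI : CMI (ζ ^ 2) I)
    {b b' : Ideal (𝓞 K)} (hodd : OddI b) (hodd' : OddI b')
    (hN2 : b * b' = Ideal.span {((Ideal.absNorm b : ℕ) : 𝓞 K)})
    {H n k : ℕ} (hH : H = 2 * n) (hk : n = 2 * k)
    (h : ∀ x y : ℤ, ∀ δ : 𝓞 K, algebraMap (𝓞 K) K δ = x + 4 * y * s →
      b ^ H = Ideal.span {δ} → e8 (x + 4 * y) = -1)
    {p q : 𝓞 K} (hp : OddI (Ideal.span {p})) (hq : OddI (Ideal.span {q}))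
    (hpq2 : tt hG (Ideal.span {q}) = tt hG (Ideal.span {p}))
    (hpq3 : Ideal.span {p} * (b * b') ^ n = Ideal.span {q} * b ^ (2 * n)) : False := by
  have hb2 : Ideal.absNorm b % 2 = 1 := Nat.odd_iff.1 hodd
  rw [hN2, Ideal.span_singleton_pow, Ideal.span_singleton_mul_span_singleton] at hpq3
  have hq0 : q ≠ 0 := by
    rintro rfl
    have h9 := nonZeroDivisors.ne_zero (ne_bot_of_odd hq)
    apply h9
    rw [Ideal.zero_eq_bot, Ideal.span_singleton_eq_bot]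
  obtain ⟨δ, hδ, hbδ⟩ := em_ideal hq0 hpq3
  have hbo : OddI (b ^ (2 * n)) := by
    unfold OddI
    rw [map_pow]
    exact hodd.pow
  have hδo : OddI (Ideal.span {δ}) := hbδ ▸ hbo
  have hNo : OddI (Ideal.span {((Ideal.absNorm b : ℕ) : 𝓞 K)}) := by
    rw [← hN2]
    exact oddI_mul'.2 ⟨hodd, hodd'⟩
  obtain ⟨hi, hii⟩ := em_int hb hG hI hodd hNo k
  rw [← hk] at hi hii
  have htt : tt hG (Ideal.span {δ}) = 0 := by
    have e1 := tt_mul hb hG hp hi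
    have e2 := tt_mul hb hG hq hδo
    rw [Ideal.span_singleton_mul_span_singleton, hδ, ← Ideal.span_singleton_mul_span_singleton,
      e2, hii, add_zero, hpq2] at e1
    exact left_eq_add.1 e1.symm
  have hδn : Ideal.absNorm (Ideal.span {δ}) % 8 = 1 := by
    rw [← hbδ, map_pow]
    exact em_pow hb2
  rcases norm_one_cases hb hδn with ⟨x, y, hx, hxy⟩ | ⟨x, y, hx, hxy, he⟩
  · exact em_ne hG hx hxy (h x y δ hxy (by rw [hH]; exact hbδ)) hδo htt
  · refine em_ne hG hx hxy he ?_ ?_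
    · rw [pow_two, ← Ideal.span_singleton_mul_span_singleton]
      exact oddI_mul'.2 ⟨hδo, hδo⟩
    · rw [pow_two, ← Ideal.span_singleton_mul_span_singleton, tt_mul hb hG hδo hδo, htt, add_zero]

private theorem em_core {K : Type u} {F : Type*} [Field K] [NumberField K] [Field F]
    [NumberField F] [Algebra K F] {a : ℕ} {s : K} (hb : Base5 K a s) {S : 𝓞 K}
    (hS : algebraMap (𝓞 K) K S = s) {τ : 𝓞 K ≃+* 𝓞 K} (hτ : τ S = -S) {ζ : F}
    {X Y : Ideal (𝓞 K) → F} (hG : GDat K F s ζ X Y) {I : (cQ F).Point →+ (cQ F).Point}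
    (hI : CMI (ζ ^ 2) I) {ι : F ≃ₐ[ℚ] F} {L : Ideal (𝓞 F)} (hin : Inert ι L)
    {b0 : Ideal (𝓞 K)} (hb0 : OddI b0)
    (hi1 : ∀ c, Ideal.absNorm c % 4 = 1 → gal ι (PP hG c) = I (PP hG (b0 * cj τ c)))
    (hi3 : ∀ c, Ideal.absNorm c % 4 = 3 → gal ι (PP hG c) = -I (PP hG (b0 * cj τ c)))
    (S1 : Subgroup (ClassGroup (𝓞 K)))
    (h4 : 4 * Nat.card S1 = Fintype.card (ClassGroup (𝓞 K)))
    (h8 : 8 ∣ Fintype.card (ClassGroup (𝓞 K)))
    (hsq : ∀ C : ClassGroup (𝓞 K), C ^ 2 ∈ S1)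
    (r : ClassGroup (𝓞 K) → Ideal (𝓞 K)) (hr1 : ∀ C : S1, Ideal.absNorm (r C) % 4 = 1)
    (hr2 : ∀ C : S1, kl (r C) = C)
    (hR : gal ι (∑ C : S1, PP hG (r C)) = ∑ C : S1, PP hG (r C))
    {b : Ideal (𝓞 K)} (hodd : OddI b)
    (h : ∀ x y : ℤ, ∀ δ : 𝓞 K, algebraMap (𝓞 K) K δ = x + 4 * y * s →
      b ^ (Fintype.card (ClassGroup (𝓞 K)) / 2) = Ideal.span {δ} → e8 (x + 4 * y) = -1) :
    False := by
  obtain ⟨hN1, hN2, -⟩ := norm_cj hb hS hτ b
  have hcn : ∀ c : Ideal (𝓞 K), Ideal.absNorm (cj τ c) = Ideal.absNorm c :=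
    fun c => (norm_cj hb hS hτ c).1
  have hodd' : OddI (cj τ b) := by
    unfold OddI
    rw [hcn]
    exact hodd
  have hb2 : Ideal.absNorm b % 2 = 1 := Nat.odd_iff.1 hodd
  have hro : ∀ C : S1, OddI (r C) := fun C => oddI_of_one (hr1 C)
  obtain ⟨σ, hσ1, hσ2⟩ := hG.act2 b hodd
  obtain ⟨σ', hσ1', hσ2'⟩ := hG.act2 (cj τ b) hodd'
  rw [hcn] at hσ1'
  have hcl := em_claim hG hI hb0 hodd hcn hi1 hi3 hσ2 hσ2' hσ1' (fun C : S1 => r C) hr1 hR
  set R : (cQ F).Point := ∑ C : S1, PP hG (r C) with hRdef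
  -- the two sums
  obtain ⟨D0, hD0⟩ : ∃ D0 : S1, (D0 : ClassGroup (𝓞 K)) = kl b ^ 2 := ⟨⟨kl b ^ 2, hsq _⟩, rfl⟩
  have s1 : gal σ (gal σ' R) = ∑ C : S1, PP hG (b * (cj τ b * r C)) := by
    rw [hRdef, map_sum, map_sum]
    refine Finset.sum_congr rfl (fun C _ => ?_)
    rw [gal_PP hG hσ2' hodd' (hro C), gal_PP hG hσ2 hodd (oddI_mul'.2 ⟨hodd', hro C⟩)]
  have s2 : gal σ (gal σ R) = ∑ C : S1, PP hG (b * (b * r (D0⁻¹ * C : S1))) := by
    have e1 : gal σ (gal σ R) = ∑ C : S1, PP hG (b * (b * r C)) := by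
      rw [hRdef, map_sum, map_sum]
      refine Finset.sum_congr rfl (fun C _ => ?_)
      rw [gal_PP hG hσ2 hodd (hro C), gal_PP hG hσ2 hodd (oddI_mul'.2 ⟨hodd, hro C⟩)]
    rw [e1]
    exact (Equiv.sum_comp (Equiv.mulLeft D0⁻¹) (fun C : S1 => PP hG (b * (b * r C)))).symm
  have n1 : ∀ C : S1, Ideal.absNorm (b * (cj τ b * r C)) % 4 = 1 := by
    intro C
    rw [map_mul, map_mul, hcn, ← mul_assoc, Nat.mul_mod, hr1 C]
    have := em_sq hb2
    omega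
  have n2 : ∀ C : S1, Ideal.absNorm (b * (b * r C)) % 4 = 1 := by
    intro C
    rw [map_mul, map_mul, ← mul_assoc, Nat.mul_mod, hr1 C]
    have := em_sq hb2
    omega
  have k1 : ∀ C : S1, kl (b * (cj τ b * r C)) = kl (b * (b * r (D0⁻¹ * C : S1))) := by
    intro C
    rw [kl_mul hodd (oddI_mul'.2 ⟨hodd', hro C⟩), kl_mul hodd' (hro C),
      kl_mul hodd (oddI_mul'.2 ⟨hodd, hro _⟩), kl_mul hodd (hro _), hr2, hr2,
      kl_inv hodd hodd' hN2, Subgroup.coe_mul, Subgroup.coe_inv, hD0]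
    group
  obtain ⟨p, q, hp, hq, hpq, hsum⟩ := sum_compare hb hG
    (fun C : S1 => b * (cj τ b * r C)) (fun C : S1 => b * (b * r (D0⁻¹ * C : S1))) n1
    (fun C => n2 _) k1
  have hD : gal σ (gal σ' R - gal σ R) = tt hG (Ideal.span {q}) - tt hG (Ideal.span {p}) := by
    rw [map_sub, s1, s2, hsum]
    abel
  have hD3 : (gpi I)^[3] (gal σ (gal σ' R - gal σ R)) = 0 := by
    rw [hD, iter_sub, three_tt hG hI hq, three_tt hG hI hp, sub_zero]
  have hD4 : (4 : ℤ) • gal σ (gal σ' R - gal σ R) = 0 := by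
    have e1 : (gpi I)^[4] (gal σ (gal σ' R - gal σ R)) = 0 := by
      rw [Function.iterate_succ_apply', hD3, map_zero]
    rw [hI.gmod.gpi_four, neg_eq_zero] at e1
    exact e1
  have hD5 : (4 : ℤ) • (gal σ' R - gal σ R) = 0 := by
    apply gal_inj σ
    rw [map_zsmul]
    exact hD4
  have hred := red hin (gal σ R) (by rw [hcl]; exact hD5)
  have hDz : gal σ' R - gal σ R = 0 := by rw [← hcl, hred, sub_self]
  have hpq2 : tt hG (Ideal.span {q}) = tt hG (Ideal.span {p}) := by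
    rw [hDz, map_zero] at hD
    exact (sub_eq_zero.1 hD.symm)
  -- the products
  have hcard : Fintype.card S1 = Nat.card S1 := Nat.card_eq_fintype_card.symm
  set n : ℕ := Nat.card S1 with hn
  have hb0' : b ≠ 0 := nonZeroDivisors.ne_zero (ne_bot_of_odd hodd)
  have hpr0 : ∏ C : S1, r C ≠ 0 := by
    rw [Finset.prod_ne_zero_iff]
    exact fun C _ => nonZeroDivisors.ne_zero (ne_bot_of_odd (hro C))
  have p1 : ∏ C : S1, (b * (cj τ b * r C)) = b ^ n * ((cj τ b) ^ n * ∏ C : S1, r C) := by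
    rw [Finset.prod_mul_distrib, Finset.prod_mul_distrib, Finset.prod_const, Finset.prod_const,
      Finset.card_univ, hcard]
  have p2 : ∏ C : S1, (b * (b * r (D0⁻¹ * C : S1))) = b ^ n * (b ^ n * ∏ C : S1, r C) := by
    have e1 : ∏ C : S1, (b * (b * r (D0⁻¹ * C : S1))) = ∏ C : S1, (b * (b * r C)) :=
      Equiv.prod_comp (Equiv.mulLeft D0⁻¹) (fun C : S1 => (b * (b * r C)))
    rw [e1, Finset.prod_mul_distrib, Finset.prod_mul_distrib, Finset.prod_const,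
      Finset.card_univ, hcard]
  rw [p1, p2] at hpq
  have hpq3 : Ideal.span {p} * (b * cj τ b) ^ n = Ideal.span {q} * b ^ (2 * n) := by
    apply mul_right_cancel₀ hpr0
    calc Ideal.span {p} * (b * cj τ b) ^ n * ∏ C : S1, r C
        = Ideal.span {p} * (b ^ n * ((cj τ b) ^ n * ∏ C : S1, r C)) := by rw [mul_pow]; ring
      _ = Ideal.span {q} * (b ^ n * (b ^ n * ∏ C : S1, r C)) := hpq
      _ = _ := by rw [two_mul, pow_add]; ring
  have hhn : Fintype.card (ClassGroup (𝓞 K)) / 2 = 2 * n := by omega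
  obtain ⟨k, hk⟩ : ∃ k, n = 2 * k := by
    obtain ⟨m, hm⟩ := h8
    exact ⟨m, by omega⟩
  exact em_fin hb hG hI hodd hodd' hN2 hhn hk h hp hq hpq2 hpq3

theorem main5b {K : Type u} [Field K] [NumberField K] {a : ℕ} {s : K} (hb : Base5 K a s)
    {b : Ideal (𝓞 K)} (hodd : OddI b)
    (h : ∀ x y : ℤ, ∀ δ : 𝓞 K, algebraMap (𝓞 K) K δ = x + 4 * y * s →
      b ^ (Fintype.card (ClassGroup (𝓞 K)) / 2) = Ideal.span {δ} → e8 (x + 4 * y) = -1) :
    IsCongruent a := by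
  by_cases h8 : 8 ∣ Fintype.card (ClassGroup (𝓞 K))
  swap
  · exact main8 hb h8
  by_contra hnc
  obtain ⟨d, l, hda, hd8, hl, hld⟩ := exists_factor hb.sf hb.mod (fun hp => prime_class hb hp h8)
  have hd0 : d ≠ 0 := by
    rintro rfl
    omega
  obtain ⟨S, hS, hQ⟩ := exists_Q5 hb
  obtain ⟨τ, hτ, -, -⟩ := Rf.exists_cj hb hS
  obtain ⟨F, _, _, _, _, _, _, ζ, w, X, Y, V, U, κ, hD⟩ := exists_idat hb hS hτ hd0
  obtain ⟨I, hI⟩ := exists_cmi (i_sq hD.gd.z8)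
  obtain ⟨ι, L, hin, hlL, hιs⟩ := exists_inert (F := F) hb hl (hld.trans hda)
  have hιζ := inert_zeta hin hD.gd.z8
  have hsF : (algebraMap K F s) ^ 2 = -(a : F) := by
    rw [← map_pow, hb.sq, map_neg, map_natCast]
  have hιw := inert_w hin hD.gd.z8 hb.sf hsF hD.hw hda hl hld hlL hιs
  obtain ⟨b0, hb7, hba, hbj, hi1, hi3⟩ := iota_pt hb hS hτ hD hd0 hI hιs hιζ hιw
  -- the ideal `e0`
  have hcn : ∀ c : Ideal (𝓞 K), Ideal.absNorm (cj τ c) = Ideal.absNorm c :=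
    fun c => (norm_cj hb hS hτ c).1
  have hn : Ideal.absNorm (cj τ (mI S a) * b0) = (1 + a) / 2 * Ideal.absNorm b0 := by
    rw [map_mul, hcn, norm_mI hb hS]
  have ha8 := hb.mod
  have hn3 : (1 + a) / 2 % 4 = 3 := by omega
  have he : Ideal.absNorm (cj τ (mI S a) * b0) % 4 = 1 := by
    rw [hn, Nat.mul_mod, hn3]
    have : Ideal.absNorm b0 % 4 = 3 := by omega
    rw [this]
  have hcop : Nat.Coprime ((1 + a) / 2) a := by
    have h1 : 2 * ((1 + a) / 2) = 1 + a := by omega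
    have h2 : Nat.gcd ((1 + a) / 2) a ∣ 1 := by
      have h3 : Nat.gcd ((1 + a) / 2) a ∣ 2 * ((1 + a) / 2) :=
        Dvd.dvd.mul_left (Nat.gcd_dvd_left _ _) _
      rw [h1] at h3
      exact (Nat.dvd_add_left (Nat.gcd_dvd_right _ _)).1 h3
    exact Nat.dvd_one.1 h2
  have hea : Nat.Coprime (Ideal.absNorm (cj τ (mI S a) * b0)) a := by
    rw [hn]
    exact Nat.Coprime.mul_left hcop hba
  have hej : jacobiSym d (Ideal.absNorm (cj τ (mI S a) * b0)) = -1 := by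
    have z1 : NeZero ((1 + a) / 2) := ⟨by omega⟩
    have z2 : NeZero (Ideal.absNorm b0) := ⟨by omega⟩
    rw [hn, jacobiSym.mul_right, jac_mi hb.mod hda hd8, hbj]
    norm_num
  obtain ⟨S0, S1, hle, c2, c4, hrep, q1, q2, hsq, q3⟩ := exists_quarter hb hda he hea hej
  choose! r hr1 hr2 using hrep
  have hR := iota_R hb hnc hS hτ hD hda hd8 hI hin hb7 hba hbj hi1 S0 S1 hle c2 q1 q2 q3 r
    hr1 hr2
  exact em_core hb hS hτ hD.gd hI hin (Nat.odd_iff.2 (by omega)) hi1 hi3 S1 c4 h8 hsq r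
    (fun C => hr1 C (hle C.2)) (fun C => hr2 C (hle C.2)) hR hodd h

end Pool.Agent.Work.MP_8efaaa_nt.N5
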