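import Mathlib
import Pool.Agent.Work.MP_8efaaa_nt.Rf.Fin
import Pool.Agent.Work.MP_8efaaa_nt.Rg.Reflb
import Pool.Agent.Work.MP_8efaaa_nt.N5.EMain

/-!
# N5/Fin8: the theorem on the narrow class number
-/

set_option autoImplicit false

namespace Pool.Agent.Work.MP_8efaaa_nt.N5

open NumberField Pool.Agent.Work.MP_8efaaa_nt.R Pool.Agent.Work.MP_8efaaa_nt.Rf

theorem final8 {F : Type*} [Field F] [NumberField F] {a : ℕ} (hsf : Squarefree a)
    (ha : a % 8 = 5) {f : F} (hF : Module.finrank ℚ F = 2) (hf : f ^ 2 = (a : F))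
    (h : ¬ 4 ∣ classNumber F ∨
      (¬ 8 ∣ classNumber F ∧ ∃ u : (𝓞 F)ˣ, Algebra.norm ℤ (u : 𝓞 F) = -1)) :
    IsCongruent a := by
  rcases h with h | ⟨h, u, hu⟩
  · exact Rf.final hsf ha hF hf h
  · obtain ⟨K, _, _, s, hb⟩ := exists_base hsf ha
    obtain ⟨b, hbo, hh⟩ := Rg.reflb hb hF hf hu h
    exact main5b hb hbo hh

end Pool.Agent.Work.MP_8efaaa_nt.N5
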